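import Pool.Agent.Lib.MP_3e612f_nt.NF.G.Defs

/-! Algebra of the data `MalK`. -/

set_option autoImplicit false

namespace Pool.Agent.Lib.MP_3e612f_nt.NF

open Finset

open scoped commutatorElement

variable {G : Type} [Group G] [TopologicalSpace G] {Γ : Subgroup G} {k : ℕ} {κ : Type} (M : MalK G Γ k κ)

theorem MalK.n_one : M.n 1 = 0 := by
  have h := M.n_mul 1 1
  rw [mul_one] at h
  exact left_eq_add.1 h

theorem MalK.n_inv (x : G) : M.n x⁻¹ = -M.n x := by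
  have h := M.n_mul x⁻¹ x
  rw [inv_mul_cancel, M.n_one] at h
  exact eq_neg_of_add_eq_zero_left h.symm

theorem MalK.n_pow (x : G) (m : ℕ) : M.n (x ^ m) = (m : ℤ) • M.n x := by
  induction m with
  | zero => simp [M.n_one]
  | succ m ih =>
    rw [pow_succ, M.n_mul, ih]
    push_cast
    rw [add_smul, one_smul]

theorem MalK.n_comm (x y : G) : M.n ⁅x, y⁆ = 0 := by
  rw [commutatorElement_def, M.n_mul, M.n_mul, M.n_mul, M.n_inv, M.n_inv]
  abel

theorem MalK.n_conj (x g : G) : M.n (g * x * g⁻¹) = M.n x := by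
  rw [M.n_mul, M.n_mul, M.n_inv]
  abel

theorem MalK.n_conj' (x g : G) : M.n (g⁻¹ * x * g) = M.n x := by
  rw [M.n_mul, M.n_mul, M.n_inv]
  abel

/-- `n = 0` on `LL G 1` -/
theorem MalK.n_LL {x : G} (hx : x ∈ LL G 1) : M.n x = 0 := by
  let K : Subgroup G :=
    { carrier := {z | M.n z = 0}
      one_mem' := M.n_one
      mul_mem' := by
        intro a b ha hb
        show M.n (a * b) = 0
        rw [M.n_mul, show M.n a = 0 from ha, show M.n b = 0 from hb, add_zero]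
      inv_mem' := by
        intro a ha
        show M.n a⁻¹ = 0
        rw [M.n_inv, show M.n a = 0 from ha, neg_zero] }
  have hK : LL G 1 ≤ K := by
    have h1 : LL G 1 = ⁅LL G 0, (⊤ : Subgroup G)⁆ := rfl
    rw [h1, Subgroup.commutator_le]
    intro x _ y _
    exact M.n_comm x y
  exact hK hx

theorem MalK.n_LL' {i : ℕ} (hi : 0 < i) {x : G} (hx : x ∈ LL G i) : M.n x = 0 := M.n_LL (LL_anti hi hx)

theorem MalK.p_one {i : ℕ} (hi : i < k) : M.p i 1 = 0 := (M.p_ker i hi 1 (one_mem _) M.n_one).2 (one_mem _)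

theorem MalK.p_inv {i : ℕ} (hi : i < k) {x : G} (hx : x ∈ LL G i) : M.p i x⁻¹ = -M.p i x := by
  have h := M.p_mul i hi x⁻¹ (inv_mem hx) x hx
  rw [inv_mul_cancel, M.p_one hi] at h
  exact eq_neg_of_add_eq_zero_left h.symm

theorem MalK.p_next {i : ℕ} (hi : i < k) {x : G} (hx : x ∈ LL G (i + 1)) : M.p i x = 0 :=
  (M.p_ker i hi x (LL_le i hx) (M.n_LL' (Nat.succ_pos i) hx)).2 hx

theorem MalK.p_mul_left {i : ℕ} (hi : i < k) {h x : G} (hh : h ∈ LL G (i + 1)) (hx : x ∈ LL G i) : M.p i (h * x) = M.p i x := by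
  rw [M.p_mul i hi h (LL_le i hh) x hx, M.p_next hi hh, zero_add]

theorem MalK.p_conj {i : ℕ} (hi : i < k) {x : G} (hx : x ∈ LL G i) (g : G) : M.p i (g * x * g⁻¹) = M.p i x := by
  obtain ⟨h, hh, he⟩ := LL_swap hx g
  rw [he]
  have : h * (x * g) * g⁻¹ = h * x := by group
  rw [this, M.p_mul_left hi hh hx]

theorem MalK.p_conj' {i : ℕ} (hi : i < k) {x : G} (hx : x ∈ LL G i) (g : G) : M.p i (g⁻¹ * x * g) = M.p i x := by
  have := M.p_conj hi hx g⁻¹
  rwa [inv_inv] at this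

theorem MalK.p_eq_iff {i : ℕ} (hi : i < k) {x y : G} (hx : x ∈ LL G i) (hy : y ∈ LL G i) (hn : M.n x = M.n y) :
    M.p i x = M.p i y ↔ x * y⁻¹ ∈ LL G (i + 1) := by
  rw [← M.p_ker i hi _ (mul_mem hx (inv_mem hy)) (by rw [M.n_mul, M.n_inv, hn, add_neg_cancel]), M.p_mul i hi x hx _ (inv_mem hy), M.p_inv hi hy,
    ← sub_eq_add_neg, sub_eq_zero]

theorem MalK.p_pow {i : ℕ} (hi : i < k) {x : G} (hx : x ∈ LL G i) (n : ℕ) : M.p i (x ^ n) = (n : ℝ) • M.p i x := by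
  induction n with
  | zero => simp [M.p_one hi]
  | succ n ih =>
    rw [pow_succ, M.p_mul i hi _ (pow_mem hx n) x hx, ih]
    push_cast
    rw [add_smul, one_smul]

theorem MalK.p0_mul (hk : 0 < k) (x y : G) : M.p 0 (x * y) = M.p 0 x + M.p 0 y := M.p_mul 0 hk x (LL_zero x) y (LL_zero y)

theorem MalK.p0_pow (hk : 0 < k) (x : G) (n : ℕ) : M.p 0 (x ^ n) = (n : ℝ) • M.p 0 x := M.p_pow hk (LL_zero x) n

theorem MalK.p0_inv (hk : 0 < k) (x : G) : M.p 0 x⁻¹ = -M.p 0 x := M.p_inv hk (LL_zero x)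

theorem MalK.p0_conj (hk : 0 < k) (x g : G) : M.p 0 (g * x * g⁻¹) = M.p 0 x := M.p_conj hk (LL_zero x) g

theorem MalK.p0_conj' (hk : 0 < k) (x g : G) : M.p 0 (g⁻¹ * x * g) = M.p 0 x := M.p_conj' hk (LL_zero x) g

theorem MalK.p0_cont (hk : 0 < k) : Continuous (M.p 0) := by
  have h := M.p_cont 0 hk
  have h2 : (LL G 0 : Set G) = Set.univ := by
    ext x
    simp
  rw [h2] at h
  exact continuousOn_univ.1 h

/-- `Γ` has elements with prescribed horizontal coordinates and prescribed component -/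
theorem MalK.int_pn (hk : 0 < k) (z : M.I 0 → ℤ) (ν : κ → ℤ) : ∃ γ ∈ Γ, M.n γ = ν ∧ ∀ j, M.p 0 γ j = z j := by
  obtain ⟨γ₁, h1, -, h2, h3⟩ := M.int_p 0 hk z
  obtain ⟨γ₂, h4, h5, h6⟩ := M.int_n ν
  refine ⟨γ₁ * γ₂, mul_mem h1 h4, by rw [M.n_mul, h2, h5, zero_add], fun j => ?_⟩
  rw [M.p0_mul hk, h6 hk, add_zero, h3 j]

end Pool.Agent.Lib.MP_3e612f_nt.NF
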