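import Pool.Agent.Lib.MP_3e612f_nt.NF.O.MainO

/-! Windows, vector frequencies, null sets, ordinary averages, several exponents. -/

set_option autoImplicit false

namespace Pool.Agent.Lib.MP_3e612f_nt.NF

open Finset
open Pool.Agent.Lib.MP_3e612f_nt.MR (mu ex)

/-- The pair hypothesis with exponents `t ∈ [1, K]`, for objects `o`, `o'` in `S`. -/
def PairHypM (K : ℕ) {ι Om : Type} [Fintype ι] (f : Om → ℕ → ℂ) (fr : Om → ι → ℝ) : Prop :=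
  ∀ κ : ℝ, 0 < κ → ∃ B : ℕ, ∀ (p q J : ℕ), 1 ≤ p → 1 ≤ q → 1 ≤ J → ∀ (o o' : Om) (s s' : ℕ),
    κ * J ≤ ‖∑ j ∈ range J, f o (s + p * j) * (starRingEnd ℂ) (f o' (s' + q * j))‖ →
    ∃ t ∈ Icc 1 K, ∃ m m' : ι → ℤ, (m ≠ 0 ∨ m' ≠ 0) ∧ (∀ i, |m i| ≤ B) ∧ (∀ i, |m' i| ≤ B) ∧
      dZ ((p : ℝ) ^ t * dot m (fr o) + (q : ℝ) ^ t * dot m' (fr o')) ≤ B / J

open scoped Classical in
theorem block_null_all (K : ℕ) (C : Set ℝ) (hC : IsClosed C) (hper : ∀ x ∈ C, ∀ z : ℤ, x + z ∈ C) (h0 : MeasureTheory.volume C = 0) (δ : ℝ) (hδ : 0 < δ) :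
    ∃ R₀ : ℕ, ∀ ρ₀ : ℝ, 0 < ρ₀ → ∃ ρ : ℝ, 0 < ρ ∧ ∃ j₀ : ℕ, ∀ t ∈ Icc 1 K, ∀ j : ℕ, j₀ ≤ j → ∀ γ : ℝ,
      ∑ p ∈ PB j, (if (∃ x ∈ C, |(p : ℝ) ^ t * γ - x| ≤ ρ) ∧ (∀ r : ℕ, 1 ≤ r → r < R₀ → ∀ b : ℤ, ρ₀ ≤ |(p : ℝ) ^ t * γ - b / r|) then 1 / (p : ℝ) else 0)
        ≤ δ * ∑ p ∈ PB j, 1 / (p : ℝ) := by
  choose! R hR using fun (t : ℕ) (ht : 1 ≤ t) => block_null t ht C hC hper h0 δ hδ
  refine ⟨∑ t ∈ Icc 1 K, R t, fun ρ₀ hρ₀ => ?_⟩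
  choose! ρ hρ j' hj' using fun (t : ℕ) (ht : 1 ≤ t) => hR t ht ρ₀ hρ₀
  obtain ⟨ρ', hρ', hρ''⟩ : ∃ ρ' : ℝ, 0 < ρ' ∧ ∀ t ∈ Icc 1 K, ρ' ≤ ρ t := by
    rcases (Icc 1 K).eq_empty_or_nonempty with h | h
    · exact ⟨1, one_pos, fun t ht => absurd ht (by rw [h]; exact notMem_empty t)⟩
    · refine ⟨(Icc 1 K).inf' h ρ, ?_, fun t ht => inf'_le _ ht⟩
      rw [lt_inf'_iff]
      intro t ht
      exact hρ t (mem_Icc.1 ht).1
  refine ⟨ρ', hρ', ∑ t ∈ Icc 1 K, j' t, fun t ht j hj γ => ?_⟩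
  have h1 : j' t ≤ j := (single_le_sum (f := j') (fun _ _ => Nat.zero_le _) ht).trans hj
  have h2 : R t ≤ ∑ t ∈ Icc 1 K, R t := single_le_sum (f := R) (fun _ _ => Nat.zero_le _) ht
  refine le_trans (sum_le_sum fun p _ => ?_) (hj' t (mem_Icc.1 ht).1 j h1 γ)
  by_cases h3 : (∃ x ∈ C, |(p : ℝ) ^ t * γ - x| ≤ ρ') ∧ (∀ r : ℕ, 1 ≤ r → r < ∑ t ∈ Icc 1 K, R t → ∀ b : ℤ, ρ₀ ≤ |(p : ℝ) ^ t * γ - b / r|)
  · rw [if_pos h3, if_pos]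
    obtain ⟨⟨x, hx, hx'⟩, h4⟩ := h3
    exact ⟨⟨x, hx, hx'.trans (hρ'' t ht)⟩, fun r hr1 hr2 b => h4 r hr1 (lt_of_lt_of_le hr2 h2) b⟩
  · rw [if_neg h3]
    split_ifs
    · positivity
    · exact le_rfl

theorem far_all (K : ℕ) (C : Set ℝ) (hC : IsClosed C) (hper : ∀ x ∈ C, ∀ z : ℤ, x + z ∈ C) (hrat : ∀ q : ℚ, (q : ℝ) ∉ C) (P : Finset ℕ)
    (hP : ∀ p ∈ P, 1 ≤ p) : ∃ c : ℝ, 0 < c ∧ ∀ t ∈ Icc 1 K, ∀ p ∈ P, ∀ x ∈ C, c ≤ dZ ((p : ℝ) ^ t * x) := by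
  choose c hc hc' using fun t : ℕ => far_finset C hC hper hrat t P hP
  rcases (Icc 1 K).eq_empty_or_nonempty with h | h
  · exact ⟨1, one_pos, fun t ht => absurd ht (by rw [h]; exact notMem_empty t)⟩
  · refine ⟨(Icc 1 K).inf' h c, ?_, fun t ht p hp x hx => (inf'_le _ ht).trans (hc' t p hp x hx)⟩
    rw [lt_inf'_iff]
    intro t _
    exact hc t

theorem windows_om (K : ℕ) {ι Om : Type} [Fintype ι] (f : Om → ℕ → ℂ) (hf : ∀ o n, ‖f o n‖ ≤ 1) (fr : Om → ι → ℝ) (hp : PairHypM K f fr)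
    (ε : ℝ) (hε : 0 < ε) : ∃ B : ℕ, ∀ S : Set Om,
      (∀ m : ι → ℤ, m ≠ 0 → (∀ i, |m i| ≤ B) → Small 0 (Fr {x | ∃ o ∈ S, x = dot m (fr o)})) →
      ∃ H₀ : ℕ, ∀ H : ℕ, H₀ ≤ H → ∃ N₀ : ℕ, ∀ N : ℕ, N₀ ≤ N → ∀ o : ℕ → Om, (∀ n, o n ∈ S) →
        ∑ n ∈ Icc 1 N, ‖∑ h ∈ Icc 1 H, (mu (n + h) : ℂ) * f (o n) h‖ ≤ ε * H * N := by
  classical
  wlog hK : 1 ≤ K generalizing K with HK
  · have hp' : PairHypM 1 f fr := by
      intro κ hκ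
      obtain ⟨B, hB⟩ := hp κ hκ
      refine ⟨B, fun p q J h1 h2 h3 o o' s s' h => ?_⟩
      obtain ⟨t, ht, -⟩ := hB p q J h1 h2 h3 o o' s s' h
      rw [mem_Icc] at ht
      omega
    exact HK 1 hp' le_rfl
  -- constants
  set e : ℝ := min (ε / 2) 1 with he
  have he0 : 0 < e := lt_min (by positivity) one_pos
  have he1 : e ≤ 1 := min_le_right _ _
  have heε : 2 * e ≤ ε := by
    have := min_le_left (ε / 2) 1
    linarith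
  obtain ⟨B, hB⟩ := hp (e ^ 2 / 512) (by positivity)
  obtain ⟨U, hUne, -, hU⟩ := box_finset ι B
  have hKne : (Icc 1 K).Nonempty := ⟨1, mem_Icc.2 ⟨le_rfl, hK⟩⟩
  set κ₂ : ℝ := e ^ 2 / 16384 / (#(Icc 1 K ×ˢ (U ×ˢ U)) : ℝ) with hκ₂
  have hUU : (0 : ℝ) < (#(Icc 1 K ×ˢ (U ×ˢ U)) : ℝ) := by
    rw [card_product, card_product]
    have := hUne.card_pos
    have := hKne.card_pos
    positivity
  have hκ₂0 : 0 < κ₂ := by positivity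
  refine ⟨B, fun S hS => ?_⟩
  -- the closed set
  set U' : Finset (ι → ℤ) := U.filter (fun m => m ≠ 0) with hU'
  have hU'S : ∀ m ∈ U', Small 0 (Fr {x | ∃ o ∈ S, x = dot m (fr o)}) := by
    intro m hm
    rw [hU', mem_filter] at hm
    exact hS m hm.2 ((hU m).mp hm.1)
  obtain ⟨hCcl, hCper, hCrat, hCvol⟩ := union_small U' (fun m => Fr {x | ∃ o ∈ S, x = dot m (fr o)}) 0 (fun m _ => Fr_closed _) (fun m _ x hx z => Fr_add_int _ hx z) hU'S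
  set C : Set ℝ := ⋃ m ∈ U', Fr {x | ∃ o ∈ S, x = dot m (fr o)} with hC
  have hmemC : ∀ m ∈ U', ∀ o ∈ S, dot m (fr o) ∈ C := by
    intro m hm o ho
    rw [hC]
    simp only [Set.mem_iUnion]
    exact ⟨m, hm, mem_Fr ⟨o, ho, rfl⟩⟩
  have hC0 : MeasureTheory.volume C = 0 := by
    refine null_of_unit C hCper ?_
    rw [mul_zero, ENNReal.ofReal_zero] at hCvol
    exact nonpos_iff_eq_zero.1 hCvol
  obtain ⟨R₀, hR₀⟩ := block_null_all K C hCcl hCper hC0 (κ₂ ^ 4 / 4) (by positivity)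
  obtain ⟨ρ₀, hρ₀, hdist⟩ := dist_rat C hCcl hCper hCrat R₀
  obtain ⟨ρ, hρ, j', hj'⟩ := hR₀ ρ₀ hρ₀
  obtain ⟨j₀, j₁, hj₀, hL, hblk⟩ := exists_blocks j' (100 / e ^ 2) (min (e ^ 2 / 128) (κ₂ ^ 4 / 16)) (lt_min (by positivity) (by positivity))
  set P : Finset ℕ := (Ico j₀ j₁).biUnion PB with hPdef
  have hPB : ∀ j ∈ Ico j₀ j₁, ∀ p ∈ PB j, p ∈ P := fun j hj p hp => mem_biUnion.2 ⟨j, hj, hp⟩
  have hP1 : ∀ p ∈ P, 1 ≤ p := by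
    intro p hp
    obtain ⟨j, _, hp⟩ := mem_biUnion.1 hp
    exact (PB_prime hp).one_le
  obtain ⟨c, hc0, hc⟩ := far_all K C hCcl hCper hCrat P hP1
  set X : ℕ := 4 ^ j₁ with hXdef
  have hX1 : 1 ≤ X := Nat.one_le_pow _ _ (by norm_num)
  have hX0 : (0 : ℝ) < X := by exact_mod_cast hX1
  have hX1' : (1 : ℝ) ≤ X := by exact_mod_cast hX1
  have hX : ∀ j ∈ Ico j₀ j₁, ∀ p ∈ PB j, p ≤ X := by
    intro j hj p hp
    refine (PB_up hp).trans (Nat.pow_le_pow_right (by norm_num) ?_)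
    have := (mem_Ico.1 hj).2
    omega
  -- the length of the windows
  set ρm : ℝ := min ρ ρ₀ with hρm
  have hρm0 : 0 < ρm := lt_min hρ hρ₀
  set D : ℝ := 2 * B / c + X ^ K * B / ρm + 3 * B * X ^ (4 * K) + 1 with hD
  have hD1 : 1 ≤ D := by
    have : 0 ≤ 2 * B / c + X ^ K * B / ρm + 3 * B * X ^ (4 * K) := by positivity
    linarith
  refine ⟨⌈2048 * X * (D + 1) / e ^ 2⌉₊ + 1, fun H hH => ?_⟩
  have hH1 : 1 ≤ H := by omega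
  have hH2 : 2048 * X * (D + 1) / e ^ 2 ≤ H := by
    refine (Nat.le_ceil _).trans ?_
    have : ⌈2048 * X * (D + 1) / e ^ 2⌉₊ ≤ H := by omega
    exact_mod_cast this
  set J : ℕ := ⌊e ^ 2 * H / (2048 * X)⌋₊ with hJ
  have hJ1 : (J : ℝ) ≤ e ^ 2 * H / (2048 * X) := Nat.floor_le (by positivity)
  have hJ2 : e ^ 2 * H / (2048 * X) < J + 1 := Nat.lt_floor_add_one _
  have hJD : D ≤ J := by
    have h1 : D + 1 ≤ e ^ 2 * H / (2048 * X) := by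
      rw [le_div_iff₀ (by positivity)]
      rw [div_le_iff₀ (by positivity)] at hH2
      linarith
    linarith
  have hJpos : (0 : ℝ) < J := by linarith
  have hJ1' : 1 ≤ J := by exact_mod_cast hJpos
  have hJH : 2048 * ((4 : ℝ) ^ j₁ * J) ≤ e ^ 2 * H := by
    rw [le_div_iff₀ (by positivity)] at hJ1
    have h4 : (X : ℝ) = (4 : ℝ) ^ j₁ := by
      rw [hXdef]
      push_cast
      ring
    rw [← h4]
    linarith
  set τ : ℝ := B / J with hτ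
  have hτ0 : 0 ≤ τ := by positivity
  have hτc : τ < c := by
    rw [hτ, div_lt_iff₀ hJpos]
    have h1 : 2 * B / c ≤ J := by
      have : 0 ≤ X ^ K * B / ρm + 3 * B * X ^ (4 * K) := by positivity
      linarith
    rw [div_le_iff₀ hc0] at h1
    have h2 : 0 < c * J := by positivity
    linarith
  have hτρ : (X : ℝ) ^ K * τ ≤ ρm := by
    have h1 : X ^ K * B / ρm ≤ J := by
      have : 0 ≤ 2 * B / c + 3 * B * X ^ (4 * K) := by positivity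
      linarith
    rw [hτ, mul_div_assoc', div_le_iff₀ hJpos]
    rw [div_le_iff₀ hρm0] at h1
    linarith
  have hτX : 2 * τ * (X : ℝ) ^ (4 * K) < 1 := by
    have h1 : 3 * B * X ^ (4 * K) + 1 ≤ (J : ℝ) := by
      have : 0 ≤ 2 * B / c + X ^ K * B / ρm := by positivity
      linarith
    have h2 : 2 * τ * (X : ℝ) ^ (4 * K) = 2 * B * X ^ (4 * K) / J := by
      rw [hτ]
      ring
    rw [h2, div_lt_one hJpos]
    have : 0 ≤ (B : ℝ) * X ^ (4 * K) := by positivity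
    linarith
  -- the relation
  set R : ℕ → ℕ → Om → Om → Prop := fun p q v v' => ∃ m ∈ Icc 1 K ×ˢ (U ×ˢ U), (m.2.1 ≠ 0 ∨ m.2.2 ≠ 0) ∧
    dZ ((p : ℝ) ^ m.1 * dot m.2.1 (fr v) + (q : ℝ) ^ m.1 * dot m.2.2 (fr v')) ≤ τ with hR
  obtain ⟨N₀, hN₀⟩ := one_n_o f hf e he0 he1 j₀ j₁ hL (fun j hj => (hblk j hj).1) (fun j hj p hp => ((hblk j hj).2 p hp).trans (min_le_left _ _)) J H hJ1' hH1 hJH R S (by
    intro j hj p hp q hq v _ v' _ s s' _ _ hbig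
    obtain ⟨t, ht, m, m', hne, hm, hm', hd⟩ := hB p q J (PB_prime hp).one_le (PB_prime hq).one_le hJ1' v v' s s' hbig
    exact ⟨(t, (m, m')), mem_product.mpr ⟨ht, mem_product.mpr ⟨(hU m).mpr hm, (hU m').mpr hm'⟩⟩, hne, hd⟩)
  refine ⟨N₀ + 1, fun N hN o ho => ?_⟩
  by_contra hcon
  push Not at hcon
  obtain ⟨j, hj, i, hi⟩ := hN₀ N (by omega) o ho (by
    refine le_trans ?_ hcon.le
    refine mul_le_mul_of_nonneg_right (mul_le_mul_of_nonneg_right heε (by positivity)) (by positivity))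
  obtain ⟨hpos, hwt⟩ := hblk j hj
  have hPj : ∀ p ∈ PB j, p.Prime := fun p hp => PB_prime hp
  -- pigeonhole
  obtain ⟨⟨t, m, m'⟩, hmU, hm⟩ := kpig (PB j) (wt (PB j)) (fun p _ => wt_nonneg (PB j) p) (Icc 1 K ×ˢ (U ×ˢ U)) (hKne.product (hUne.product hUne))
    (fun p q m => p ≠ q ∧ (m.2.1 ≠ 0 ∨ m.2.2 ≠ 0) ∧ dZ ((p : ℝ) ^ m.1 * dot m.2.1 (fr (o (i q))) + (q : ℝ) ^ m.1 * dot m.2.2 (fr (o (i p)))) ≤ τ) (e ^ 2 / 16384) (by
      refine hi.trans (sum_le_sum fun p _ => sum_le_sum fun q _ => mul_le_mul_of_nonneg_left ?_ (mul_nonneg (wt_nonneg _ _) (wt_nonneg _ _)))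
      by_cases h1 : p ≠ q ∧ R p q (o (i q)) (o (i p))
      · obtain ⟨hpq, m, hmU, hne, hd⟩ := h1
        rw [if_pos ⟨hpq, m, hmU, hne, hd⟩, if_pos ⟨m, hmU, hpq, hne, hd⟩]
      · rw [if_neg h1]
        split_ifs <;> norm_num)
  rw [← hκ₂] at hm
  rw [mem_product, mem_product] at hmU
  obtain ⟨htK, hmU1, hmU2⟩ := hmU
  dsimp only at hm hmU1 hmU2 htK
  have ht1 : 1 ≤ t := (mem_Icc.1 htK).1
  have htK' : t ≤ K := (mem_Icc.1 htK).2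
  have hτρt : (X : ℝ) ^ t * τ ≤ ρm :=
    (mul_le_mul_of_nonneg_right (pow_le_pow_right₀ hX1' htK') hτ0).trans hτρ
  have hτXt : 2 * τ * (X : ℝ) ^ (4 * t) < 1 := by
    refine lt_of_le_of_lt ?_ hτX
    exact mul_le_mul_of_nonneg_left (pow_le_pow_right₀ hX1' (by omega)) (by positivity)
  -- both vectors are nonzero
  obtain ⟨p₁, hp₁, q₁, hq₁, hpq₁, hne₁, hd₁⟩ : ∃ p ∈ PB j, ∃ q ∈ PB j, p ≠ q ∧ (m ≠ 0 ∨ m' ≠ 0) ∧
      dZ ((p : ℝ) ^ t * dot m (fr (o (i q))) + (q : ℝ) ^ t * dot m' (fr (o (i p)))) ≤ τ := by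
    by_contra hno
    push Not at hno
    have h2 : κ₂ ≤ 0 := by
      refine hm.trans (le_of_eq (sum_eq_zero fun p hp => sum_eq_zero fun q hq => ?_))
      rw [if_neg, mul_zero]
      rintro ⟨h2, h3, h4⟩
      exact absurd h4 (not_le.mpr (hno p hp q hq h2 h3))
    linarith
  have hm0 : m ≠ 0 := by
    rintro rfl
    have hm'0 : m' ≠ 0 := by
      rcases hne₁ with h | h
      · exact absurd rfl h
      · exact h
    rw [dot_zero_left, mul_zero, zero_add] at hd₁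
    have h1 := hc t htK q₁ (hPB j hj q₁ hq₁) _ (hmemC m' (mem_filter.mpr ⟨hmU2, hm'0⟩) _ (ho (i p₁)))
    linarith
  have hm'0 : m' ≠ 0 := by
    rintro rfl
    rw [dot_zero_left, mul_zero, add_zero] at hd₁
    have h1 := hc t htK p₁ (hPB j hj p₁ hp₁) _ (hmemC m (mem_filter.mpr ⟨hmU1, hm0⟩) _ (ho (i q₁)))
    linarith
  refine contradiction_of_pairs_o t ht1 (PB j) hPj X (hX j hj) (fun p γ => (∃ x ∈ C, |(p : ℝ) ^ t * γ - x| ≤ ρ) ∧ (∀ r : ℕ, 1 ≤ r → r < R₀ → ∀ b : ℤ, ρ₀ ≤ |(p : ℝ) ^ t * γ - b / r|)) κ₂ τ hκ₂0 hτ0 hτXt hpos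
    (fun p hp => (hwt p hp).trans (min_le_right _ _)) (fun γ => by
      refine le_trans (le_of_eq (sum_congr rfl fun p _ => ?_)) (hj' t htK j (hj₀.trans (mem_Ico.1 hj).1) γ)
      congr)
    (fun q => dot m (fr (o (i q)))) (fun p => -dot m' (fr (o (i p)))) (fun q _ γ h2 => ?_) ?_
  · obtain ⟨z, hz⟩ := exists_int ((q : ℝ) ^ t * γ - dot m (fr (o (i q))))
    have hxC : dot m (fr (o (i q))) + z ∈ C := hCper _ (hmemC m (mem_filter.mpr ⟨hmU1, hm0⟩) _ (ho (i q))) z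
    have hxd : |(q : ℝ) ^ t * γ - (dot m (fr (o (i q))) + z)| ≤ ρm := by
      rw [← sub_sub, hz]
      exact h2.trans hτρt
    refine ⟨⟨_, hxC, hxd.trans (min_le_left _ _)⟩, fun r hr1 hr2 b => ?_⟩
    have h3 := hdist _ hxC r hr1 hr2 b
    have h4 := hxd.trans (min_le_right _ _)
    have h5 : |(dot m (fr (o (i q))) + z) - b / r| ≤ |(q : ℝ) ^ t * γ - b / r| + |(q : ℝ) ^ t * γ - (dot m (fr (o (i q))) + z)| := by
      have h6 : (dot m (fr (o (i q))) + z) - b / r = ((q : ℝ) ^ t * γ - b / r) - ((q : ℝ) ^ t * γ - (dot m (fr (o (i q))) + z)) := by ring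
      rw [h6]
      exact abs_sub _ _
    linarith
  refine hm.trans (sum_le_sum fun p _ => sum_le_sum fun q _ => mul_le_mul_of_nonneg_left ?_ (mul_nonneg (wt_nonneg _ _) (wt_nonneg _ _)))
  by_cases h1 : p ≠ q ∧ (m ≠ 0 ∨ m' ≠ 0) ∧ dZ ((p : ℝ) ^ t * dot m (fr (o (i q))) + (q : ℝ) ^ t * dot m' (fr (o (i p)))) ≤ τ
  · rw [if_pos h1]
    have h2 : p ≠ q ∧ dZ ((p : ℝ) ^ t * dot m (fr (o (i q))) - (q : ℝ) ^ t * -dot m' (fr (o (i p)))) ≤ τ := by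
      refine ⟨h1.1, ?_⟩
      rw [mul_neg, sub_neg_eq_add]
      exact h1.2.2
    rw [if_pos h2]
  · rw [if_neg h1]
    split_ifs <;> norm_num

end Pool.Agent.Lib.MP_3e612f_nt.NF
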