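import Pool.Agent.Lib.MP_3e612f_nt.NF.G.PairK
import Pool.Agent.Lib.MP_3e612f_nt.NF.G.WinM
import Pool.Agent.Lib.MP_3e612f_nt.NF.X.ApNil

/-! Nilrotations along arithmetic progressions, ordinary averages, null sets; the group need not be connected. -/

set_option autoImplicit false

namespace Pool.Agent.Lib.MP_3e612f_nt.NF

open Finset
open Pool.Agent.Lib.MP_3e612f_nt.MR (mu ex)

/-- The family `n ↦ 1_{n ≡ b (Q)} f_o((n - b)/Q)` satisfies the pair hypothesis. -/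
theorem pairhyp_apM (K : ℕ) {ι Om : Type} [Fintype ι] (f : Om → ℕ → ℂ) (fr : Om → ι → ℝ) (hp : PairHypM K f fr) (Q : ℕ) (hQ : 1 ≤ Q) :
    PairHypM K (fun (o : Om × ℕ) (n : ℕ) => if n % Q = o.2 then f o.1 (n / Q) else 0) (fun o => fr o.1) := by
  intro κ hκ
  have hQ0 : (0 : ℝ) < Q := by exact_mod_cast hQ
  obtain ⟨B, hB⟩ := hp (κ / Q) (by positivity)
  refine ⟨2 * Q * B, fun p q J hp1 hq1 hJ1 o o' s s' h => ?_⟩
  set a : ℕ → ℂ := fun j => (if (s + p * j) % Q = o.2 then f o.1 ((s + p * j) / Q) else 0) *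
    (starRingEnd ℂ) (if (s' + q * j) % Q = o'.2 then f o'.1 ((s' + q * j) / Q) else 0) with ha
  have h0 : κ * J ≤ ‖∑ j ∈ range J, a j‖ := h
  rw [ap_split a Q hQ J] at h0
  -- one class
  obtain ⟨r, hr, hr2⟩ : ∃ r ∈ range Q, κ / Q * J ≤ ‖∑ i ∈ range ((J + Q - 1 - r) / Q), a (Q * i + r)‖ := by
    by_contra hcon
    push Not at hcon
    have h1 : ‖∑ r ∈ range Q, ∑ i ∈ range ((J + Q - 1 - r) / Q), a (Q * i + r)‖ < ∑ r ∈ range Q, κ / Q * J := by
      refine lt_of_le_of_lt (norm_sum_le _ _) ?_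
      exact sum_lt_sum_of_nonempty ⟨0, mem_range.2 (by omega)⟩ hcon
    rw [sum_const, card_range, nsmul_eq_mul] at h1
    have h2 : (Q : ℝ) * (κ / Q * J) = κ * J := by field_simp
    linarith
  rw [mem_range] at hr
  set J' : ℕ := (J + Q - 1 - r) / Q with hJ'
  have hJ0 : (0 : ℝ) < J := by exact_mod_cast hJ1
  have hJ'1 : 1 ≤ J' := by
    rcases Nat.eq_zero_or_pos J' with h1 | h1
    · rw [h1, range_zero, sum_empty, norm_zero] at hr2
      have : 0 < κ / Q * J := by positivity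
      linarith
    · exact h1
  have hJ'J : J' ≤ J := by
    rw [hJ']
    refine Nat.div_le_of_le_mul ?_
    have : Q + J ≤ Q * J + 1 := by nlinarith
    omega
  have hJJ' : J ≤ 2 * Q * J' := by
    have h1 := Nat.div_add_mod (J + Q - 1 - r) Q
    rw [← hJ'] at h1
    have h2 := Nat.mod_lt (J + Q - 1 - r) (show 0 < Q by omega)
    have h3 : Q ≤ Q * J' := Nat.le_mul_of_pos_right Q hJ'1
    have h4 : 2 * Q * J' = Q * J' + Q * J' := by ring
    omega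
  -- the terms
  have hterm : ∀ i : ℕ, a (Q * i + r) = if (s + p * r) % Q = o.2 ∧ (s' + q * r) % Q = o'.2 then
      f o.1 ((s + p * r) / Q + p * i) * (starRingEnd ℂ) (f o'.1 ((s' + q * r) / Q + q * i)) else 0 := by
    intro i
    have e1 : s + p * (Q * i + r) = Q * (p * i) + (s + p * r) := by ring
    have e2 : s' + q * (Q * i + r) = Q * (q * i) + (s' + q * r) := by ring
    have hQp : 0 < Q := by omega
    rw [ha]
    beta_reduce
    rw [e1, e2, Nat.mul_add_mod, Nat.mul_add_mod, Nat.mul_add_div hQp, Nat.mul_add_div hQp]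
    by_cases c1 : (s + p * r) % Q = o.2
    · by_cases c2 : (s' + q * r) % Q = o'.2
      · rw [if_pos c1, if_pos c2, if_pos ⟨c1, c2⟩, add_comm (p * i), add_comm (q * i)]
      · rw [if_neg c2, map_zero, mul_zero, if_neg fun h => c2 h.2]
    · rw [if_neg c1, zero_mul, if_neg fun h => c1 h.1]
  by_cases hc : (s + p * r) % Q = o.2 ∧ (s' + q * r) % Q = o'.2
  · have h1 : ∑ i ∈ range J', a (Q * i + r) = ∑ i ∈ range J', f o.1 ((s + p * r) / Q + p * i) * (starRingEnd ℂ) (f o'.1 ((s' + q * r) / Q + q * i)) :=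
      sum_congr rfl fun i _ => by rw [hterm i, if_pos hc]
    rw [h1] at hr2
    have h2 : κ / Q * J' ≤ κ / Q * J := mul_le_mul_of_nonneg_left (by exact_mod_cast hJ'J) (by positivity)
    obtain ⟨t, ht, m, m', hmm, hm, hm', hd⟩ := hB p q J' hp1 hq1 hJ'1 o.1 o'.1 _ _ (h2.trans hr2)
    have hBB : (B : ℤ) ≤ ((2 * Q * B : ℕ) : ℤ) := by
      have : B ≤ 2 * Q * B := Nat.le_mul_of_pos_left B (by omega)
      exact_mod_cast this
    refine ⟨t, ht, m, m', hmm, fun i => (hm i).trans hBB, fun i => (hm' i).trans hBB, hd.trans ?_⟩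
    have hJ'0 : (0 : ℝ) < J' := by exact_mod_cast hJ'1
    rw [div_le_div_iff₀ hJ'0 hJ0]
    have h3 : (J : ℝ) ≤ ((2 * Q * J' : ℕ) : ℝ) := by exact_mod_cast hJJ'
    push_cast at h3 ⊢
    have h4 := mul_le_mul_of_nonneg_left h3 (Nat.cast_nonneg (α := ℝ) B)
    linarith
  · exfalso
    have h1 : ∑ i ∈ range J', a (Q * i + r) = 0 := sum_eq_zero fun i _ => by rw [hterm i, if_neg hc]
    rw [h1, norm_zero] at hr2
    have : 0 < κ / Q * J := by positivity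
    linarith

/-- The pair hypothesis for the orbits of the elements `g` with `n g ≠ 0`, `|n g| ≤ V`. -/
theorem pairhyp_nilM {G : Type} [Group G] [TopologicalSpace G] [IsTopologicalGroup G] {Γ : Subgroup G} {k : ℕ} (M : MalK G Γ k Unit) {F : G → ℂ} (hF : Adm Γ k F) (V : ℕ) :
    ∃ (c : ℂ) (C : ℝ), 0 < C ∧ (∀ x, ‖F x - c‖ ≤ C) ∧
      PairHypM k (fun (o : {g : G // M.n g () ≠ 0 ∧ |M.n g ()| ≤ V} × G) (n : ℕ) => (F ((o.1 : G) ^ n * o.2) - c) / C) (fun o => M.p 0 (o.1 : G)) := by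
  obtain ⟨C₀, hC₀, hb⟩ := hF.bddK M
  obtain ⟨c, hc⟩ := pair_relK M hF
  obtain ⟨C, hC⟩ : ∃ C : ℝ, C = C₀ + ‖c‖ := ⟨_, rfl⟩
  have hCpos : 0 < C := by
    rw [hC]
    positivity
  refine ⟨c, C, hCpos, fun x => ?_, fun κ hκ => ?_⟩
  · rw [hC]
    exact (norm_sub_le _ _).trans (add_le_add (hb x) le_rfl)
  obtain ⟨B, hB⟩ := hc (κ * C ^ 2) (by positivity)
  obtain ⟨V', hV'⟩ : ∃ V' : ℕ, V' = V + 1 := ⟨_, rfl⟩
  refine ⟨V' ^ k * B, fun p q J hp hq hJ o o' s s' h => ?_⟩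
  obtain ⟨⟨g, hg0, hgV⟩, a⟩ := o
  obtain ⟨⟨g', hg'0, hg'V⟩, a'⟩ := o'
  dsimp only at h
  have hCne : (C : ℂ) ≠ 0 := by exact_mod_cast hCpos.ne'
  have h1 : ∑ j ∈ range J, (F ((g ^ p) ^ j * (g ^ s * a)) - c) * (starRingEnd ℂ) (F ((g' ^ q) ^ j * (g' ^ s' * a')) - c) =
      ((C ^ 2 : ℝ) : ℂ) * ∑ j ∈ range J, ((F (g ^ (s + p * j) * a) - c) / C) * (starRingEnd ℂ) ((F (g' ^ (s' + q * j) * a') - c) / C) := by
    rw [mul_sum]
    refine sum_congr rfl fun j _ => ?_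
    rw [← mul_assoc ((g ^ p) ^ j), ← mul_assoc ((g' ^ q) ^ j), ← pow_mul, ← pow_mul, ← pow_add, ← pow_add, add_comm (p * j), add_comm (q * j),
      map_div₀, Complex.conj_ofReal]
    push_cast
    field_simp
  have hnp : M.n (g ^ p) () = p * M.n g () := by
    rw [M.n_pow]
    rfl
  have hnq : M.n (g' ^ q) () = q * M.n g' () := by
    rw [M.n_pow]
    rfl
  have hp0 : (p : ℤ) ≠ 0 := by
    have : p ≠ 0 := by omega
    exact_mod_cast this
  have hq0 : (q : ℤ) ≠ 0 := by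
    have : q ≠ 0 := by omega
    exact_mod_cast this
  obtain ⟨t, ht, m, hm, hmB, hd⟩ := hB J (g ^ p) (g' ^ q) (g ^ s * a) (g' ^ s' * a') hJ (by rw [hnp]; exact mul_ne_zero hp0 hg0)
    (by rw [hnq]; exact mul_ne_zero hq0 hg'0) (by
    rw [h1, norm_mul, Complex.norm_real, Real.norm_of_nonneg (by positivity : (0 : ℝ) ≤ C ^ 2)]
    have h6 := mul_le_mul_of_nonneg_left h (by positivity : (0 : ℝ) ≤ C ^ 2)
    refine le_trans (le_of_eq ?_) h6
    ring)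
  have hk : 0 < k := by omega
  have hpow : ∀ z : ℤ, |z| ≤ V → |z ^ t| ≤ (V' : ℤ) ^ k := by
    intro z hz
    rw [abs_pow]
    have h7 : |z| ≤ (V' : ℤ) := by
      rw [hV']
      push_cast
      linarith
    have h8 : (1 : ℤ) ≤ V' := by
      rw [hV']
      push_cast
      have : (0 : ℤ) ≤ V := Int.natCast_nonneg V
      linarith
    exact (pow_le_pow_left₀ (abs_nonneg z) h7 t).trans (pow_le_pow_right₀ h8 ht.le)
  refine ⟨t + 1, mem_Icc.2 ⟨by omega, by omega⟩, fun i => M.n g () ^ t * m (Sum.inl i), fun i => M.n g' () ^ t * m (Sum.inr i), ?_, ?_, ?_, ?_⟩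
  · by_contra hcon
    rw [not_or, not_not, not_not] at hcon
    apply hm
    funext i
    rcases i with i | i
    · have h7 := congrFun hcon.1 i
      rw [Pi.zero_apply] at h7
      exact (mul_eq_zero.1 h7).resolve_left (pow_ne_zero _ hg0)
    · have h7 := congrFun hcon.2 i
      rw [Pi.zero_apply] at h7
      exact (mul_eq_zero.1 h7).resolve_left (pow_ne_zero _ hg'0)
  · intro i
    rw [abs_mul]
    push_cast
    exact mul_le_mul (hpow _ hgV) (hmB _) (abs_nonneg _) (by positivity)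
  · intro i
    rw [abs_mul]
    push_cast
    exact mul_le_mul (hpow _ hg'V) (hmB _) (abs_nonneg _) (by positivity)
  · have h7 : ((M.n (g ^ p) () : ℤ) : ℝ) ^ t * dot (fun i => m (Sum.inl i)) (M.p 0 (g ^ p)) + ((M.n (g' ^ q) () : ℤ) : ℝ) ^ t * dot (fun i => m (Sum.inr i)) (M.p 0 (g' ^ q)) =
        (p : ℝ) ^ (t + 1) * dot (fun i => M.n g () ^ t * m (Sum.inl i)) (M.p 0 g) + (q : ℝ) ^ (t + 1) * dot (fun i => M.n g' () ^ t * m (Sum.inr i)) (M.p 0 g') := by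
      rw [hnp, hnq, M.p0_pow hk, M.p0_pow hk, dot_smul, dot_smul, dot_smul_int, dot_smul_int]
      push_cast
      ring
    rw [h7] at hd
    refine hd.trans ?_
    apply div_le_div_of_nonneg_right _ (Nat.cast_nonneg J)
    have h8 : 1 ≤ V' ^ k := Nat.one_le_pow _ _ (by omega)
    have h9 : B ≤ V' ^ k * B := Nat.le_mul_of_pos_left B (by omega)
    exact_mod_cast h9

/-- `part_ao` (F/AO) along a residue class modulo `Q` depending on the window. -/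
theorem part_apM {G : Type} [Group G] [TopologicalSpace G] [IsTopologicalGroup G] {Γ : Subgroup G} {k : ℕ} (M : MalK G Γ k Unit) (hk : LL G k = ⊥) (F : G → ℂ)
    (hF : Continuous F) (hΓ : ∀ x, ∀ γ ∈ Γ, F (x * γ) = F x) (Q : ℕ) (hQ : 1 ≤ Q) (V : ℕ) (ε : ℝ) (hε : 0 < ε) : ∃ B : ℕ, ∀ S : Set G,
      (∀ g ∈ S, M.n g () ≠ 0 ∧ |M.n g ()| ≤ V) →
      (∀ m : M.I 0 → ℤ, m ≠ 0 → (∀ i, |m i| ≤ B) → Small 0 (Fr {x | ∃ g ∈ S, x = dot m (M.p 0 g)})) →
      ∃ H₀ : ℕ, ∀ H : ℕ, H₀ ≤ H → ∃ N₀ : ℕ, ∀ N : ℕ, N₀ ≤ N → ∀ g a : ℕ → G, ∀ b : ℕ → ℕ, (∀ n, g n ∈ S) →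
        ∑ n ∈ Icc 1 N, ‖∑ h ∈ Icc 1 H, (mu (n + h) : ℂ) * (if h % Q = b n then F (g n ^ (h / Q) * a n) else 0)‖ ≤ ε * H * N := by
  have hadm : Adm Γ k F := by
    refine ⟨hF, hΓ, fun x h hh => ?_⟩
    rw [hk, Subgroup.mem_bot] at hh
    rw [hh, one_mul]
  obtain ⟨c, C, hC, hbd, hpair⟩ := pairhyp_nilM M hadm V
  have hpair' := pairhyp_apM k _ _ hpair Q hQ
  obtain ⟨B, hB⟩ := windows_om k (fun (o : ({g : G // M.n g () ≠ 0 ∧ |M.n g ()| ≤ V} × G) × ℕ) (n : ℕ) => if n % Q = o.2 then (F ((o.1.1 : G) ^ (n / Q) * o.1.2) - c) / C else 0)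
    (fun o n => by
      beta_reduce
      split_ifs
      · rw [norm_div, Complex.norm_real, Real.norm_of_nonneg hC.le, div_le_one hC]
        exact hbd _
      · rw [norm_zero]
        exact zero_le_one)
    (fun o : ({g : G // M.n g () ≠ 0 ∧ |M.n g ()| ≤ V} × G) × ℕ => M.p 0 (o.1.1 : G)) hpair' (ε / (2 * C)) (by positivity)
  refine ⟨B, fun S hSn hS => ?_⟩
  obtain ⟨H₁, hH₁⟩ := hB {o : ({g : G // M.n g () ≠ 0 ∧ |M.n g ()| ≤ V} × G) × ℕ | (o.1.1 : G) ∈ S} (by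
    intro m hm hmB
    have h1 : {x | ∃ o ∈ {o : ({g : G // M.n g () ≠ 0 ∧ |M.n g ()| ≤ V} × G) × ℕ | (o.1.1 : G) ∈ S}, x = dot m (M.p 0 (o.1.1 : G))} = {x | ∃ g ∈ S, x = dot m (M.p 0 g)} := by
      ext x
      constructor
      · rintro ⟨o, ho, hx⟩
        exact ⟨o.1.1, ho, hx⟩
      · rintro ⟨g, hg, hx⟩
        exact ⟨((⟨g, hSn g hg⟩, 1), 0), hg, hx⟩
    rw [h1]
    exact hS m hm hmB)
  have hc1 : 0 < ‖c‖ + 1 := by positivity
  obtain ⟨H₂, hH₂⟩ := mr_ap Q hQ (ε / (2 * (‖c‖ + 1))) (by positivity)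
  refine ⟨max H₁ H₂, fun H hH => ?_⟩
  obtain ⟨N₁, hN₁⟩ := hH₁ H ((le_max_left _ _).trans hH)
  obtain ⟨N₂, hN₂⟩ := hH₂ H ((le_max_right _ _).trans hH)
  refine ⟨max N₁ N₂, fun N hN g a b hg => ?_⟩
  have h1 := hN₁ N ((le_max_left _ _).trans hN) (fun n => ((⟨g n, hSn _ (hg n)⟩, a n), b n)) (fun n => hg n)
  have h2 := hN₂ N ((le_max_right _ _).trans hN) b
  have h3 : ∀ n ∈ Icc 1 N, ‖∑ h ∈ Icc 1 H, (mu (n + h) : ℂ) * (if h % Q = b n then F (g n ^ (h / Q) * a n) else 0)‖ ≤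
      ‖c‖ * ‖∑ h ∈ Icc 1 H, (mu (n + h) : ℂ) * (if h % Q = b n then 1 else 0)‖ +
        C * ‖∑ h ∈ Icc 1 H, (mu (n + h) : ℂ) * (if h % Q = b n then (F (g n ^ (h / Q) * a n) - c) / C else 0)‖ := by
    intro n _
    have h4 : ∑ h ∈ Icc 1 H, (mu (n + h) : ℂ) * (if h % Q = b n then F (g n ^ (h / Q) * a n) else 0) =
        c * ∑ h ∈ Icc 1 H, (mu (n + h) : ℂ) * (if h % Q = b n then 1 else 0) +
          (C : ℂ) * ∑ h ∈ Icc 1 H, (mu (n + h) : ℂ) * (if h % Q = b n then (F (g n ^ (h / Q) * a n) - c) / C else 0) := by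
      rw [mul_sum, mul_sum, ← sum_add_distrib]
      refine sum_congr rfl fun h _ => ?_
      have hC' : (C : ℂ) ≠ 0 := by exact_mod_cast hC.ne'
      split_ifs
      · field_simp
        ring
      · ring
    rw [h4]
    have h5 := norm_add_le (c * ∑ h ∈ Icc 1 H, (mu (n + h) : ℂ) * (if h % Q = b n then 1 else 0))
      ((C : ℂ) * ∑ h ∈ Icc 1 H, (mu (n + h) : ℂ) * (if h % Q = b n then (F (g n ^ (h / Q) * a n) - c) / C else 0))
    rw [norm_mul, norm_mul, Complex.norm_real, Real.norm_of_nonneg hC.le] at h5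
    exact h5
  calc _ ≤ ∑ n ∈ Icc 1 N, (‖c‖ * ‖∑ h ∈ Icc 1 H, (mu (n + h) : ℂ) * (if h % Q = b n then 1 else 0)‖ +
        C * ‖∑ h ∈ Icc 1 H, (mu (n + h) : ℂ) * (if h % Q = b n then (F (g n ^ (h / Q) * a n) - c) / C else 0)‖) :=
        sum_le_sum h3
    _ = ‖c‖ * ∑ n ∈ Icc 1 N, ‖∑ h ∈ Icc 1 H, (mu (n + h) : ℂ) * (if h % Q = b n then 1 else 0)‖ +
        C * ∑ n ∈ Icc 1 N, ‖∑ h ∈ Icc 1 H, (mu (n + h) : ℂ) * (if h % Q = b n then (F (g n ^ (h / Q) * a n) - c) / C else 0)‖ := by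
        rw [sum_add_distrib, mul_sum, mul_sum]
    _ ≤ ‖c‖ * (ε / (2 * (‖c‖ + 1)) * H * N) + C * (ε / (2 * C) * H * N) :=
        add_le_add (mul_le_mul_of_nonneg_left h2 (norm_nonneg _)) (mul_le_mul_of_nonneg_left h1 hC.le)
    _ ≤ ε * H * N := by
        have e1 : C * (ε / (2 * C) * H * N) = ε / 2 * (H * N) := by
          field_simp
        have e2 : ‖c‖ * (ε / (2 * (‖c‖ + 1)) * H * N) ≤ ε / 2 * (H * N) := by
          have e3 : ‖c‖ * (ε / (2 * (‖c‖ + 1)) * H * N) =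
              (‖c‖ / (‖c‖ + 1)) * (ε / 2 * (H * N)) := by
            field_simp
          rw [e3]
          have e4 : ‖c‖ / (‖c‖ + 1) ≤ 1 := by
            rw [div_le_one hc1]
            linarith
          have e5 : 0 ≤ ε / 2 * ((H : ℝ) * N) := by positivity
          exact (mul_le_mul_of_nonneg_right e4 e5).trans (le_of_eq (one_mul _))
        rw [e1]
        linarith

end Pool.Agent.Lib.MP_3e612f_nt.NF
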