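import Pool.Agent.Lib.MP_3e612f_nt.NF.G.StepA
import Pool.Agent.Lib.MP_3e612f_nt.NF.Q.BL
import Pool.Agent.Lib.MP_3e612f_nt.NF.Vino

/-! From a bracket relation for many shifts to a relation. -/

set_option autoImplicit false

namespace Pool.Agent.Lib.MP_3e612f_nt.NF

open Finset
open Pool.Agent.Lib.MP_3e612f_nt.MR (mu ex)

theorem RelW.scale {k : ℕ} {ι₁ ι₂ : Type} [Fintype ι₁] [Fintype ι₂] {n₁ n₂ : ℤ} {x₁ : ι₁ → ℝ} {x₂ : ι₂ → ℝ} {B B' J J' : ℕ} (hB : B ≤ B')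
    (hJ : (B : ℝ) / J ≤ B' / J') (h : RelW k n₁ n₂ x₁ x₂ B J) : RelW k n₁ n₂ x₁ x₂ B' J' := by
  obtain ⟨s, hs, m, h0, h1, h2⟩ := h
  have hB' : (B : ℤ) ≤ B' := by exact_mod_cast hB
  exact ⟨s, hs, m, h0, fun i => (h1 i).trans hB', h2.trans hJ⟩

theorem dot_smul_int {ι : Type} [Fintype ι] (c : ℤ) (m : ι → ℤ) (x : ι → ℝ) : dot (fun i => c * m i) x = c * dot m x := by
  unfold dot
  rw [mul_sum]
  refine sum_congr rfl fun i _ => ?_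
  push_cast
  ring

section
variable {ι₀ ι₁ η₀ η₁ : Type} [Fintype ι₀] [Fintype ι₁] [Fintype η₀] [Fintype η₁]

theorem brk_eq (N₁ : ι₁ → ι₀ → ι₀ → ℤ) (T₁ : ι₁ → ι₀ → ℤ) (N₂ : η₁ → η₀ → η₀ → ℤ) (T₂ : η₁ → η₀ → ℤ)
    (n₁ n₂ : ℤ) (β₁ : ι₀ → ℝ) (β₂ : η₀ → ℝ) (s : ℕ) (m : (ι₀ ⊕ ι₁) ⊕ (η₀ ⊕ η₁) → ℤ) (l : ℕ) :
    brk N₁ T₁ N₂ T₂ n₁ n₂ β₁ β₂ s m l = ((n₁ : ℝ) ^ s * dot (fun i => m (Sum.inl (Sum.inl i))) β₁ + (n₂ : ℝ) ^ s * dot (fun i => m (Sum.inr (Sum.inl i))) β₂) +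
      ∑ c, (Sum.elim (fun c => (n₁ : ℝ) ^ s * zet N₁ T₁ (fun j => m (Sum.inl (Sum.inr j))) n₁ β₁ c)
        (fun c => (n₂ : ℝ) ^ s * zet N₂ T₂ (fun j => m (Sum.inr (Sum.inr j))) n₂ β₂ c) : ι₀ ⊕ η₀ → ℝ) c * Int.fract ((l : ℝ) * (Sum.elim β₁ β₂ : ι₀ ⊕ η₀ → ℝ) c) := by
  unfold brk
  rw [Fintype.sum_sum_type]
  simp only [Sum.elim_inl, Sum.elim_inr]
  rw [mul_add, mul_add, mul_sum, mul_sum]
  have e1 : ∀ c : ι₀, (n₁ : ℝ) ^ s * (zet N₁ T₁ (fun j => m (Sum.inl (Sum.inr j))) n₁ β₁ c * Int.fract ((l : ℝ) * β₁ c)) =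
      (n₁ : ℝ) ^ s * zet N₁ T₁ (fun j => m (Sum.inl (Sum.inr j))) n₁ β₁ c * Int.fract ((l : ℝ) * β₁ c) := fun c => by ring
  have e2 : ∀ c : η₀, (n₂ : ℝ) ^ s * (zet N₂ T₂ (fun j => m (Sum.inr (Sum.inr j))) n₂ β₂ c * Int.fract ((l : ℝ) * β₂ c)) =
      (n₂ : ℝ) ^ s * zet N₂ T₂ (fun j => m (Sum.inr (Sum.inr j))) n₂ β₂ c * Int.fract ((l : ℝ) * β₂ c) := fun c => by ring
  simp only [e1, e2]
  ring

/-- an integer coefficient in front of a fractional part -/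
theorem sum_int_fract {ι : Type} [Fintype ι] (t : ι → ℤ) (x : ι → ℝ) (l : ℕ) : ∃ z : ℤ, ∑ c, (t c : ℝ) * Int.fract ((l : ℝ) * x c) = l * dot t x - z := by
  refine ⟨∑ c, t c * ⌊(l : ℝ) * x c⌋, ?_⟩
  unfold dot
  push_cast
  rw [mul_sum, ← sum_sub_distrib]
  refine sum_congr rfl fun c _ => ?_
  unfold Int.fract
  ring

/-- one of the two groups: either a relation of weight `s`, or all `N'` vanish -/
theorem brk_half (N₁ : ι₁ → ι₀ → ι₀ → ℤ) (T₁ : ι₁ → ι₀ → ℤ) (B M₀ : ℕ) : ∃ B' : ℕ, ∀ (n₁ : ℤ) (β₁ : ι₀ → ℝ) (s : ℕ) (m : ι₁ → ℤ), (∀ j, |m j| ≤ B) →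
    ∀ (K : ℕ) (m₀ : ℕ), 1 ≤ m₀ → m₀ ≤ M₀ → (∀ c, dZ (m₀ * ((n₁ : ℝ) ^ s * zet N₁ T₁ m n₁ β₁ c)) ≤ M₀ / K) →
    (∃ v : ι₀ → ℤ, v ≠ 0 ∧ (∀ i, |v i| ≤ B') ∧ dZ ((n₁ : ℝ) ^ s * dot v β₁) ≤ M₀ / K) ∨ ∀ a c, ∑ j, m j * N₁ j a c = 0 := by
  obtain ⟨NN, hNN⟩ : ∃ NN : ℕ, ∀ a c, ∑ j, |N₁ j a c| ≤ (NN : ℤ) := by
    refine ⟨(∑ a, ∑ c, ∑ j, |N₁ j a c|).toNat, fun a c => ?_⟩
    refine le_trans ?_ (Int.self_le_toNat _)
    have h1 : ∑ j, |N₁ j a c| ≤ ∑ c, ∑ j, |N₁ j a c| :=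
      single_le_sum (f := fun c => ∑ j, |N₁ j a c|) (fun _ _ => sum_nonneg fun _ _ => abs_nonneg _) (mem_univ c)
    have h2 : ∑ c, ∑ j, |N₁ j a c| ≤ ∑ a, ∑ c, ∑ j, |N₁ j a c| :=
      single_le_sum (f := fun a => ∑ c, ∑ j, |N₁ j a c|) (fun _ _ => sum_nonneg fun _ _ => sum_nonneg fun _ _ => abs_nonneg _) (mem_univ a)
    exact h1.trans h2
  refine ⟨M₀ * (B * NN), ?_⟩
  intro n₁ β₁ s m hm K m₀ h1 h2 h3
  by_cases hall : ∀ a c, ∑ j, m j * N₁ j a c = 0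
  · exact Or.inr hall
  push Not at hall
  obtain ⟨a₁, c₁, hac⟩ := hall
  left
  refine ⟨fun a => (m₀ : ℤ) * ∑ j, m j * N₁ j a c₁, ?_, ?_, ?_⟩
  · intro h
    have h4 := congrFun h a₁
    rw [Pi.zero_apply] at h4
    rcases mul_eq_zero.1 h4 with h5 | h5
    · have h6 : m₀ = 0 := by exact_mod_cast h5
      omega
    · exact hac h5
  · intro a
    have h4 : |∑ j, m j * N₁ j a c₁| ≤ (B : ℤ) * (NN : ℤ) := by
      calc |∑ j, m j * N₁ j a c₁| ≤ ∑ j, |m j * N₁ j a c₁| := abs_sum_le_sum_abs _ _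
        _ ≤ ∑ j, (B : ℤ) * |N₁ j a c₁| := by
            apply sum_le_sum
            intro j _
            rw [abs_mul]
            exact mul_le_mul_of_nonneg_right (hm _) (abs_nonneg _)
        _ = (B : ℤ) * ∑ j, |N₁ j a c₁| := by rw [mul_sum]
        _ ≤ (B : ℤ) * (NN : ℤ) := mul_le_mul_of_nonneg_left (hNN a c₁) (Int.natCast_nonneg _)
    rw [abs_mul, Nat.abs_cast]
    have h5 : (m₀ : ℤ) * |∑ j, m j * N₁ j a c₁| ≤ (M₀ : ℤ) * ((B : ℤ) * NN) := by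
      apply mul_le_mul _ h4 (abs_nonneg _) (Int.natCast_nonneg _)
      exact_mod_cast h2
    refine h5.trans ?_
    push_cast
    exact le_rfl
  · rw [dot_smul_int]
    have h4 : (m₀ : ℝ) * ((n₁ : ℝ) ^ s * zet N₁ T₁ m n₁ β₁ c₁) =
        (n₁ : ℝ) ^ s * (((m₀ : ℤ) : ℝ) * dot (fun a => ∑ j, m j * N₁ j a c₁) β₁) + ((((m₀ : ℤ) * (n₁ ^ s * ((∑ j, m j * T₁ j c₁) * n₁))) : ℤ) : ℝ) := by
      unfold zet dot
      push_cast
      ring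
    have h5 := h3 c₁
    rw [h4, dZ_add_int] at h5
    exact h5

theorem brk_rel (N₁ : ι₁ → ι₀ → ι₀ → ℤ) (T₁ : ι₁ → ι₀ → ℤ) (N₂ : η₁ → η₀ → η₀ → ℤ) (T₂ : η₁ → η₀ → ℤ)
    (h₁ : ∀ m : ι₁ → ℤ, m ≠ 0 → (∃ a b, ∑ j, m j * N₁ j a b ≠ 0) ∨ ∃ b, ∑ j, m j * T₁ j b ≠ 0)
    (h₂ : ∀ m : η₁ → ℤ, m ≠ 0 → (∃ a b, ∑ j, m j * N₂ j a b ≠ 0) ∨ ∃ b, ∑ j, m j * T₂ j b ≠ 0)
    (δ : ℝ) (B k : ℕ) (hδ : 0 < δ) : ∃ B' : ℕ, ∀ (K : ℕ), 1 ≤ K → ∀ (n₁ n₂ : ℤ) (β₁ : ι₀ → ℝ) (β₂ : η₀ → ℝ), ∀ s < k, ∀ m : (ι₀ ⊕ ι₁) ⊕ (η₀ ⊕ η₁) → ℤ,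
      m ≠ 0 → (∀ i, |m i| ≤ B) →
      δ * (K : ℝ) ≤ ((((range K).filter (fun l : ℕ => dZ (brk N₁ T₁ N₂ T₂ n₁ n₂ β₁ β₂ s m l) ≤ B / (K : ℝ))).card : ℕ) : ℝ) →
      RelW (k + 1) n₁ n₂ β₁ β₂ B' K := by
  classical
  wlog hδ1 : δ ≤ 1 generalizing δ with H
  · obtain ⟨B', hB'⟩ := H 1 one_pos le_rfl
    refine ⟨B', fun K hK n₁ n₂ β₁ β₂ s hs m hm0 hmB hc => hB' K hK n₁ n₂ β₁ β₂ s hs m hm0 hmB ?_⟩
    refine le_trans ?_ hc
    exact mul_le_mul_of_nonneg_right (not_le.1 hδ1).le (Nat.cast_nonneg K)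
  obtain ⟨M₀, hM₀, hbl⟩ := bl (ι₀ ⊕ η₀) δ ((B : ℝ) + 1) hδ (by positivity)
  obtain ⟨B₁, hB₁⟩ := brk_half N₁ T₁ B M₀
  obtain ⟨B₂, hB₂⟩ := brk_half N₂ T₂ B M₀
  obtain ⟨TT, hTT⟩ : ∃ TT : ℕ, (∀ c, ∑ j, |T₁ j c| ≤ (TT : ℤ)) ∧ ∀ c, ∑ j, |T₂ j c| ≤ (TT : ℤ) := by
    refine ⟨(∑ c, ∑ j, |T₁ j c|).toNat + (∑ c, ∑ j, |T₂ j c|).toNat, fun c => ?_, fun c => ?_⟩
    · have h1 : ∑ j, |T₁ j c| ≤ ∑ c, ∑ j, |T₁ j c| :=
        single_le_sum (f := fun c => ∑ j, |T₁ j c|) (fun _ _ => sum_nonneg fun _ _ => abs_nonneg _) (mem_univ c)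
      have h2 := Int.self_le_toNat (∑ c, ∑ j, |T₁ j c|)
      push_cast
      have h3 : (0 : ℤ) ≤ ((∑ c, ∑ j, |T₂ j c|).toNat : ℤ) := Int.natCast_nonneg _
      push_cast at h2 h3
      linarith
    · have h1 : ∑ j, |T₂ j c| ≤ ∑ c, ∑ j, |T₂ j c| :=
        single_le_sum (f := fun c => ∑ j, |T₂ j c|) (fun _ _ => sum_nonneg fun _ _ => abs_nonneg _) (mem_univ c)
      have h2 := Int.self_le_toNat (∑ c, ∑ j, |T₂ j c|)
      push_cast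
      have h3 : (0 : ℤ) ≤ ((∑ c, ∑ j, |T₁ j c|).toNat : ℤ) := Int.natCast_nonneg _
      push_cast at h2 h3
      linarith
  obtain ⟨kk, hkk⟩ := exists_nat_ge (2 / δ)
  obtain ⟨B₃, hB₃⟩ := exists_nat_ge (40 * (B : ℝ) / δ ^ 2 + 16 * (B + 1) / δ)
  set B' : ℕ := B + M₀ + B₁ + B₂ + kk * (B * TT) + (B * TT) + B₃ with hB'
  refine ⟨B', ?_⟩
  intro K hK n₁ n₂ β₁ β₂ s hs m hm0 hmB hcard
  have hK0 : (0 : ℝ) < K := by exact_mod_cast hK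
  have hK1 : (1 : ℝ) ≤ K := by exact_mod_cast hK
  have hle : ∀ b : ℕ, b ≤ B' → (b : ℤ) ≤ (B' : ℤ) := fun b hb => by exact_mod_cast hb
  have hle' : ∀ b : ℕ, b ≤ B' → (b : ℝ) / K ≤ (B' : ℝ) / K := fun b hb => by
    apply div_le_div_of_nonneg_right _ hK0.le
    exact_mod_cast hb
  set m₁ : ι₁ → ℤ := fun j => m (Sum.inl (Sum.inr j)) with hm₁
  set m₂ : η₁ → ℤ := fun j => m (Sum.inr (Sum.inr j)) with hm₂
  have hcard' : δ * (K : ℝ) ≤ ((((range K).filter (fun l : ℕ => dZ (((n₁ : ℝ) ^ s * dot (fun i => m (Sum.inl (Sum.inl i))) β₁ + (n₂ : ℝ) ^ s * dot (fun i => m (Sum.inr (Sum.inl i))) β₂) +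
      ∑ c, (Sum.elim (fun c => (n₁ : ℝ) ^ s * zet N₁ T₁ m₁ n₁ β₁ c)
        (fun c => (n₂ : ℝ) ^ s * zet N₂ T₂ m₂ n₂ β₂ c) : ι₀ ⊕ η₀ → ℝ) c * Int.fract ((l : ℝ) * (Sum.elim β₁ β₂ : ι₀ ⊕ η₀ → ℝ) c)) ≤ ((B : ℝ) + 1) / (K : ℝ))).card : ℕ) : ℝ) := by
    refine hcard.trans ?_
    have h1 : ((range K).filter (fun l : ℕ => dZ (brk N₁ T₁ N₂ T₂ n₁ n₂ β₁ β₂ s m l) ≤ B / (K : ℝ))) ⊆ ((range K).filter (fun l : ℕ => dZ (((n₁ : ℝ) ^ s * dot (fun i => m (Sum.inl (Sum.inl i))) β₁ + (n₂ : ℝ) ^ s * dot (fun i => m (Sum.inr (Sum.inl i))) β₂) +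
      ∑ c, (Sum.elim (fun c => (n₁ : ℝ) ^ s * zet N₁ T₁ m₁ n₁ β₁ c)
        (fun c => (n₂ : ℝ) ^ s * zet N₂ T₂ m₂ n₂ β₂ c) : ι₀ ⊕ η₀ → ℝ) c * Int.fract ((l : ℝ) * (Sum.elim β₁ β₂ : ι₀ ⊕ η₀ → ℝ) c)) ≤ ((B : ℝ) + 1) / (K : ℝ))) := by
      intro l hl
      rw [mem_filter] at hl ⊢
      refine ⟨hl.1, ?_⟩
      have h2 := hl.2
      rw [brk_eq] at h2
      exact h2.trans (div_le_div_of_nonneg_right (by linarith) hK0.le)
    exact_mod_cast card_le_card h1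
  rcases hbl K hK _ _ _ hcard' with ⟨m', hm'0, hm'B, hm'd⟩ | ⟨m₀, hm₀1, hm₀M, hm₀d⟩
  · refine ⟨0, Nat.succ_pos k, m', hm'0, fun i => (hm'B i).trans (hle M₀ (by omega)), ?_⟩
    have h1 : dot m' (Sum.elim β₁ β₂ : ι₀ ⊕ η₀ → ℝ) = (n₁ : ℝ) ^ 0 * dot (fun i => m' (Sum.inl i)) β₁ + (n₂ : ℝ) ^ 0 * dot (fun i => m' (Sum.inr i)) β₂ := by
      rw [pow_zero, pow_zero, one_mul, one_mul]
      unfold dot
      rw [Fintype.sum_sum_type]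
      simp only [Sum.elim_inl, Sum.elim_inr]
    rw [← h1]
    exact hm'd.trans (hle' M₀ (by omega))
  rcases hB₁ n₁ β₁ s m₁ (fun j => hmB _) K m₀ hm₀1 hm₀M (fun c => hm₀d (Sum.inl c)) with ⟨v, hv0, hvB, hvd⟩ | hz₁
  · refine ⟨s, by omega, Sum.elim v 0, ?_, ?_, ?_⟩
    · intro h
      apply hv0
      funext i
      exact congrFun h (Sum.inl i)
    · intro i
      rcases i with i | i
      · exact (hvB i).trans (hle B₁ (by omega))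
      · simp only [Sum.elim_inr, Pi.zero_apply, abs_zero]
        exact Int.natCast_nonneg _
    · have h1 : dot (fun i => (Sum.elim v 0 : ι₀ ⊕ η₀ → ℤ) (Sum.inr i)) β₂ = 0 := by
        unfold dot
        simp
      rw [h1, mul_zero, add_zero]
      exact hvd.trans (hle' M₀ (by omega))
  rcases hB₂ n₂ β₂ s m₂ (fun j => hmB _) K m₀ hm₀1 hm₀M (fun c => hm₀d (Sum.inr c)) with ⟨v, hv0, hvB, hvd⟩ | hz₂
  · refine ⟨s, by omega, Sum.elim 0 v, ?_, ?_, ?_⟩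
    · intro h
      apply hv0
      funext i
      exact congrFun h (Sum.inr i)
    · intro i
      rcases i with i | i
      · simp only [Sum.elim_inl, Pi.zero_apply, abs_zero]
        exact Int.natCast_nonneg _
      · exact (hvB i).trans (hle B₂ (by omega))
    · have h1 : dot (fun i => (Sum.elim 0 v : ι₀ ⊕ η₀ → ℤ) (Sum.inl i)) β₁ = 0 := by
        unfold dot
        simp
      rw [h1, mul_zero, zero_add]
      exact hvd.trans (hle' M₀ (by omega))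
  set T₁' : ι₀ → ℤ := fun c => ∑ j, m₁ j * T₁ j c with hT₁'
  set T₂' : η₀ → ℤ := fun c => ∑ j, m₂ j * T₂ j c with hT₂'
  set c₀ : ℝ := (n₁ : ℝ) ^ s * dot (fun i => m (Sum.inl (Sum.inl i))) β₁ + (n₂ : ℝ) ^ s * dot (fun i => m (Sum.inr (Sum.inl i))) β₂ with hc₀
  have hbrk : ∀ l : ℕ, ∃ z : ℤ, brk N₁ T₁ N₂ T₂ n₁ n₂ β₁ β₂ s m l = (c₀ + l * ((n₁ : ℝ) ^ (s + 1) * dot T₁' β₁ + (n₂ : ℝ) ^ (s + 1) * dot T₂' β₂)) + z := by
    intro l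
    obtain ⟨z₁, hz1⟩ := sum_int_fract T₁' β₁ l
    obtain ⟨z₂, hz2⟩ := sum_int_fract T₂' β₂ l
    refine ⟨-(n₁ ^ (s + 1) * z₁ + n₂ ^ (s + 1) * z₂), ?_⟩
    have e1 : ∀ c, zet N₁ T₁ m₁ n₁ β₁ c = (T₁' c : ℝ) * n₁ := by
      intro c
      unfold zet
      have : ∑ a, ((∑ j, m₁ j * N₁ j a c : ℤ) : ℝ) * β₁ a = 0 := sum_eq_zero fun a _ => by rw [hz₁ a c, Int.cast_zero, zero_mul]
      rw [this, zero_add]
    have e2 : ∀ c, zet N₂ T₂ m₂ n₂ β₂ c = (T₂' c : ℝ) * n₂ := by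
      intro c
      unfold zet
      have : ∑ a, ((∑ j, m₂ j * N₂ j a c : ℤ) : ℝ) * β₂ a = 0 := sum_eq_zero fun a _ => by rw [hz₂ a c, Int.cast_zero, zero_mul]
      rw [this, zero_add]
    have e1' : ∀ c, zet N₁ T₁ (fun j => m (Sum.inl (Sum.inr j))) n₁ β₁ c = (T₁' c : ℝ) * n₁ := e1
    have e2' : ∀ c, zet N₂ T₂ (fun j => m (Sum.inr (Sum.inr j))) n₂ β₂ c = (T₂' c : ℝ) * n₂ := e2
    unfold brk
    simp only [e1', e2']
    have e3 : ∑ c, (T₁' c : ℝ) * n₁ * Int.fract ((l : ℝ) * β₁ c) = n₁ * (l * dot T₁' β₁ - z₁) := by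
      rw [← hz1, mul_sum]
      exact sum_congr rfl fun c _ => by ring
    have e4 : ∑ c, (T₂' c : ℝ) * n₂ * Int.fract ((l : ℝ) * β₂ c) = n₂ * (l * dot T₂' β₂ - z₂) := by
      rw [← hz2, mul_sum]
      exact sum_congr rfl fun c _ => by ring
    rw [e3, e4, hc₀]
    push_cast
    ring
  have hdz : ∀ l : ℕ, dZ (brk N₁ T₁ N₂ T₂ n₁ n₂ β₁ β₂ s m l) = dZ (c₀ + l * ((n₁ : ℝ) ^ (s + 1) * dot T₁' β₁ + (n₂ : ℝ) ^ (s + 1) * dot T₂' β₂)) := by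
    intro l
    obtain ⟨z, hz⟩ := hbrk l
    rw [hz, dZ_add_int]
  simp only [hdz] at hcard
  by_cases hm12 : m₁ = 0 ∧ m₂ = 0
  · obtain ⟨hm1, hm2⟩ := hm12
    have hT1 : T₁' = 0 := by
      funext c
      simp only [hT₁', hm1, Pi.zero_apply, zero_mul, sum_const_zero]
    have hT2 : T₂' = 0 := by
      funext c
      simp only [hT₂', hm2, Pi.zero_apply, zero_mul, sum_const_zero]
    have hne := bl_card hδ hK hcard
    obtain ⟨l, hl⟩ := hne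
    have hl2 := (mem_filter.1 hl).2
    have e0 : dot (0 : ι₀ → ℤ) β₁ = 0 := by simp [dot]
    have e0' : dot (0 : η₀ → ℤ) β₂ = 0 := by simp [dot]
    rw [hT1, hT2, e0, e0', mul_zero, mul_zero, add_zero, mul_zero, add_zero] at hl2
    refine ⟨s, by omega, Sum.elim (fun i => m (Sum.inl (Sum.inl i))) (fun i => m (Sum.inr (Sum.inl i))), ?_, ?_, ?_⟩
    · intro h
      apply hm0
      funext i
      rcases i with (i | i) | (i | i)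
      · exact congrFun h (Sum.inl i)
      · exact congrFun hm1 i
      · exact congrFun h (Sum.inr i)
      · exact congrFun hm2 i
    · intro i
      rcases i with i | i
      · exact (hmB _).trans (hle B (by omega))
      · exact (hmB _).trans (hle B (by omega))
    · exact hl2.trans (hle' B (by omega))
  · have hTne : (Sum.elim T₁' T₂' : ι₀ ⊕ η₀ → ℤ) ≠ 0 := by
      intro h
      apply hm12
      constructor
      · by_contra hne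
        rcases h₁ m₁ hne with ⟨a, b, hab⟩ | ⟨b, hb⟩
        · exact hab (hz₁ a b)
        · exact hb (congrFun h (Sum.inl b))
      · by_contra hne
        rcases h₂ m₂ hne with ⟨a, b, hab⟩ | ⟨b, hb⟩
        · exact hab (hz₂ a b)
        · exact hb (congrFun h (Sum.inr b))
    have hTb : ∀ i, |(Sum.elim T₁' T₂' : ι₀ ⊕ η₀ → ℤ) i| ≤ (B : ℤ) * TT := by
      intro i
      rcases i with i | i
      · simp only [Sum.elim_inl, hT₁']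
        calc |∑ j, m₁ j * T₁ j i| ≤ ∑ j, |m₁ j * T₁ j i| := abs_sum_le_sum_abs _ _
          _ ≤ ∑ j, (B : ℤ) * |T₁ j i| := by
              apply sum_le_sum
              intro j _
              rw [abs_mul]
              exact mul_le_mul_of_nonneg_right (hmB _) (abs_nonneg _)
          _ = (B : ℤ) * ∑ j, |T₁ j i| := by rw [mul_sum]
          _ ≤ (B : ℤ) * (TT : ℤ) := mul_le_mul_of_nonneg_left (hTT.1 i) (Int.natCast_nonneg _)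
      · simp only [Sum.elim_inr, hT₂']
        calc |∑ j, m₂ j * T₂ j i| ≤ ∑ j, |m₂ j * T₂ j i| := abs_sum_le_sum_abs _ _
          _ ≤ ∑ j, (B : ℤ) * |T₂ j i| := by
              apply sum_le_sum
              intro j _
              rw [abs_mul]
              exact mul_le_mul_of_nonneg_right (hmB _) (abs_nonneg _)
          _ = (B : ℤ) * ∑ j, |T₂ j i| := by rw [mul_sum]
          _ ≤ (B : ℤ) * (TT : ℤ) := mul_le_mul_of_nonneg_left (hTT.2 i) (Int.natCast_nonneg _)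
    have hBR : (B₃ : ℝ) ≤ (B' : ℝ) := by exact_mod_cast (by omega : B₃ ≤ B')
    rcases lt_or_ge (K : ℝ) (16 * (B + 1) / δ) with hsm | hbg
    · -- K small
      refine ⟨s, by omega, Sum.elim T₁' T₂', hTne, ?_, ?_⟩
      · intro i
        refine (hTb i).trans ?_
        have : B * TT ≤ B' := by omega
        exact_mod_cast this
      · refine (dZ_le_half _).trans ?_
        rw [le_div_iff₀ hK0]
        have h3 : (0 : ℝ) ≤ 40 * (B : ℝ) / δ ^ 2 := by positivity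
        nlinarith
    · have hε : (B : ℝ) / K ≤ δ / 16 := by
        rw [div_le_iff₀ hK0]
        rw [div_le_iff₀ hδ] at hbg
        nlinarith
      have hN : 2 / δ ≤ (K : ℝ) := by
        refine le_trans ?_ hbg
        apply div_le_div_of_nonneg_right _ hδ.le
        have : (0 : ℝ) ≤ B := Nat.cast_nonneg _
        linarith
      set θ : ℝ := (n₁ : ℝ) ^ (s + 1) * dot T₁' β₁ + (n₂ : ℝ) ^ (s + 1) * dot T₂' β₂ with hθ
      have hc2 : δ * (K : ℝ) ≤ ((((range K).filter (fun l : ℕ => dZ (l * θ - (-c₀)) ≤ (B : ℝ) / K)).card : ℕ) : ℝ) := by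
        have e1 : ∀ l : ℕ, (l : ℝ) * θ - (-c₀) = c₀ + l * θ := fun l => by ring
        simp only [e1]
        exact hcard
      obtain ⟨k', hk'1, hk'2, hk'd⟩ := vino δ ((B : ℝ) / K) θ (-c₀) K hδ hδ1 (by positivity) hε hN hc2
      have hk'n : k' ≤ kk := by
        have : (k' : ℝ) ≤ kk := hk'2.trans hkk
        exact_mod_cast this
      refine ⟨s + 1, by omega, fun i => (k' : ℤ) * (Sum.elim T₁' T₂' : ι₀ ⊕ η₀ → ℤ) i, ?_, ?_, ?_⟩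
      · intro h
        apply hTne
        funext i
        have h4 := congrFun h i
        rw [Pi.zero_apply] at h4
        rcases mul_eq_zero.1 h4 with h5 | h5
        · have h6 : k' = 0 := by exact_mod_cast h5
          omega
        · exact h5
      · intro i
        rw [abs_mul, Nat.abs_cast]
        have h5 : (k' : ℤ) * |(Sum.elim T₁' T₂' : ι₀ ⊕ η₀ → ℤ) i| ≤ (kk : ℤ) * ((B : ℤ) * TT) := by
          apply mul_le_mul _ (hTb i) (abs_nonneg _) (Int.natCast_nonneg _)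
          exact_mod_cast hk'n
        refine h5.trans ?_
        have : kk * (B * TT) ≤ B' := by omega
        exact_mod_cast this
      · have e1 : (n₁ : ℝ) ^ (s + 1) * dot (fun i => (k' : ℤ) * (Sum.elim T₁' T₂' : ι₀ ⊕ η₀ → ℤ) (Sum.inl i)) β₁ +
            (n₂ : ℝ) ^ (s + 1) * dot (fun i => (k' : ℤ) * (Sum.elim T₁' T₂' : ι₀ ⊕ η₀ → ℤ) (Sum.inr i)) β₂ = k' * θ := by
          simp only [Sum.elim_inl, Sum.elim_inr]
          rw [dot_smul_int, dot_smul_int, hθ]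
          push_cast
          ring
        rw [e1]
        refine hk'd.trans ?_
        have e2 : 40 * ((B : ℝ) / K) / (δ ^ 2 * K) = (40 * B / δ ^ 2) / K / K := by
          field_simp
        rw [e2]
        have e3 : (40 * (B : ℝ) / δ ^ 2) / K / K ≤ (40 * B / δ ^ 2) / K := div_le_self (by positivity) hK1
        refine e3.trans (div_le_div_of_nonneg_right ?_ hK0.le)
        have h3 : (0 : ℝ) ≤ 16 * ((B : ℝ) + 1) / δ := by positivity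
        linarith

end

end Pool.Agent.Lib.MP_3e612f_nt.NF
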