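import Pool.Agent.Lib.MP_3e612f_nt.NF.G.Per
import Pool.Agent.Lib.MP_3e612f_nt.NF.G.Dec
import Pool.Agent.Lib.MP_3e612f_nt.NF.Q.Coef

/-! Fourier coefficients in a vertical direction (paper: Q-Fej). -/

set_option autoImplicit false

namespace Pool.Agent.Lib.MP_3e612f_nt.NF

open Finset
open Pool.Agent.Lib.MP_3e612f_nt.MR (mu ex)

open scoped Classical in
/-- the `l`-th Fourier coefficient of `s ↦ A (e_k(s E_j) x)` -/
noncomputable def vcoK {G : Type} [Group G] [TopologicalSpace G] {Γ : Subgroup G} {k : ℕ} {κ : Type} (M : MalK G Γ (k + 1) κ) (A : G → ℂ) (j : M.I k) (l : ℤ) (x : G) : ℂ :=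
  ∫ s in (0 : ℝ)..1, A (M.e k (Pi.single j s) * x) * ex (-(l * s))

open scoped Classical in
/-- `A` has a character in the direction `j` -/
def CharAtK {G : Type} [Group G] [TopologicalSpace G] {Γ : Subgroup G} {k : ℕ} {κ : Type} (M : MalK G Γ (k + 1) κ) (A : G → ℂ) (j : M.I k) : Prop :=
  ∃ l : ℤ, ∀ (s : ℝ) (x : G), A (M.e k (Pi.single j s) * x) = ex (l * s) * A x

variable {G : Type} [Group G] [TopologicalSpace G] [IsTopologicalGroup G] {Γ : Subgroup G} {k : ℕ} {κ : Type} (M : MalK G Γ (k + 1) κ) {A : G → ℂ}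

open scoped Classical in
omit [IsTopologicalGroup G] in
private theorem single_swap (hA : Adm Γ (k + 1) A) (i j : M.I k) (s t : ℝ) (x : G) :
    A (M.e k (Pi.single j t) * (M.e k (Pi.single i s) * x)) =
      A (M.e k (Pi.single i s) * (M.e k (Pi.single j t) * x)) := by
  rw [vert_addK M hA, vert_addK M hA]
  exact congrArg (fun v => A (M.e k v * x)) (add_comm _ _)

open scoped Classical in
omit [IsTopologicalGroup G] in
private theorem single_add (hA : Adm Γ (k + 1) A) (j : M.I k) (s t : ℝ) (x : G) :
    A (M.e k (Pi.single j s) * (M.e k (Pi.single j t) * x)) =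
      A (M.e k (Pi.single j (s + t)) * x) := by
  rw [vert_addK M hA, Pi.single_add]

open scoped Classical in
omit [IsTopologicalGroup G] in
private theorem single_per (hA : Adm Γ (k + 1) A) (j : M.I k) (t : ℝ) (x : G) :
    A (M.e k (Pi.single j (t + 1)) * x) = A (M.e k (Pi.single j t) * x) := by
  have h1 := single_add M hA j 1 t x
  have h2 := vert_perK M hA (Pi.single j 1) (M.e k (Pi.single j t) * x)
  have h3 : (fun i => (((Pi.single j 1 : M.I k → ℤ) i : ℤ) : ℝ)) = Pi.single j (1 : ℝ) := by
    funext i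
    by_cases hi : i = j
    · rw [hi, Pi.single_eq_same, Pi.single_eq_same, Int.cast_one]
    · rw [Pi.single_eq_of_ne hi, Pi.single_eq_of_ne hi, Int.cast_zero]
  rw [h3] at h2
  rw [add_comm t 1, ← h1, h2]

private theorem ex_cont : Continuous ex := by
  unfold ex
  fun_prop

open scoped Classical in
private theorem int_cont (hA : Adm Γ (k + 1) A) (j : M.I k) (l : ℤ) :
    Continuous fun z : G × ℝ => A (M.e k (Pi.single j z.2) * z.1) * ex (-(l * z.2)) := by
  have h1 : Continuous fun z : G × ℝ => M.e k (Pi.single j z.2) :=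
    (M.e_cont k (Nat.lt_succ_self k)).comp
      ((continuous_single j).comp continuous_snd)
  have h2 : Continuous fun z : G × ℝ => -((l : ℝ) * z.2) := by fun_prop
  exact (hA.cont.comp (h1.mul continuous_fst)).mul (ex_cont.comp h2)

/-- Invariance: right `Γ`-invariance is clear; left: `u h x = (u h u⁻¹) u x`, `LL G (k+1)` is normal (`Adm.mid`). Continuity: the integrand is continuous on `ℝ × G`; tube lemma on `[0,1]` (no countability assumption on `G`), `‖∫(f - f₀)‖ ≤ sup`. -/
theorem vcoK_adm (hA : Adm Γ (k + 1) A) (j : M.I k) (l : ℤ) : Adm Γ (k + 1) (vcoK M A j l) := by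
  classical
  constructor
  · rw [continuous_iff_continuousAt]
    intro x₀
    rw [Metric.continuousAt_iff', ]
    intro ε hε
    have hc := int_cont M hA j l
    have h1 : ∀ᶠ x in nhds x₀, ∀ s ∈ Set.Icc (0 : ℝ) 1,
        ‖A (M.e k (Pi.single j s) * x) * ex (-(l * s)) -
          A (M.e k (Pi.single j s) * x₀) * ex (-(l * s))‖ < ε / 2 := by
      refine isCompact_Icc.eventually_forall_of_forall_eventually
        (P := fun x s => ‖A (M.e k (Pi.single j s) * x) * ex (-(l * s)) -
          A (M.e k (Pi.single j s) * x₀) * ex (-(l * s))‖ < ε / 2) ?_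
      intro s _
      have h2 : Continuous fun z : G × ℝ => ‖A (M.e k (Pi.single j z.2) * z.1) * ex (-(l * z.2)) -
          A (M.e k (Pi.single j z.2) * x₀) * ex (-(l * z.2))‖ :=
        (hc.sub (hc.comp (continuous_const.prodMk continuous_snd))).norm
      have h3 := h2.continuousAt (x := (x₀, s))
      have h4 : ‖A (M.e k (Pi.single j s) * x₀) * ex (-(l * s)) -
          A (M.e k (Pi.single j s) * x₀) * ex (-(l * s))‖ < ε / 2 := by
        rw [sub_self, norm_zero]
        exact half_pos hε
      exact h3.eventually_lt continuousAt_const h4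
    filter_upwards [h1] with x hx
    rw [dist_eq_norm]
    unfold vcoK
    have hi : ∀ y : G, IntervalIntegrable
        (fun s : ℝ => A (M.e k (Pi.single j s) * y) * ex (-(l * s))) MeasureTheory.volume 0 1 :=
      fun y => Continuous.intervalIntegrable
        (hc.comp (continuous_const.prodMk continuous_id)) 0 1
    rw [← intervalIntegral.integral_sub (hi x) (hi x₀)]
    have h5 := intervalIntegral.norm_integral_le_of_norm_le_const (a := (0 : ℝ)) (b := 1)
      (C := ε / 2) (f := fun s => A (M.e k (Pi.single j s) * x) * ex (-(l * s)) -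
          A (M.e k (Pi.single j s) * x₀) * ex (-(l * s))) (by
        intro s hs
        rw [Set.uIoc_of_le zero_le_one] at hs
        exact (hx s ⟨hs.1.le, hs.2⟩).le)
    rw [sub_zero, abs_one, mul_one] at h5
    exact h5.trans_lt (half_lt_self hε)
  · intro x γ hγ
    unfold vcoK
    refine intervalIntegral.integral_congr fun s _ => ?_
    rw [← mul_assoc, hA.right _ γ hγ]
  · intro x h hh
    unfold vcoK
    refine intervalIntegral.integral_congr fun s _ => ?_
    rw [← mul_assoc, hA.mid _ hh]

/-- `s' ↦ A (u_{s'} x) e(-l s')` is 1-periodic (`vert_perK`, `vert_addK`), so the integral over a period can be shifted (`Function.Periodic.intervalIntegral_add_eq`): `vcoK (u_s x) = ∫ A (u_{s'+s} x) e(-l s') ds' = e(ls) vcoK x`. -/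
theorem vcoK_char (hA : Adm Γ (k + 1) A) (j : M.I k) (l : ℤ) : CharAtK M (vcoK M A j l) j := by
  classical
  refine ⟨l, fun s x => ?_⟩
  obtain ⟨g, hg⟩ : ∃ g : ℝ → ℂ, ∀ t, g t = A (M.e k (Pi.single j t) * x) * ex (-(l * t)) :=
    ⟨_, fun _ => rfl⟩
  have hper : Function.Periodic g 1 := by
    intro t
    rw [hg, hg, single_per M hA]
    have h1 : -((l : ℝ) * (t + 1)) = -(l * t) + ((-l : ℤ) : ℝ) := by
      push_cast
      ring
    rw [h1, ex_add_int]
  have h1 : vcoK M A j l (M.e k (Pi.single j s) * x) =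
      ∫ t in (0 : ℝ)..1, ex (l * s) * g (t + s) := by
    unfold vcoK
    refine intervalIntegral.integral_congr fun t _ => ?_
    rw [single_add M hA, hg]
    have h2 : ex (-(l * t)) = ex (l * s) * ex (-(l * (t + s))) := by
      rw [← ex_add]
      congr 1
      ring
    rw [h2]
    ring
  have h2 : vcoK M A j l x = ∫ t in (0 : ℝ)..1, g t := by
    unfold vcoK
    exact intervalIntegral.integral_congr fun t _ => (hg t).symm
  have h3 := hper.intervalIntegral_add_eq s 0
  rw [h1, intervalIntegral.integral_const_mul, intervalIntegral.integral_comp_add_right, zero_add,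
    add_comm 1 s, h3, zero_add, ← h2]

/-- Characters in other directions are kept: `A (e(s E_j) e(t E_i) x) = A (e(t E_i) e(s E_j) x)` by `vert_addK`. -/
theorem vcoK_keep (hA : Adm Γ (k + 1) A) (i j : M.I k) (l : ℤ) (h : CharAtK M A i) : CharAtK M (vcoK M A j l) i := by
  classical
  obtain ⟨l₀, h0⟩ := h
  refine ⟨l₀, fun s x => ?_⟩
  unfold vcoK
  rw [← intervalIntegral.integral_const_mul]
  refine intervalIntegral.integral_congr fun t _ => ?_
  rw [single_swap M hA, h0, mul_assoc]

/-- a scalar multiple -/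
theorem CharAtK.smul (w : ℂ) (j : M.I k) (h : CharAtK M A j) : CharAtK M (fun x => w * A x) j := by
  obtain ⟨l, hl⟩ := h
  refine ⟨l, fun s x => ?_⟩
  dsimp only
  rw [hl s x, mul_left_comm]

end Pool.Agent.Lib.MP_3e612f_nt.NF
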