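import Pool.Agent.Lib.MP_3e612f_nt.NF.Q.Gen

/-! Mal'cev data for groups which need not be connected, pairs of orbits: definitions (paper v4, store file `h4_NG_paper.md`). -/

set_option autoImplicit false

namespace Pool.Agent.Lib.MP_3e612f_nt.NF

open Finset

/-- Mal'cev data of depth `k`, with discrete directions `κ`: a homomorphism `n : G → ℤ^κ` such that `Γ` meets all components (`int_n`), and as in `Mal`
homomorphisms `p i` from `LL G i` onto a power of `ℝ`, `i < k`, the kernel of `p i` on `{n = 0} ∩ LL G i` being `LL G (i+1)`. (`n = 0` on `LL G 1`, so `n` only matters for `i = 0`: `(p 0, n)` has kernel `LL G 1`.) -/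
structure MalK (G : Type) [Group G] [TopologicalSpace G] (Γ : Subgroup G) (k : ℕ) (κ : Type) where
  I : ℕ → Type
  fin : ∀ i, Fintype (I i)
  n : G → κ → ℤ
  p : ∀ i, G → I i → ℝ
  e : ∀ i, (I i → ℝ) → G
  n_mul : ∀ x y, n (x * y) = n x + n y
  p_cont : ∀ i < k, ContinuousOn (p i) (LL G i : Set G)
  p_mul : ∀ i < k, ∀ x ∈ LL G i, ∀ y ∈ LL G i, p i (x * y) = p i x + p i y
  p_ker : ∀ i < k, ∀ x ∈ LL G i, n x = 0 → (p i x = 0 ↔ x ∈ LL G (i + 1))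
  e_cont : ∀ i < k, Continuous (e i)
  e_mem : ∀ i < k, ∀ t, e i t ∈ LL G i
  n_e : 0 < k → ∀ t, n (e 0 t) = 0
  p_e : ∀ i < k, ∀ t, p i (e i t) = t
  p_int : ∀ i < k, ∀ x ∈ Γ, x ∈ LL G i → ∀ j, ∃ z : ℤ, p i x j = z
  int_p : ∀ i < k, ∀ z : I i → ℤ, ∃ γ ∈ Γ, γ ∈ LL G i ∧ n γ = 0 ∧ ∀ j, p i γ j = z j
  int_n : ∀ ν : κ → ℤ, ∃ γ ∈ Γ, n γ = ν ∧ (0 < k → p 0 γ = 0)

attribute [instance] MalK.fin

/-- truncation -/
def MalK.trunc {G : Type} [Group G] [TopologicalSpace G] {Γ : Subgroup G} {k : ℕ} {κ : Type} (M : MalK G Γ (k + 1) κ) : MalK G Γ k κ where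
  I := M.I
  fin := M.fin
  n := M.n
  p := M.p
  e := M.e
  n_mul := M.n_mul
  p_cont := fun i hi => M.p_cont i (by omega)
  p_mul := fun i hi => M.p_mul i (by omega)
  p_ker := fun i hi => M.p_ker i (by omega)
  e_cont := fun i hi => M.e_cont i (by omega)
  e_mem := fun i hi => M.e_mem i (by omega)
  n_e := fun _ => M.n_e (Nat.succ_pos k)
  p_e := fun i hi => M.p_e i (by omega)
  p_int := fun i hi => M.p_int i (by omega)
  int_p := fun i hi => M.int_p i (by omega)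
  int_n := fun ν => by
    obtain ⟨γ, h1, h2, h3⟩ := M.int_n ν
    exact ⟨γ, h1, h2, fun _ => h3 (Nat.succ_pos k)⟩

/-- The orbits `g^j a`, `j < J`, have `F`-mean close to `c` unless `R B J g` (a relation). -/
def QR {H : Type} [Group H] (R : ℕ → ℕ → H → Prop) (F : H → ℂ) (c : ℂ) : Prop :=
  ∀ κ : ℝ, 0 < κ → ∃ B : ℕ, ∀ (J : ℕ) (g a : H), 1 ≤ J → κ * J ≤ ‖∑ j ∈ range J, (F (g ^ j * a) - c)‖ → R B J g

/-- the bounded relations, at scale `J`, between `x₁` and `x₂` with weights `n₁ ^ s`, `n₂ ^ s`, `s < k` -/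
def RelW (k : ℕ) {ι₁ ι₂ : Type} [Fintype ι₁] [Fintype ι₂] (n₁ n₂ : ℤ) (x₁ : ι₁ → ℝ) (x₂ : ι₂ → ℝ) (B J : ℕ) : Prop :=
  ∃ s < k, ∃ m : ι₁ ⊕ ι₂ → ℤ, m ≠ 0 ∧ (∀ i, |m i| ≤ B) ∧
    dZ ((n₁ : ℝ) ^ s * dot (fun i => m (Sum.inl i)) x₁ + (n₂ : ℝ) ^ s * dot (fun i => m (Sum.inr i)) x₂) ≤ B / J

/-- the relation for a pair `(g₁, g₂)` -/
def R2 {G₁ G₂ : Type} [Group G₁] [TopologicalSpace G₁] [Group G₂] [TopologicalSpace G₂] {Γ₁ : Subgroup G₁} {Γ₂ : Subgroup G₂} {k : ℕ}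
    (M₁ : MalK G₁ Γ₁ k Unit) (M₂ : MalK G₂ Γ₂ k Unit) (B J : ℕ) (g : G₁ × G₂) : Prop :=
  M₁.n g.1 () ≠ 0 → M₂.n g.2 () ≠ 0 → RelW k (M₁.n g.1 ()) (M₂.n g.2 ()) (M₁.p 0 g.1) (M₂.p 0 g.2) B J

end Pool.Agent.Lib.MP_3e612f_nt.NF
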