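import Pool.Agent.Lib.MP_3e612f_nt.NF.G.Dec

/-! Families of admissible functions depending continuously on a parameter in a compact set. -/

set_option autoImplicit false

namespace Pool.Agent.Lib.MP_3e612f_nt.NF

open Finset
open Pool.Agent.Lib.MP_3e612f_nt.MR (mu ex)

/-- Uniform closeness on `G` near a point of the parameter space: for `x₀`, the set of `x` with `‖Φ x y - Φ x₀ y‖ < δ` for all `y ∈ D` (`D` from `dec`) is a neighbourhood of `x₀` (tube lemma, e.g.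
`generalized_tube_lemma` or `IsCompact.eventually_forall_of_forall_eventually`), and `Φ x y = Φ x r` for `y = r h γ` (`Adm.dec'`). -/
theorem near_unifK {G : Type} [Group G] [TopologicalSpace G] [IsTopologicalGroup G] {Γ : Subgroup G} {k : ℕ} {κ : Type} (M : MalK G Γ k κ) {X : Type} [TopologicalSpace X]
    (Φ : X → G → ℂ) (hc : Continuous (fun z : X × G => Φ z.1 z.2)) (ha : ∀ x, Adm Γ k (Φ x)) (x₀ : X) (δ : ℝ) (hδ : 0 < δ) :
    ∀ᶠ x in nhds x₀, ∀ y, ‖Φ x y - Φ x₀ y‖ ≤ δ := by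
  obtain ⟨D, hD, hdec⟩ := decK M
  have h1 : ∀ᶠ x in nhds x₀, ∀ y ∈ D, ‖Φ x y - Φ x₀ y‖ < δ := by
    apply hD.eventually_forall_of_forall_eventually
    intro y _
    have h2 : Continuous (fun z : X × G => ‖Φ z.1 z.2 - Φ x₀ z.2‖) := by
      have h3 : Continuous (fun z : X × G => Φ x₀ z.2) :=
        hc.comp (Continuous.prodMk continuous_const continuous_snd)
      exact (hc.sub h3).norm
    have h4 : (fun z : X × G => ‖Φ z.1 z.2 - Φ x₀ z.2‖) (x₀, y) < δ := by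
      simpa using hδ
    exact (h2.tendsto (x₀, y)).eventually_lt_const h4
  filter_upwards [h1] with x hx y
  obtain ⟨r, hr, h, hh, γ, hγ, he, _⟩ := hdec y
  rw [(ha x).dec' hh hγ he, (ha x₀).dec' hh hγ he]
  exact (hx r hr).le

/-- Net for families of functions, for a general relation `R` which is monotone in `B`. -/
theorem netK {G : Type} [Group G] [TopologicalSpace G] [IsTopologicalGroup G] {Γ : Subgroup G} {k : ℕ} {κ : Type} (M : MalK G Γ k κ) (R : ℕ → ℕ → G → Prop)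
    (hR : ∀ B B' J g, B ≤ B' → R B J g → R B' J g) {X : Type} [TopologicalSpace X]
    (Φ : X → G → ℂ) (hc : Continuous (fun z : X × G => Φ z.1 z.2)) (ha : ∀ x, Adm Γ k (Φ x)) (E : Set X) (hE : IsCompact E)
    (hq : ∀ x ∈ E, QR R (Φ x) 0) : ∀ κ' : ℝ, 0 < κ' → ∃ B : ℕ, ∀ x ∈ E, ∀ (J : ℕ) (g a : G), 1 ≤ J → κ' * J ≤ ‖∑ j ∈ range J, Φ x (g ^ j * a)‖ →
      R B J g := by
  intro κ' hκ
  have hq' : ∀ x ∈ E, ∃ B : ℕ, ∀ (J : ℕ) (g a : G), 1 ≤ J →
      κ' / 2 * J ≤ ‖∑ j ∈ range J, (Φ x (g ^ j * a) - 0)‖ → R B J g :=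
    fun x hx => hq x hx (κ' / 2) (half_pos hκ)
  choose! B hB using hq'
  obtain ⟨t, htE, hcov⟩ := hE.elim_nhds_subcover
    (fun x₀ => {x | ∀ y, ‖Φ x y - Φ x₀ y‖ ≤ κ' / 2})
    (fun x₀ _ => near_unifK M Φ hc ha x₀ (κ' / 2) (half_pos hκ))
  refine ⟨∑ x ∈ t, B x, ?_⟩
  intro x hx J g a hJ hsum
  obtain ⟨x₁, hx₁, hxU⟩ := Set.mem_iUnion₂.1 (hcov hx)
  have hclose : ∀ y, ‖Φ x y - Φ x₁ y‖ ≤ κ' / 2 := hxU
  have h1 : κ' / 2 * J ≤ ‖∑ j ∈ range J, (Φ x₁ (g ^ j * a) - 0)‖ := by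
    have h2 : ∑ j ∈ range J, Φ x (g ^ j * a) =
        ∑ j ∈ range J, (Φ x₁ (g ^ j * a) - 0) +
          ∑ j ∈ range J, (Φ x (g ^ j * a) - Φ x₁ (g ^ j * a)) := by
      rw [← sum_add_distrib]
      exact sum_congr rfl fun j _ => by ring
    have h3 : ‖∑ j ∈ range J, (Φ x (g ^ j * a) - Φ x₁ (g ^ j * a))‖ ≤ J * (κ' / 2) := by
      refine (norm_sum_le _ _).trans ?_
      refine (sum_le_sum fun j _ => hclose (g ^ j * a)).trans ?_
      rw [sum_const, card_range, nsmul_eq_mul]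
    rw [h2] at hsum
    have h4 := hsum.trans (norm_add_le _ _)
    linarith
  have hle : B x₁ ≤ ∑ x ∈ t, B x := single_le_sum (f := B) (fun _ _ => Nat.zero_le _) hx₁
  exact hR _ _ _ _ hle (hB x₁ (htE x₁ hx₁) J g a hJ h1)

end Pool.Agent.Lib.MP_3e612f_nt.NF
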