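import Pool.Agent.Lib.MP_3e612f_nt.NF.G.Mfd

/-! Nilsystems with finitely many pieces, as families. -/

set_option autoImplicit false

namespace Pool.Agent.Lib.MP_3e612f_nt.NF

open Finset MeasureTheory
open Pool.Agent.Lib.MP_3e612f_nt.MR (mu ex)
open Pool.Agent.Lib.MP_3e612f_nt.PI (mc)

/-- the nilsystem with `q + 1` pieces: `(j, x) ↦ (j + 1, u_j x)` on `{0, .., q} × G/Γ` -/
def NilMfd.sys (N : NilMfd) {q : ℕ} (u : Fin (q + 1) → N.G) (z : Fin (q + 1) × (N.G ⧸ N.Γ)) : Fin (q + 1) × (N.G ⧸ N.Γ) := (z.1 + 1, u z.1 • z.2)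

/-- the return map `u_q … u_0` is not in `{n = 0}` (unless `n = 0` on `G`) and all its frequencies are in `E` and irrational -/
def NilMfd.FrIn (N : NilMfd) {q : ℕ} (u : Fin (q + 1) → N.G) (E : Set ℝ) : Prop :=
  ((∀ x, N.M.n x = 0) ∨ ∑ j, N.M.n (u j) ≠ 0) ∧ ∀ m : N.M.I 0 → ℤ, m ≠ 0 → ∑ j, dot m (N.M.p 0 (u j)) ∈ E ∧ ∀ r : ℚ, ∑ j, dot m (N.M.p 0 (u j)) ≠ r

theorem iter_add_one {q : ℕ} (n : ℕ) (j : Fin (q + 1)) : (((fun i : Fin (q + 1) => i + 1)^[n] j : Fin (q + 1)) : ℕ) = ((j : ℕ) + n) % (q + 1) := by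
  induction n with
  | zero => simp [Nat.mod_eq_of_lt j.2]
  | succ n ih =>
    rw [Function.iterate_succ_apply', Fin.val_add, ih, Fin.val_one', ← Nat.add_mod]
    rfl

theorem iter_cycle {q : ℕ} (j : Fin (q + 1)) : (fun i : Fin (q + 1) => i + 1)^[q + 1] j = j := by
  apply Fin.ext
  rw [iter_add_one, Nat.add_mod_right, Nat.mod_eq_of_lt j.2]

theorem sum_cycle {A : Type} [AddCommMonoid A] {q : ℕ} (a : Fin (q + 1) → A) (j : Fin (q + 1)) : ∑ i ∈ range (q + 1), a ((fun i : Fin (q + 1) => i + 1)^[i] j) = ∑ l, a l := by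
  rw [Finset.sum_range]
  have h1 : ∀ i : Fin (q + 1), (fun i : Fin (q + 1) => i + 1)^[(i : ℕ)] j = j + i := by
    intro i
    apply Fin.ext
    rw [iter_add_one, Fin.val_add]
  rw [sum_congr rfl fun i _ => congrArg a (h1 i)]
  exact Equiv.sum_comp (Equiv.addLeft j) a

theorem goodR_semi {E E' : Type} {T : E → E} {T' : E' → E'} (π : E → E') (h : ∀ x, π (T x) = T' (π x)) (f : E' → ℂ) (hf : GoodR T' f) : GoodR T (fun x => f (π x)) := by
  intro ε hε
  obtain ⟨h₀, h1⟩ := hf ε hε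
  refine ⟨h₀, fun H hH => ?_⟩
  obtain ⟨N₀, h2⟩ := h1 H hH
  refine ⟨N₀, fun N hN y => ?_⟩
  have h3 := h2 N hN (fun x => π (y x))
  have h4 : ∀ (n : ℕ) (x : E), π (T^[n] x) = T'^[n] (π x) := by
    intro n x
    have hs : Function.Semiconj π T T' := h
    exact (hs.iterate_right n) x
  simp only [h4]
  exact h3

theorem NilMfd.partP' (N : NilMfd) {W : Type} [TopologicalSpace W] [CompactSpace W] [TopologicalSpace.MetrizableSpace W] (τ : W → W) (hτ : Continuous τ) (Q : ℕ) (hQ : 1 ≤ Q) (hper : ∀ w, τ^[Q] w = w)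
    (u : W → N.G) (hu : Continuous u) (hnu : (∀ x, N.M.n x = 0) ∨ ∀ w, ∑ i ∈ range Q, N.M.n (u (τ^[i] w)) ≠ 0)
    (hfr : ∀ m : N.M.I 0 → ℤ, m ≠ 0 → volume {x : ℝ | ∃ w, x = ∑ i ∈ range Q, dot m (N.M.p 0 (u (τ^[i] w)))} = 0 ∧
      ∀ (w : W) (q : ℚ), ∑ i ∈ range Q, dot m (N.M.p 0 (u (τ^[i] w))) ≠ q) : PartP N.Γ τ u := by
  let _ : MetricSpace W := TopologicalSpace.metrizableSpaceMetric W
  exact N.M.partP N.pos N.nil τ hτ Q hQ hper u hu hnu hfr

theorem NilMfd.good_fam (N : NilMfd) (q : ℕ) (E : Set ℝ) (hE : volume E = 0) (U : Set (Fin (q + 1) → N.G)) (hU : IsCompact U) (hUE : ∀ u ∈ U, N.FrIn u E)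
    (f : Fin (q + 1) × (N.G ⧸ N.Γ) → ℂ) (hf : Continuous f) : GoodR (fam (fun u z => N.sys u z) U) (fun w => f w.2) := by
  have h0 : TopologicalSpace.MetrizableSpace N.G := TopologicalSpace.metrizableSpace_of_t3_secondCountable N.G
  have hcU : CompactSpace U := isCompact_iff_compactSpace.1 hU
  have hmW : TopologicalSpace.MetrizableSpace (U × Fin (q + 1)) := inferInstance
  have hcW : CompactSpace (U × Fin (q + 1)) := inferInstance
  have h1c : Continuous (fun i : Fin (q + 1) => i + 1) := continuous_of_discreteTopology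
  have hτ : Continuous (fun w : U × Fin (q + 1) => ((w.1, w.2 + 1) : U × Fin (q + 1))) :=
    continuous_fst.prodMk (h1c.comp continuous_snd)
  have hev : Continuous (fun w : (Fin (q + 1) → N.G) × Fin (q + 1) => w.1 w.2) := by
    rw [continuous_prod_of_discrete_right]
    intro j
    exact continuous_apply j
  have hu : Continuous (fun w : U × Fin (q + 1) => (w.1 : Fin (q + 1) → N.G) w.2) :=
    hev.comp ((continuous_subtype_val.comp continuous_fst).prodMk continuous_snd)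
  have hit : ∀ (n : ℕ) (w : U × Fin (q + 1)), (fun w : U × Fin (q + 1) => ((w.1, w.2 + 1) : U × Fin (q + 1)))^[n] w = (w.1, (fun i : Fin (q + 1) => i + 1)^[n] w.2) := by
    intro n w
    induction n with
    | zero => rfl
    | succ n ih => rw [Function.iterate_succ_apply', Function.iterate_succ_apply', ih]
  have hP := N.partP' (fun w : U × Fin (q + 1) => ((w.1, w.2 + 1) : U × Fin (q + 1))) hτ (q + 1) (Nat.succ_pos q) (fun w => by
    rw [hit, iter_cycle]) (fun w : U × Fin (q + 1) => (w.1 : Fin (q + 1) → N.G) w.2) hu (by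
    by_cases hn : ∀ x, N.M.n x = 0
    · exact Or.inl hn
    · refine Or.inr fun w => ?_
      simp only [hit]
      rw [sum_cycle (fun l => N.M.n ((w.1 : Fin (q + 1) → N.G) l)) w.2]
      exact (hUE w.1 w.1.2).1.resolve_left hn) (by
    intro m hm
    constructor
    · refine measure_mono_null ?_ hE
      rintro x ⟨w, rfl⟩
      simp only [hit]
      rw [sum_cycle (fun l => dot m (N.M.p 0 ((w.1 : Fin (q + 1) → N.G) l))) w.2]
      exact ((hUE w.1 w.1.2).2 m hm).1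
    · intro w r
      simp only [hit]
      rw [sum_cycle (fun l => dot m (N.M.p 0 ((w.1 : Fin (q + 1) → N.G) l))) w.2]
      exact ((hUE w.1 w.1.2).2 m hm).2 r)
  obtain ⟨f', hf'⟩ : ∃ f' : (U × Fin (q + 1)) × (N.G ⧸ N.Γ) → ℂ, ∀ z, f' z = f (z.1.2, z.2) := ⟨_, fun _ => rfl⟩
  have hfc : Continuous f' := by
    have h1 : f' = fun z : (U × Fin (q + 1)) × (N.G ⧸ N.Γ) => f (z.1.2, z.2) := funext hf'
    rw [h1]
    exact hf.comp ((continuous_snd.comp continuous_fst).prodMk continuous_snd)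
  obtain ⟨C, hC⟩ := (isCompact_univ (X := (U × Fin (q + 1)) × (N.G ⧸ N.Γ))).exists_bound_of_continuousOn hfc.continuousOn
  have hG := goodR_of_part _ _ hP f' hfc
    ⟨max C 1, lt_of_lt_of_le one_pos (le_max_right _ _), fun z => (hC z (Set.mem_univ _)).trans (le_max_left _ _)⟩
  obtain ⟨π, hπ⟩ : ∃ π : U × (Fin (q + 1) × (N.G ⧸ N.Γ)) → (U × Fin (q + 1)) × (N.G ⧸ N.Γ), ∀ w, π w = ((w.1, w.2.1), w.2.2) := ⟨_, fun _ => rfl⟩
  have h2 : ∀ w, π (fam (fun u z => N.sys u z) U w) = nilmap (Γ := N.Γ) (fun w : U × Fin (q + 1) => ((w.1, w.2 + 1) : U × Fin (q + 1))) (fun w : U × Fin (q + 1) => (w.1 : Fin (q + 1) → N.G) w.2) (π w) := by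
    intro w
    rw [hπ, hπ]
    rfl
  have h3 := goodR_semi π h2 f' hG
  have h4 : (fun w : U × (Fin (q + 1) × (N.G ⧸ N.Γ)) => f' (π w)) = fun w => f w.2 := by
    funext w
    rw [hf', hπ]
  rw [h4] at h3
  exact h3

end Pool.Agent.Lib.MP_3e612f_nt.NF
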