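import Pool.Agent.Lib.MP_3e612f_nt.NF.G.Dec

/-! The property `QR` is closed under sums and uniform limits. -/

set_option autoImplicit false

namespace Pool.Agent.Lib.MP_3e612f_nt.NF

open Finset
open Pool.Agent.Lib.MP_3e612f_nt.MR (mu ex)

/-- `R` is monotone in `B` -/
def RMono {H : Type} (R : ℕ → ℕ → H → Prop) : Prop := ∀ (B B' J : ℕ) (g : H), B ≤ B' → R B J g → R B' J g

/-- `g` satisfies no relation at large scales -/
def RFree {H : Type} (R : ℕ → ℕ → H → Prop) (g : H) : Prop := ∀ B : ℕ, ∃ J₀ : ℕ, ∀ J : ℕ, J₀ ≤ J → 1 ≤ J → ¬ R B J g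

theorem QR.mean {H : Type} [Group H] {R : ℕ → ℕ → H → Prop} {F : H → ℂ} {c : ℂ} (h : QR R F c) (g : H) (hg : RFree R g) (ε : ℝ) (hε : 0 < ε) :
    ∃ J₀ : ℕ, ∀ J : ℕ, J₀ ≤ J → 1 ≤ J → ∀ a : H, ‖∑ j ∈ range J, (F (g ^ j * a) - c)‖ < ε * J := by
  obtain ⟨B, hB⟩ := h ε hε
  obtain ⟨J₀, hJ₀⟩ := hg B
  refine ⟨J₀, fun J hJ hJ1 a => ?_⟩
  by_contra hcon
  exact hJ₀ J hJ hJ1 (hB J g a hJ1 (not_lt.1 hcon))

/-- Sum: `κ J ≤ ‖∑ (F + F' - c - c')‖` implies `(κ/2) J ≤` one of the two; `B` = the sum of the two bounds. -/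
theorem QR.add {G : Type} [Group G] {R : ℕ → ℕ → G → Prop} (hR : RMono R) {F F' : G → ℂ} {c c' : ℂ} (h : QR R F c) (h' : QR R F' c') :
    QR R (fun x => F x + F' x) (c + c') := by
  intro κ hκ
  obtain ⟨B, hB⟩ := h (κ / 2) (half_pos hκ)
  obtain ⟨B', hB'⟩ := h' (κ / 2) (half_pos hκ)
  refine ⟨B + B', fun J g a hJ hle => ?_⟩
  have hsum : ∑ j ∈ range J, (F (g ^ j * a) + F' (g ^ j * a) - (c + c')) =
      ∑ j ∈ range J, (F (g ^ j * a) - c) + ∑ j ∈ range J, (F' (g ^ j * a) - c') := by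
    rw [← sum_add_distrib]
    exact sum_congr rfl fun j _ => by ring
  rw [hsum] at hle
  have h1 := hle.trans (norm_add_le _ _)
  rcases le_total (κ / 2 * J) ‖∑ j ∈ range J, (F (g ^ j * a) - c)‖ with h2 | h2
  · exact hR _ _ _ _ (Nat.le_add_right B B') (hB J g a hJ h2)
  · refine hR _ _ _ _ (Nat.le_add_left B' B) (hB' J g a hJ ?_)
    have h3 : κ * J = κ / 2 * J + κ / 2 * J := by ring
    linarith

theorem QR.zero {G : Type} [Group G] (R : ℕ → ℕ → G → Prop) : QR R (fun _ : G => (0 : ℂ)) 0 := by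
  intro κ hκ
  refine ⟨0, fun J g a hJ hle => ?_⟩
  have hle' : κ * J ≤ ‖∑ _j ∈ range J, ((0 : ℂ) - 0)‖ := hle
  rw [sub_self, sum_const_zero, norm_zero] at hle'
  have h1 : (1 : ℝ) ≤ J := by exact_mod_cast hJ
  have h2 : 0 < κ * J := mul_pos hκ (by linarith)
  exact absurd hle' (not_le.2 h2)

theorem QR.sum {G : Type} [Group G] {R : ℕ → ℕ → G → Prop} (hR : RMono R) (n : ℕ) (A : ℕ → G → ℂ) (h : ∀ i < n, ∃ c, QR R (A i) c) :
    ∃ c, QR R (fun x => ∑ i ∈ range n, A i x) c := by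
  induction n with
  | zero =>
    refine ⟨0, ?_⟩
    simp only [range_zero, sum_empty]
    exact QR.zero R
  | succ n ih =>
    obtain ⟨c, hc⟩ := ih fun i hi => h i (Nat.lt_succ_of_lt hi)
    obtain ⟨c', hc'⟩ := h n (Nat.lt_succ_self n)
    refine ⟨c + c', ?_⟩
    have h1 := QR.add hR hc hc'
    convert h1 using 2
    exact sum_range_succ _ _

/-- Comparison of the constants: means along a generic element. -/
theorem QR.const_le {G : Type} [Group G] {R : ℕ → ℕ → G → Prop} (hP : ∃ g, RFree R g) {F F' : G → ℂ} {c c' : ℂ} (h : QR R F c) (h' : QR R F' c')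
    (ε : ℝ) (hε : ∀ x, ‖F x - F' x‖ ≤ ε) : ‖c - c'‖ ≤ ε := by
  obtain ⟨g, hg⟩ := hP
  refine le_of_forall_pos_le_add fun δ hδ => ?_
  obtain ⟨J₁, hJ₁⟩ := h.mean g hg (δ / 2) (half_pos hδ)
  obtain ⟨J₂, hJ₂⟩ := h'.mean g hg (δ / 2) (half_pos hδ)
  have hJ : 1 ≤ J₁ + J₂ + 1 := Nat.le_add_left _ _
  have e1 := hJ₁ (J₁ + J₂ + 1) (by omega) hJ 1
  have e2 := hJ₂ (J₁ + J₂ + 1) (by omega) hJ 1
  set J : ℕ := J₁ + J₂ + 1 with hJdef
  have hJ0 : (0 : ℝ) < J := by exact_mod_cast hJ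
  have hsum : (J : ℂ) * (c - c') = ∑ j ∈ range J, (F (g ^ j * 1) - F' (g ^ j * 1)) -
      ∑ j ∈ range J, (F (g ^ j * 1) - c) + ∑ j ∈ range J, (F' (g ^ j * 1) - c') := by
    rw [← sum_sub_distrib, ← sum_add_distrib]
    rw [show (J : ℂ) * (c - c') = ∑ _j ∈ range J, (c - c') by
      rw [sum_const, card_range, nsmul_eq_mul]]
    exact sum_congr rfl fun j _ => by ring
  have h3 : ‖∑ j ∈ range J, (F (g ^ j * 1) - F' (g ^ j * 1))‖ ≤ J * ε := by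
    refine (norm_sum_le _ _).trans ?_
    refine (sum_le_sum fun j _ => hε _).trans (le_of_eq ?_)
    rw [sum_const, card_range, nsmul_eq_mul]
  have h4 : (J : ℝ) * ‖c - c'‖ ≤ J * ε + δ / 2 * J + δ / 2 * J := by
    have h5 : (J : ℝ) * ‖c - c'‖ = ‖(J : ℂ) * (c - c')‖ := by
      rw [norm_mul, Complex.norm_natCast]
    rw [h5, hsum]
    refine (norm_add_le _ _).trans ?_
    have h6 := norm_sub_le (∑ j ∈ range J, (F (g ^ j * 1) - F' (g ^ j * 1)))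
      (∑ j ∈ range J, (F (g ^ j * 1) - c))
    linarith
  have h7 : (J : ℝ) * ‖c - c'‖ ≤ J * (ε + δ) := by linarith
  exact le_of_mul_le_mul_left h7 hJ0

/-- Uniform limits: choose `A_n`, `c_n` for `ε = 1/(n+1)`; `c_n` is a Cauchy sequence by `QR.const_le` (`‖A_n - A_m‖ ≤ 1/(n+1) + 1/(m+1)`), `c` its limit; for `κ` take `n` with `‖F - A_n‖ ≤ κ/4`, `‖c - c_n‖ ≤ κ/4` and `B` from
`QP A_n c_n` with `κ/2`. -/
theorem QR.limit {G : Type} [Group G] {R : ℕ → ℕ → G → Prop} (hP : ∃ g, RFree R g) {F : G → ℂ}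
    (h : ∀ ε : ℝ, 0 < ε → ∃ (A : G → ℂ) (c : ℂ), QR R A c ∧ ∀ x, ‖F x - A x‖ ≤ ε) : ∃ c, QR R F c := by
  choose A c hA hFA using fun n : ℕ => h (1 / ((n : ℝ) + 1)) Nat.one_div_pos_of_nat
  have hcc : ∀ n m, ‖c n - c m‖ ≤ 1 / ((n : ℝ) + 1) + 1 / ((m : ℝ) + 1) := by
    intro n m
    refine QR.const_le hP (hA n) (hA m) _ fun x => ?_
    have h1 : A n x - A m x = (F x - A m x) - (F x - A n x) := by ring
    rw [h1]
    refine (norm_sub_le _ _).trans ?_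
    have h2 := hFA n x
    have h3 := hFA m x
    linarith
  have hcauchy : CauchySeq c := by
    rw [Metric.cauchySeq_iff]
    intro ε hε
    obtain ⟨N, hN⟩ := exists_nat_one_div_lt (half_pos hε)
    refine ⟨N, fun n hn m hm => ?_⟩
    rw [dist_eq_norm]
    have h1 : ∀ k : ℕ, N ≤ k → 1 / ((k : ℝ) + 1) ≤ 1 / ((N : ℝ) + 1) := fun k hk =>
      Nat.one_div_le_one_div hk
    have h2 := hcc n m
    have h3 := h1 n hn
    have h4 := h1 m hm
    linarith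
  obtain ⟨c₀, hc₀⟩ := cauchySeq_tendsto_of_complete hcauchy
  refine ⟨c₀, fun κ hκ => ?_⟩
  have hκ4 : 0 < κ / 4 := by linarith
  obtain ⟨N₁, hN₁⟩ := Metric.tendsto_atTop.1 hc₀ (κ / 4) hκ4
  obtain ⟨N₂, hN₂⟩ := exists_nat_one_div_lt hκ4
  set n : ℕ := max N₁ N₂ with hn
  have hn1 : ‖c n - c₀‖ ≤ κ / 4 := by
    have h1 := hN₁ n (le_max_left _ _)
    rw [dist_eq_norm] at h1
    exact h1.le
  have hn2 : 1 / ((n : ℝ) + 1) ≤ κ / 4 :=
    (Nat.one_div_le_one_div (le_max_right N₁ N₂)).trans hN₂.le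
  obtain ⟨B, hB⟩ := hA n (κ / 2) (half_pos hκ)
  refine ⟨B, fun J g a hJ hle => hB J g a hJ ?_⟩
  have hsum : ∑ j ∈ range J, (F (g ^ j * a) - c₀) = ∑ j ∈ range J, (A n (g ^ j * a) - c n) +
      ∑ j ∈ range J, ((F (g ^ j * a) - A n (g ^ j * a)) + (c n - c₀)) := by
    rw [← sum_add_distrib]
    exact sum_congr rfl fun j _ => by ring
  have h3 : ‖∑ j ∈ range J, ((F (g ^ j * a) - A n (g ^ j * a)) + (c n - c₀))‖ ≤ J * (κ / 2) := by
    refine (norm_sum_le _ _).trans ?_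
    refine (sum_le_sum fun j _ => (norm_add_le _ _).trans
      (add_le_add ((hFA n _).trans hn2) hn1)).trans (le_of_eq ?_)
    rw [sum_const, card_range, nsmul_eq_mul]
    ring
  rw [hsum] at hle
  have h4 := hle.trans (norm_add_le _ _)
  linarith

end Pool.Agent.Lib.MP_3e612f_nt.NF
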