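import Pool.Agent.Lib.MP_3e612f_nt.NF.G.FejStep
import Pool.Agent.Lib.MP_3e612f_nt.NF.G.Lin

/-! Reduction to functions with a vertical character (paper: Q-Fej). -/

set_option autoImplicit false

namespace Pool.Agent.Lib.MP_3e612f_nt.NF

open Finset
open Pool.Agent.Lib.MP_3e612f_nt.MR (mu ex)

/-- Induction on the number of directions in which `A` has no character yet: for every finite set `U` of directions, if `A` has characters in all directions outside `U` then `∃ c, QP A c`. `U = ∅`: hypothesis. `U = insert j U'`: by `fej_stepK` (`T` = complement of `U`) `A` is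
a uniform limit of finite sums of functions with characters outside `U'`: `QR.sum`, `QR.limit`. -/
theorem reduce_charK {G : Type} [Group G] [TopologicalSpace G] [IsTopologicalGroup G] {Γ : Subgroup G} {k : ℕ} {κ : Type} (M : MalK G Γ (k + 1) κ) {R : ℕ → ℕ → G → Prop} (hR : RMono R) (hf : ∃ g, RFree R g)
    (h : ∀ A : G → ℂ, Adm Γ (k + 1) A → (∀ j, CharAtK M A j) → ∃ c, QR R A c) (F : G → ℂ) (hF : Adm Γ (k + 1) F) : ∃ c, QR R F c := by
  classical
  have key : ∀ (U : Finset (M.I k)) (A : G → ℂ), Adm Γ (k + 1) A → (∀ j, j ∉ U → CharAtK M A j) →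
      ∃ c, QR R A c := by
    intro U
    induction U using Finset.induction_on with
    | empty =>
      intro A hA hc
      exact h A hA fun j => hc j (Finset.notMem_empty j)
    | insert j U hj ih =>
      intro A hA hc
      refine QR.limit hf fun ε hε => ?_
      obtain ⟨n, As, h1, h2⟩ := fej_stepK M hA {i | i ∉ insert j U} (fun i hi => hc i hi) j ε hε
      obtain ⟨c, hc'⟩ := QR.sum hR n As fun i hi => ih (As i) (h1 i hi).1 fun i' hi' => by
        by_cases h3 : i' = j
        · rw [h3]
          exact (h1 i hi).2.1
        · refine (h1 i hi).2.2 i' ?_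
          change i' ∉ insert j U
          rw [Finset.mem_insert, not_or]
          exact ⟨h3, hi'⟩
      exact ⟨_, c, hc', h2⟩
  exact key Finset.univ F hF fun j hj => absurd (Finset.mem_univ j) hj

end Pool.Agent.Lib.MP_3e612f_nt.NF
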