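import Pool.Agent.Lib.MP_3e612f_nt.NF.G.Coef

/-! The full vertical character (paper: Q-Fej). -/

set_option autoImplicit false

namespace Pool.Agent.Lib.MP_3e612f_nt.NF

open Finset
open Pool.Agent.Lib.MP_3e612f_nt.MR (mu ex)

/-- `A (z x) = A (e_k(p_k z) x)` (`vert_eq`), and `e_k(∑ t_j E_j)` acts as the product of the `e_k(t_j E_j)` (`vert_add`, induction over a finite set of directions). -/
theorem full_charK {G : Type} [Group G] [TopologicalSpace G] {Γ : Subgroup G} {k : ℕ} {κ : Type} (M : MalK G Γ (k + 1) κ) {A : G → ℂ} (hA : Adm Γ (k + 1) A)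
    (h : ∀ j, CharAtK M A j) : ∃ ξ : M.I k → ℤ, ∀ z ∈ LL G k, ∀ x, A (z * x) = ex (dot ξ (M.p k z)) * A x := by
  classical
  choose ξ hξ using h
  refine ⟨ξ, fun z hz x => ?_⟩
  have key : ∀ (t : M.I k → ℝ) (U : Finset (M.I k)) (x : G),
      A (M.e k (∑ j ∈ U, Pi.single j (t j)) * x) = ex (∑ j ∈ U, (ξ j : ℝ) * t j) * A x := by
    intro t U
    induction U using Finset.induction_on with
    | empty =>
      intro x
      rw [sum_empty, sum_empty, ex_zero, one_mul]
      exact vert_zeroK M hA x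
    | insert j U hj ih =>
      intro x
      rw [sum_insert hj, sum_insert hj, ← vert_addK M hA, ex_add, mul_assoc, ← ih x]
      have h1 := hξ j (t j) (M.e k (∑ j ∈ U, Pi.single j (t j)) * x)
      convert h1 using 4
  have h1 : M.p k z = M.p k (M.e k (M.p k z)) := (M.p_e k (Nat.lt_succ_self k) _).symm
  rw [vert_eqK M hA hz (M.e_mem k (Nat.lt_succ_self k) _) h1 x]
  have h2 := key (M.p k z) univ x
  rw [Finset.univ_sum_single] at h2
  exact h2

/-- `ξ = 0`: `A` is left `LL G k`-invariant. -/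
theorem adm_of_char_zeroK {G : Type} [Group G] [TopologicalSpace G] {Γ : Subgroup G} {k : ℕ} {κ : Type} (M : MalK G Γ (k + 1) κ) {A : G → ℂ} (hA : Adm Γ (k + 1) A)
    (h : ∀ z ∈ LL G k, ∀ x, A (z * x) = ex (dot (0 : M.I k → ℤ) (M.p k z)) * A x) : Adm Γ k A := by
  refine ⟨hA.cont, hA.right, fun x z hz => ?_⟩
  have h1 : dot (0 : M.I k → ℤ) (M.p k z) = 0 := by
    unfold dot
    exact sum_eq_zero fun i _ => by simp
  rw [h z hz x, h1, ex_zero, one_mul]

end Pool.Agent.Lib.MP_3e612f_nt.NF
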