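import Pool.Agent.Lib.MP_3e612f_nt.NF.G.StepB
import Pool.Agent.Lib.MP_3e612f_nt.NF.G.Vert
import Pool.Agent.Lib.MP_3e612f_nt.NF.G.Xi

/-! Quantitative equidistribution of pairs of linear orbits. -/

set_option autoImplicit false

namespace Pool.Agent.Lib.MP_3e612f_nt.NF

open Finset
open Pool.Agent.Lib.MP_3e612f_nt.MR (mu ex)

theorem QR.imp {H : Type} [Group H] {R R' : ℕ → ℕ → H → Prop} (hR : ∀ B J g, R B J g → R' B J g) {F : H → ℂ} {c : ℂ} (h : QR R F c) : QR R' F c := by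
  intro κ hκ
  obtain ⟨B, hB⟩ := h κ hκ
  exact ⟨B, fun J g a hJ hle => hR _ _ _ (hB J g a hJ hle)⟩

theorem RelW.succ {k : ℕ} {ι₁ ι₂ : Type} [Fintype ι₁] [Fintype ι₂] {n₁ n₂ : ℤ} {x₁ : ι₁ → ℝ} {x₂ : ι₂ → ℝ} {B J : ℕ} (h : RelW k n₁ n₂ x₁ x₂ B J) :
    RelW (k + 1) n₁ n₂ x₁ x₂ B J := by
  obtain ⟨s, hs, h⟩ := h
  exact ⟨s, by omega, h⟩

section
variable {G₁ : Type} [Group G₁] [TopologicalSpace G₁] {Γ₁ : Subgroup G₁}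
  {G₂ : Type} [Group G₂] [TopologicalSpace G₂] {Γ₂ : Subgroup G₂}

theorem rfree_of_noRel {k : ℕ} (M₁ : MalK G₁ Γ₁ k Unit) (M₂ : MalK G₂ Γ₂ k Unit) (g : G₁ × G₂) (h : NoRel (Sum.elim (M₁.p 0 g.1) (M₂.p 0 g.2)))
    (h₁ : M₁.n g.1 () = 1) (h₂ : M₂.n g.2 () = 1) : RFree (R2 M₁ M₂) g := by
  intro B
  obtain ⟨J₀, hJ₀⟩ := noRel_far _ h B
  refine ⟨J₀, fun J hJ hJ1 hR => ?_⟩
  obtain ⟨s, -, m, hm, hmB, hmd⟩ := hR (by rw [h₁]; exact one_ne_zero) (by rw [h₂]; exact one_ne_zero)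
  have h3 := hJ₀ J hJ hJ1 m hm hmB
  rw [dot_sumElim] at h3
  rw [h₁, h₂, Int.cast_one, one_pow, one_mul, one_mul] at hmd
  exact absurd hmd (not_le.2 h3)

theorem exists_generic2 {k : ℕ} (M₁ : MalK G₁ Γ₁ k Unit) (M₂ : MalK G₂ Γ₂ k Unit) (hk : 0 < k) :
    ∃ g : G₁ × G₂, NoRel (Sum.elim (M₁.p 0 g.1) (M₂.p 0 g.2)) ∧ M₁.n g.1 () = 1 ∧ M₂.n g.2 () = 1 ∧ RFree (R2 M₁ M₂) g := by
  obtain ⟨x, hx⟩ := exists_noRel (M₁.I 0 ⊕ M₂.I 0)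
  obtain ⟨γ₁, -, hn1, hp1⟩ := M₁.int_n (fun _ => 1)
  obtain ⟨γ₂, -, hn2, hp2⟩ := M₂.int_n (fun _ => 1)
  have e1 : M₁.p 0 (M₁.e 0 (fun i => x (Sum.inl i)) * γ₁) = fun i => x (Sum.inl i) := by
    rw [M₁.p0_mul hk, hp1 hk, add_zero, M₁.p_e 0 hk]
  have e2 : M₂.p 0 (M₂.e 0 (fun i => x (Sum.inr i)) * γ₂) = fun i => x (Sum.inr i) := by
    rw [M₂.p0_mul hk, hp2 hk, add_zero, M₂.p_e 0 hk]
  have e3 : M₁.n (M₁.e 0 (fun i => x (Sum.inl i)) * γ₁) () = 1 := by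
    rw [M₁.n_mul, hn1, M₁.n_e hk, zero_add]
  have e4 : M₂.n (M₂.e 0 (fun i => x (Sum.inr i)) * γ₂) () = 1 := by
    rw [M₂.n_mul, hn2, M₂.n_e hk, zero_add]
  have h : NoRel (Sum.elim (M₁.p 0 (M₁.e 0 (fun i => x (Sum.inl i)) * γ₁)) (M₂.p 0 (M₂.e 0 (fun i => x (Sum.inr i)) * γ₂))) := by
    rw [e1, e2]
    have e5 : (Sum.elim (fun i => x (Sum.inl i)) (fun i => x (Sum.inr i)) : M₁.I 0 ⊕ M₂.I 0 → ℝ) = x := by
      funext i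
      rcases i with i | i <;> rfl
    rw [e5]
    exact hx
  exact ⟨(M₁.e 0 (fun i => x (Sum.inl i)) * γ₁, M₂.e 0 (fun i => x (Sum.inr i)) * γ₂), h, e3, e4, rfree_of_noRel M₁ M₂ _ h e3 e4⟩

end

section
variable {G₁ : Type} [Group G₁] [TopologicalSpace G₁] [IsTopologicalGroup G₁] {Γ₁ : Subgroup G₁}
  {G₂ : Type} [Group G₂] [TopologicalSpace G₂] [IsTopologicalGroup G₂] {Γ₂ : Subgroup G₂}

theorem geo_case2 (M₁ : MalK G₁ Γ₁ 1 Unit) (M₂ : MalK G₂ Γ₂ 1 Unit) {A : G₁ × G₂ → ℂ} (hA : Adm (Γ₁.prod Γ₂) 1 A) (ξ : (M₁.prod M₂).I 0 → ℤ)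
    (hξ : ξ ≠ 0) (h : ∀ z ∈ LL (G₁ × G₂) 0, ∀ x, A (z * x) = ex (dot ξ ((M₁.prod M₂).p 0 z)) * A x) : QR (R2 M₁ M₂) A 0 := by
  obtain ⟨C, hC, hb⟩ := hA.bddK (M₁.prod M₂)
  intro κ hκ
  refine ⟨⌈C / κ⌉₊ + ∑ i, (ξ i).natAbs, fun J g a hJ hsum _ _ => ⟨0, one_pos, ξ, hξ, fun i => ?_, ?_⟩⟩
  · have h1 : (ξ i).natAbs ≤ ∑ i, (ξ i).natAbs :=
      single_le_sum (f := fun i => (ξ i).natAbs) (fun _ _ => Nat.zero_le _) (mem_univ i)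
    rw [Int.abs_eq_natAbs]
    exact_mod_cast h1.trans (Nat.le_add_left _ _)
  · have hJ' : (0 : ℝ) < J := by exact_mod_cast hJ
    obtain ⟨θ, hθ⟩ : ∃ θ : ℝ, θ = dot ξ ((M₁.prod M₂).p 0 g) := ⟨_, rfl⟩
    have hθ' : ((M₁.n g.1 () : ℤ) : ℝ) ^ 0 * dot (fun i => ξ (Sum.inl i)) (M₁.p 0 g.1) + ((M₂.n g.2 () : ℤ) : ℝ) ^ 0 * dot (fun i => ξ (Sum.inr i)) (M₂.p 0 g.2) = θ := by
      rw [pow_zero, pow_zero, one_mul, one_mul, hθ]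
      exact (dot_sumElim ξ (M₁.p 0 g.1) (M₂.p 0 g.2)).symm
    rw [hθ']
    have e1 : ∀ j ∈ range J, A (g ^ j * a) - 0 = ex (j * θ + 0) * A a := by
      intro j _
      rw [sub_zero, h _ (LL_zero _), (M₁.prod M₂).p0_pow Nat.one_pos, dot_smul, add_zero, hθ]
    rw [sum_congr rfl e1, ← sum_mul, norm_mul] at hsum
    have h2 := geom_le θ 0 J
    have h3 : 0 ≤ dZ θ := dZ_nonneg _
    set S := ‖∑ j ∈ range J, ex (j * θ + 0)‖ with hS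
    have hS0 : 0 ≤ S := norm_nonneg _
    have h4 : κ * J ≤ S * C := hsum.trans (mul_le_mul_of_nonneg_left (hb a) hS0)
    have h5 : κ * J * dZ θ ≤ C := by
      have h6 : κ * J * dZ θ ≤ S * C * dZ θ :=
        mul_le_mul_of_nonneg_right h4 h3
      have h7 : S * C * dZ θ ≤ C := by
        have h8 : S * dZ θ ≤ 1 := by nlinarith [mul_nonneg hS0 h3]
        calc S * C * dZ θ = C * (S * dZ θ) := by ring
          _ ≤ C * 1 := mul_le_mul_of_nonneg_left h8 hC.le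
          _ = C := mul_one C
      exact h6.trans h7
    rw [le_div_iff₀ hJ']
    have h9 : dZ θ * J ≤ C / κ := by
      rw [le_div_iff₀ hκ]
      calc dZ θ * J * κ = κ * J * dZ θ := by ring
        _ ≤ C := h5
    refine h9.trans ((Nat.le_ceil _).trans ?_)
    push_cast
    have h10 : (0 : ℝ) ≤ ∑ i, (((ξ i).natAbs : ℕ) : ℝ) := sum_nonneg fun i _ => Nat.cast_nonneg _
    linarith

end

/-- Equidistribution for pairs. Induction on `k`, all pairs of groups. -/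
theorem leib2 (k : ℕ) : ∀ (G₁ : Type) [Group G₁] [TopologicalSpace G₁] [IsTopologicalGroup G₁] (Γ₁ : Subgroup G₁)
    (G₂ : Type) [Group G₂] [TopologicalSpace G₂] [IsTopologicalGroup G₂] (Γ₂ : Subgroup G₂)
    (M₁ : MalK G₁ Γ₁ k Unit) (M₂ : MalK G₂ Γ₂ k Unit) (F : G₁ × G₂ → ℂ), Adm (Γ₁.prod Γ₂) k F → ∃ c, QR (R2 M₁ M₂) F c := by
  induction k with
  | zero =>
    intro G₁ _ _ _ Γ₁ G₂ _ _ _ Γ₂ M₁ M₂ F hF
    have hconst : ∀ x, F x = F 1 := fun x => by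
      have := hF.left 1 x (LL_zero x)
      rwa [mul_one] at this
    refine ⟨F 1, fun κ hκ => ⟨0, fun J g a hJ h => ?_⟩⟩
    have hJ' : (0 : ℝ) < J := by exact_mod_cast hJ
    have h0 : ∑ j ∈ range J, (F (g ^ j * a) - F 1) = 0 :=
      sum_eq_zero fun j _ => by rw [hconst (g ^ j * a), sub_self]
    rw [h0, norm_zero] at h
    exact absurd (mul_pos hκ hJ') (not_lt.2 h)
  | succ k ih =>
    intro G₁ _ _ _ Γ₁ G₂ _ _ _ Γ₂ M₁ M₂ F hF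
    obtain ⟨g₀, -, -, -, hg₀⟩ := exists_generic2 M₁ M₂ (Nat.succ_pos k)
    refine reduce_charK (M₁.prod M₂) (R2_mono M₁ M₂) ⟨g₀, hg₀⟩ (fun A hA hch => ?_) F hF
    obtain ⟨ξ, hξ⟩ := full_charK (M₁.prod M₂) hA hch
    by_cases h0 : ξ = 0
    · subst h0
      obtain ⟨c, hc⟩ := ih G₁ Γ₁ G₂ Γ₂ M₁.trunc M₂.trunc A (adm_of_char_zeroK (M₁.prod M₂) hA hξ)
      exact ⟨c, hc.imp fun B J g hR h1 h2 => RelW.succ (hR h1 h2)⟩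
    · rcases k with _ | k
      · exact ⟨0, geo_case2 M₁ M₂ hA ξ h0 hξ⟩
      · obtain ⟨w, -, -, -, hw⟩ := exists_generic2 M₁.sq M₂.sq (Nat.succ_pos k)
        exact ⟨0, step_b2' M₁ M₂ (Nat.succ_le_succ (Nat.zero_le k)) hA ξ h0 hξ w hw
          fun A hA => ih (Sq G₁) (SqG Γ₁) (Sq G₂) (SqG Γ₂) M₁.sq M₂.sq A hA⟩

end Pool.Agent.Lib.MP_3e612f_nt.NF
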