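import Pool.Agent.Lib.MP_3e612f_nt.NF.G.PerM
import Pool.Agent.Lib.MP_3e612f_nt.NF.X.Lus
import Pool.Agent.Lib.MP_3e612f_nt.NF.E.Defs

/-! Local uniformity (in the form `GoodR`) of the nil-families over periodic bases; the group need not be connected. -/

set_option autoImplicit false

namespace Pool.Agent.Lib.MP_3e612f_nt.NF

open Finset
open Pool.Agent.Lib.MP_3e612f_nt.MR (mu ex)

/-- local uniformity for all continuous functions on `W × G` which are invariant under `Γ` -/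
def PartP {G : Type} [Group G] [TopologicalSpace G] (Γ : Subgroup G) {W : Type} [TopologicalSpace W] (τ : W → W) (u : W → G) : Prop :=
  ∀ F : W × G → ℂ, Continuous F → (∀ y x, ∀ γ ∈ Γ, F (y, x * γ) = F (y, x)) → ∀ ε : ℝ, 0 < ε → ∃ H₀ : ℕ, ∀ H : ℕ, H₀ ≤ H → ∃ N₀ : ℕ, ∀ N : ℕ, N₀ ≤ N → ∀ p : ℕ → W × G,
    ∑ n ∈ Icc 1 N, ‖∑ h ∈ Icc 1 H, (mu (n + h) : ℂ) * F ((skew τ u)^[h] (p n))‖ ≤ ε * H * N

/-- a factor -/
theorem PartP.of_prod {G G' : Type} [Group G] [TopologicalSpace G] [Group G'] [TopologicalSpace G'] {Γ : Subgroup G} {Γ' : Subgroup G'} {W : Type} [TopologicalSpace W] {τ : W → W} {u : W → G}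
    {u' : W → G'} (h : PartP (Γ.prod Γ') τ (fun w => (u w, u' w))) : PartP Γ τ u := by
  intro F hF hΓ ε hε
  obtain ⟨H₀, h1⟩ := h (fun z => F (z.1, z.2.1)) (hF.comp (continuous_fst.prodMk (continuous_fst.comp continuous_snd)))
    (fun y x γ hγ => hΓ y x.1 γ.1 (Subgroup.mem_prod.1 hγ).1) ε hε
  refine ⟨H₀, fun H hH => ?_⟩
  obtain ⟨N₀, h2⟩ := h1 H hH
  refine ⟨N₀, fun N hN p => ?_⟩
  have h3 := h2 N hN (fun n => ((p n).1, ((p n).2, 1)))
  have hs : Function.Semiconj (fun z : W × (G × G') => ((z.1, z.2.1) : W × G)) (skew τ (fun w => (u w, u' w))) (skew τ u) := fun z => rfl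
  have h4 : ∀ (h : ℕ) (z : W × (G × G')), (((skew τ (fun w => (u w, u' w)))^[h] z).1, ((skew τ (fun w => (u w, u' w)))^[h] z).2.1) = (skew τ u)^[h] (z.1, z.2.1) := by
    intro h z
    exact (hs.iterate_right h) z
  simp only [h4] at h3
  exact h3

theorem goodR_of_part {G : Type} [Group G] [TopologicalSpace G] {Γ : Subgroup G}
    {W : Type} [TopologicalSpace W] (τ : W → W) (u : W → G) (hP : PartP Γ τ u)
    (f : W × (G ⧸ Γ) → ℂ) (hf : Continuous f) (hb : ∃ C : ℝ, 0 < C ∧ ∀ z, ‖f z‖ ≤ C) : GoodR (nilmap (Γ := Γ) τ u) f := by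
  intro ε hε
  have hF' : Continuous fun z : W × G => f (z.1, (z.2 : G ⧸ Γ)) :=
    hf.comp (continuous_fst.prodMk (QuotientGroup.continuous_mk.comp continuous_snd))
  have hFΓ : ∀ (y : W) (x : G), ∀ γ ∈ Γ, f (y, ((x * γ : G) : G ⧸ Γ)) = f (y, (x : G ⧸ Γ)) := by
    intro y x γ hγ
    rw [QuotientGroup.mk_mul_of_mem x hγ]
  obtain ⟨C, hC, hfC⟩ := hb
  obtain ⟨H₀, h1⟩ := hP (fun z : W × G => f (z.1, (z.2 : G ⧸ Γ))) hF' hFΓ (ε / 4) (by positivity)
  refine ⟨max (H₀ + 1) ⌈4 * C / ε⌉₊, fun h hh => ?_⟩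
  have hh1 : H₀ ≤ h - 1 := by
    have := (le_max_left _ _).trans hh
    omega
  have hh2 : 1 ≤ h := by
    have := (le_max_left _ _).trans hh
    omega
  have hh3 : 4 * C / ε ≤ h := (Nat.le_ceil _).trans (by exact_mod_cast (le_max_right _ _).trans hh)
  obtain ⟨N₀, h1⟩ := h1 (h - 1) hh1
  refine ⟨max N₀ ⌈4 * C / ε⌉₊, fun N hN y => ?_⟩
  have hN1 : N₀ ≤ N := (le_max_left _ _).trans hN
  have hN3 : 4 * C / ε ≤ N := (Nat.le_ceil _).trans (by exact_mod_cast (le_max_right _ _).trans hN)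
  rw [div_le_iff₀ hε] at hh3 hN3
  -- lifts
  have hlift : ∃ a : ℕ → G, ∀ n, (y n).2 = (a n : G ⧸ Γ) := by
    choose a ha using fun n => QuotientGroup.mk_surjective (y n).2
    exact ⟨a, fun n => (ha n).symm⟩
  obtain ⟨a, ha⟩ := hlift
  have hy : ∀ n, y n = ((y n).1, (a n : G ⧸ Γ)) := fun n => Prod.ext rfl (ha n)
  have h2 := h1 N hN1 (fun n => ((y n).1, a n))
  have h3 : ∀ x : ℕ, ‖∑ n ∈ range h, PI.mc (x + n) * f ((nilmap (Γ := Γ) τ u)^[n] (y x))‖ ≤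
      C + ‖∑ n ∈ Icc 1 (h - 1), (mu (x + n) : ℂ) * f (((skew τ u)^[n] ((y x).1, a x)).1, (((skew τ u)^[n] ((y x).1, a x)).2 : G ⧸ Γ))‖ := by
    intro x
    obtain ⟨h', rfl⟩ : ∃ h', h = h' + 1 := ⟨h - 1, by omega⟩
    rw [sum_range_succ', Nat.add_sub_cancel, add_comm]
    refine (norm_add_le _ _).trans (add_le_add ?_ (le_of_eq ?_))
    · rw [norm_mul]
      exact (mul_le_of_le_one_left (norm_nonneg _) (LOM.mc_le _)).trans (hfC _)
    · congr 1
      have e1 : Icc 1 h' = Ico 1 (h' + 1) := by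
        ext x
        rw [mem_Icc, mem_Ico]
        omega
      rw [e1, sum_Ico_eq_sum_range, Nat.add_sub_cancel]
      refine sum_congr rfl fun i _ => ?_
      rw [add_comm 1 i]
      have e2 : (nilmap (Γ := Γ) τ u)^[i + 1] (y x) =
          (((skew τ u)^[i + 1] ((y x).1, a x)).1, ((((skew τ u)^[i + 1] ((y x).1, a x)).2 : G) : G ⧸ Γ)) := by
        rw [← nilmap_iter, ← hy]
      rw [e2]
      congr 1
  -- the sum
  have h4 : ∀ x : ℕ, ‖∑ n ∈ range h, PI.mc (x + n) * f ((nilmap (Γ := Γ) τ u)^[n] (y x))‖ ≤ h * C := by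
    intro x
    refine (norm_sum_le _ _).trans ?_
    have h5 : ∀ n ∈ range h, ‖PI.mc (x + n) * f ((nilmap (Γ := Γ) τ u)^[n] (y x))‖ ≤ C := by
      intro n _
      rw [norm_mul]
      exact (mul_le_of_le_one_left (norm_nonneg _) (LOM.mc_le _)).trans (hfC _)
    refine (sum_le_sum h5).trans (le_of_eq ?_)
    rw [sum_const, card_range, nsmul_eq_mul]
  have h5 : ∑ x ∈ range N, ‖∑ n ∈ range h, PI.mc (x + n) * f ((nilmap (Γ := Γ) τ u)^[n] (y x))‖ ≤
      h * C + ∑ x ∈ Icc 1 N, (C + ‖∑ n ∈ Icc 1 (h - 1), (mu (x + n) : ℂ) * f (((skew τ u)^[n] ((y x).1, a x)).1, (((skew τ u)^[n] ((y x).1, a x)).2 : G ⧸ Γ))‖) := by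
    have e1 : range N ⊆ insert 0 (Icc 1 N) := by
      intro x hx
      rw [mem_range] at hx
      rw [mem_insert, mem_Icc]
      omega
    refine (sum_le_sum_of_subset_of_nonneg e1 fun _ _ _ => norm_nonneg _).trans ?_
    rw [sum_insert (by rw [mem_Icc]; omega)]
    exact add_le_add (h4 0) (sum_le_sum fun x _ => h3 x)
  refine h5.trans ?_
  rw [sum_add_distrib, sum_const, Nat.card_Icc, Nat.add_sub_cancel, nsmul_eq_mul]
  have hN0 : (0 : ℝ) ≤ N := Nat.cast_nonneg _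
  have hh0 : (0 : ℝ) ≤ h := Nat.cast_nonneg _
  have h6 : ε / 4 * ((h - 1 : ℕ) : ℝ) * N ≤ ε / 4 * h * N := by
    refine mul_le_mul_of_nonneg_right (mul_le_mul_of_nonneg_left ?_ (by linarith)) hN0
    exact_mod_cast Nat.sub_le h 1
  have h7 : (h : ℝ) * C ≤ ε / 4 * h * N := by
    have := mul_le_mul_of_nonneg_left hN3 hh0
    linarith
  have h8 : (N : ℝ) * C ≤ ε / 4 * h * N := by
    have := mul_le_mul_of_nonneg_left hh3 hN0
    linarith
  have h9 := h2.trans h6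
  have h10 : 0 ≤ ε * h * N := mul_nonneg (mul_nonneg hε.le hh0) hN0
  refine (add_le_add h7 (add_le_add h8 h9)).trans ?_
  linarith

end Pool.Agent.Lib.MP_3e612f_nt.NF
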