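import Pool.Agent.Lib.MP_3e612f_nt.NF.G.MfdDefs
import Pool.Agent.Lib.MP_3e612f_nt.NF.G.LusM

/-! Nilmanifolds with Mal'cev coordinates. -/

set_option autoImplicit false

namespace Pool.Agent.Lib.MP_3e612f_nt.NF

open Finset MeasureTheory
open Pool.Agent.Lib.MP_3e612f_nt.MR (mu ex)

/-- the data `MalK` if `n` is onto -/
def MalZ.malk {G : Type} [Group G] [TopologicalSpace G] {Γ : Subgroup G} {k : ℕ} (N : MalZ G Γ k) (h : ∀ v : ℤ, ∃ γ ∈ Γ, N.n γ = v ∧ N.p 0 γ = 0) : MalK G Γ k Unit where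
  I := N.I
  fin := N.fin
  n := fun x _ => N.n x
  p := N.p
  e := N.e
  n_mul := fun x y => funext fun _ => N.n_mul x y
  p_cont := N.p_cont
  p_mul := N.p_mul
  p_ker := fun i hi x hx hn => N.p_ker i hi x hx (congrFun hn ())
  e_cont := N.e_cont
  e_mem := N.e_mem
  n_e := fun _ t => funext fun _ => N.n_e t
  p_e := N.p_e
  p_int := N.p_int
  int_p := fun i hi z => by
    obtain ⟨γ, h1, h2, h3, h4⟩ := N.int_p i hi z
    exact ⟨γ, h1, h2, funext fun _ => h3, h4⟩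
  int_n := fun ν => by
    obtain ⟨γ, h1, h2, h3⟩ := h (ν ())
    exact ⟨γ, h1, funext fun _ => h2, fun _ => h3⟩

theorem LL_mulZ {i : ℕ} (hi : 1 ≤ i) : LL (Multiplicative ℤ) i = ⊥ := by
  have h1 : LL (Multiplicative ℤ) 1 = ⊥ := by
    have h2 : LL (Multiplicative ℤ) 1 = ⁅(⊤ : Subgroup (Multiplicative ℤ)), (⊤ : Subgroup (Multiplicative ℤ))⁆ := rfl
    rw [h2, Subgroup.commutator_eq_bot_iff_le_centralizer]
    intro x _
    rw [Subgroup.mem_centralizer_iff]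
    intro y _
    exact mul_comm y x
  have h2 : LL (Multiplicative ℤ) i ≤ LL (Multiplicative ℤ) 1 := fun x hx => LL_anti hi hx
  rw [h1] at h2
  exact le_bot_iff.1 h2

theorem mem_LL_Z {G : Type} [Group G] [TopologicalSpace G] (i : ℕ) (x : G × Multiplicative ℤ) : x ∈ LL (G × Multiplicative ℤ) i ↔ x.1 ∈ LL G i ∧ (i = 0 ∨ x.2 = 1) := by
  rw [mem_LL_prodK]
  rcases Nat.eq_zero_or_pos i with h | h
  · subst h
    simp
  · rw [LL_mulZ h, Subgroup.mem_bot]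
    constructor
    · rintro ⟨h1, h2⟩
      exact ⟨h1, Or.inr h2⟩
    · rintro ⟨h1, h2 | h2⟩
      · omega
      · exact ⟨h1, h2⟩

/-- the data `MalK` for `G × ℤ` if `n = 0` -/
def MalZ.malk0 {G : Type} [Group G] [TopologicalSpace G] {Γ : Subgroup G} {k : ℕ} (N : MalZ G Γ k) (h : ∀ x, N.n x = 0) : MalK (G × Multiplicative ℤ) (Γ.prod ⊤) k Unit where
  I := N.I
  fin := N.fin
  n := fun x _ => Multiplicative.toAdd x.2
  p := fun i x => N.p i x.1
  e := fun i t => (N.e i t, 1)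
  n_mul := fun x y => rfl
  p_cont := fun i hi => (N.p_cont i hi).comp continuousOn_fst fun x hx => ((mem_LL_Z i x).1 hx).1
  p_mul := fun i hi x hx y hy => N.p_mul i hi x.1 ((mem_LL_Z i x).1 hx).1 y.1 ((mem_LL_Z i y).1 hy).1
  p_ker := fun i hi x hx hn => by
    rw [mem_LL_Z]
    have h2 : x.2 = 1 := congrFun hn ()
    rw [N.p_ker i hi x.1 ((mem_LL_Z i x).1 hx).1 (h x.1)]
    constructor
    · intro h3
      exact ⟨h3, Or.inr h2⟩
    · intro h3
      exact h3.1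
  e_cont := fun i hi => (N.e_cont i hi).prodMk continuous_const
  e_mem := fun i hi t => (mem_LL_Z i _).2 ⟨N.e_mem i hi t, Or.inr rfl⟩
  n_e := fun _ t => rfl
  p_e := fun i hi t => N.p_e i hi t
  p_int := fun i hi x hx hx' j => N.p_int i hi x.1 (Subgroup.mem_prod.1 hx).1 ((mem_LL_Z i x).1 hx').1 j
  int_p := fun i hi z => by
    obtain ⟨γ, h1, h2, -, h4⟩ := N.int_p i hi z
    exact ⟨(γ, 1), Subgroup.mem_prod.2 ⟨h1, Subgroup.mem_top _⟩, (mem_LL_Z i _).2 ⟨h2, Or.inr rfl⟩, rfl, h4⟩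
  int_n := fun ν => by
    refine ⟨(1, Multiplicative.ofAdd (ν ())), Subgroup.mem_prod.2 ⟨one_mem _, Subgroup.mem_top _⟩, rfl, fun hk => ?_⟩
    have h1 : N.p 0 (1 * 1) = N.p 0 1 + N.p 0 1 := N.p_mul 0 hk 1 (LL_zero 1) 1 (LL_zero 1)
    rw [mul_one] at h1
    exact left_eq_add.1 h1

section
variable {G : Type} [Group G] [TopologicalSpace G] [IsTopologicalGroup G] {Γ : Subgroup G} {k : ℕ} (N : MalZ G Γ k)

theorem MalZ.p0_cont (pos : 1 ≤ k) : Continuous (N.p 0) := by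
  rw [← continuousOn_univ]
  exact (N.p_cont 0 pos).mono fun x _ => LL_zero x

theorem MalZ.nil0 (pos : 1 ≤ k) (nil : LL G k = ⊥) : LL (G × Multiplicative ℤ) k = ⊥ := by
  rw [eq_bot_iff]
  intro x hx
  obtain ⟨h2, h3⟩ := (mem_LL_Z k x).1 hx
  rw [nil, Subgroup.mem_bot] at h2
  rw [Subgroup.mem_bot]
  rcases h3 with h3 | h3
  · omega
  · exact Prod.ext h2 h3

/-- local uniformity for the families over compact spaces -/
theorem MalZ.partP (pos : 1 ≤ k) (nil : LL G k = ⊥) {W : Type} [MetricSpace W] [CompactSpace W] (τ : W → W) (hτ : Continuous τ) (Q : ℕ) (hQ : 1 ≤ Q) (hper : ∀ w, τ^[Q] w = w) (u : W → G) (hu : Continuous u)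
    (hnu : (∀ x, N.n x = 0) ∨ ∀ w, ∑ i ∈ range Q, N.n (u (τ^[i] w)) ≠ 0)
    (hfr : ∀ m : N.I 0 → ℤ, m ≠ 0 → volume {x : ℝ | ∃ w, x = ∑ i ∈ range Q, dot m (N.p 0 (u (τ^[i] w)))} = 0 ∧
      ∀ (w : W) (q : ℚ), ∑ i ∈ range Q, dot m (N.p 0 (u (τ^[i] w))) ≠ q) : PartP Γ τ u := by
  by_cases hn : ∀ x, N.n x = 0
  · have h1 : PartP (Γ.prod (⊤ : Subgroup (Multiplicative ℤ))) τ (fun w => (u w, Multiplicative.ofAdd 1)) := by
      intro F hF hΓ ε hε
      have hnc : Continuous fun x : G × Multiplicative ℤ => (N.malk0 hn).n x () := by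
        have h2 : Continuous (Multiplicative.toAdd : Multiplicative ℤ → ℤ) := continuous_of_discreteTopology
        exact h2.comp continuous_snd
      refine part_perM (N.malk0 hn) hnc pos (MalZ.nil0 pos nil) τ hτ Q hQ hper (fun w => (u w, Multiplicative.ofAdd 1))
        (hu.prodMk continuous_const) ?_ hfr F hF hΓ ε hε
      · intro w
        have h2 : ∑ i ∈ range Q, (N.malk0 hn).n (u (τ^[i] w), Multiplicative.ofAdd 1) () = ∑ i ∈ range Q, (1 : ℤ) := sum_congr rfl fun i _ => rfl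
        rw [h2, sum_const, card_range, nsmul_eq_mul, mul_one]
        have : Q ≠ 0 := by omega
        exact_mod_cast this
    exact h1.of_prod
  · have h1 := N.int_n.resolve_left hn
    have h2 := hnu.resolve_left hn
    intro F hF hΓ ε hε
    exact part_perM (N.malk h1) N.n_cont pos nil τ hτ Q hQ hper u hu h2 hfr F hF hΓ ε hε

/-- a compact fundamental set -/
theorem MalZ.cpt_dom {G : Type} [Group G] [TopologicalSpace G] [IsTopologicalGroup G] {Γ : Subgroup G} {k : ℕ} (N : MalZ G Γ k) (nil : LL G k = ⊥) : ∃ D : Set G, IsCompact D ∧ ∀ x : G, ∃ r ∈ D, ∃ γ ∈ Γ, x = r * γ := by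
  by_cases hn : ∀ x, N.n x = 0
  · obtain ⟨D, hD, hx⟩ := decK (N.malk0 hn)
    refine ⟨Prod.fst '' D, hD.image continuous_fst, fun x => ?_⟩
    obtain ⟨r, hr, h, hh, γ, hγ, hxe, -⟩ := hx (x, 1)
    obtain ⟨h2, -⟩ := (mem_LL_Z k h).1 hh
    rw [nil, Subgroup.mem_bot] at h2
    refine ⟨r.1, ⟨r, hr, rfl⟩, γ.1, (Subgroup.mem_prod.1 hγ).1, ?_⟩
    have h3 := congrArg Prod.fst hxe
    simp only [Prod.fst_mul] at h3
    rw [h2, mul_one] at h3
    exact h3
  · obtain ⟨D, hD, hx⟩ := decK (N.malk (N.int_n.resolve_left hn))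
    refine ⟨D, hD, fun x => ?_⟩
    obtain ⟨r, hr, h, hh, γ, hγ, hxe, -⟩ := hx x
    rw [nil, Subgroup.mem_bot] at hh
    exact ⟨r, hr, γ, hγ, by rw [hxe, hh, mul_one]⟩

end

instance NilMfd.cpt (N : NilMfd) : CompactSpace (N.G ⧸ N.Γ) := by
  obtain ⟨D, hD, hx⟩ := N.M.cpt_dom N.nil
  have h1 : (Set.univ : Set (N.G ⧸ N.Γ)) = (fun x : N.G => (x : N.G ⧸ N.Γ)) '' D := by
    ext z
    simp only [Set.mem_univ, Set.mem_image, true_iff]
    obtain ⟨x, rfl⟩ := QuotientGroup.mk_surjective z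
    obtain ⟨r, hr, γ, hγ, hxe⟩ := hx x
    refine ⟨r, hr, ?_⟩
    rw [hxe]
    exact (QuotientGroup.mk_mul_of_mem r hγ).symm
  exact ⟨by
    rw [h1]
    exact hD.image QuotientGroup.continuous_mk⟩

instance NilMfd.t2q (N : NilMfd) : T2Space (N.G ⧸ N.Γ) := by
  rw [t2Space_iff_of_isOpenQuotientMap QuotientGroup.isOpenQuotientMap_mk]
  have h1 : {q : N.G × N.G | (QuotientGroup.mk q.1 : N.G ⧸ N.Γ) = QuotientGroup.mk q.2} = (fun q : N.G × N.G => q.1⁻¹ * q.2) ⁻¹' (N.Γ : Set N.G) := by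
    ext q
    rw [Set.mem_preimage, Set.mem_ofPred_eq, QuotientGroup.eq]
    rfl
  have h2 : IsClosed {q : N.G × N.G | (QuotientGroup.mk q.1 : N.G ⧸ N.Γ) = QuotientGroup.mk q.2} := by
    rw [h1]
    exact N.closed.preimage (continuous_fst.inv.mul continuous_snd)
  exact h2

instance NilMfd.scq (N : NilMfd) : SecondCountableTopology (N.G ⧸ N.Γ) := inferInstance

end Pool.Agent.Lib.MP_3e612f_nt.NF
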