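import Pool.Agent.Lib.MP_3e612f_nt.NF.Defs

/-! Nilmanifolds with Mal'cev coordinates: definitions. -/

set_option autoImplicit false

namespace Pool.Agent.Lib.MP_3e612f_nt.NF

/-- Mal'cev data of depth `k` for a subgroup `Γ` of a topological group `G` which may have infinitely many components (as `Mal`, for connected groups): `n : G → ℤ` is a continuous homomorphism, either `n = 0` or `Γ` contains for every `v` an element with `n = v`, `p 0 = 0`;
for `i < k`, `p i` is a homomorphism from `LL G i` (lower central series, `LL G 0 = G`, `LL G (i+1) = [LL G i, G]`) onto a power of `ℝ`, continuous, with a continuous section `e i` (`n = 0` on it), the kernel of its restriction to `{n = 0}` is `LL G (i+1)`,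
and `p i` maps `Γ ∩ LL G i`, and also `Γ ∩ LL G i ∩ {n = 0}`, onto the integral vectors. -/
structure MalZ (G : Type) [Group G] [TopologicalSpace G] (Γ : Subgroup G) (k : ℕ) where
  I : ℕ → Type
  fin : ∀ i, Fintype (I i)
  n : G → ℤ
  p : ∀ i, G → I i → ℝ
  e : ∀ i, (I i → ℝ) → G
  n_cont : Continuous n
  n_mul : ∀ x y, n (x * y) = n x + n y
  p_cont : ∀ i < k, ContinuousOn (p i) (LL G i : Set G)
  p_mul : ∀ i < k, ∀ x ∈ LL G i, ∀ y ∈ LL G i, p i (x * y) = p i x + p i y
  p_ker : ∀ i < k, ∀ x ∈ LL G i, n x = 0 → (p i x = 0 ↔ x ∈ LL G (i + 1))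
  e_cont : ∀ i < k, Continuous (e i)
  e_mem : ∀ i < k, ∀ t, e i t ∈ LL G i
  n_e : ∀ t, n (e 0 t) = 0
  p_e : ∀ i < k, ∀ t, p i (e i t) = t
  p_int : ∀ i < k, ∀ x ∈ Γ, x ∈ LL G i → ∀ j, ∃ z : ℤ, p i x j = z
  int_p : ∀ i < k, ∀ z : I i → ℤ, ∃ γ ∈ Γ, γ ∈ LL G i ∧ n γ = 0 ∧ ∀ j, p i γ j = z j
  int_n : (∀ x, n x = 0) ∨ ∀ v : ℤ, ∃ γ ∈ Γ, n γ = v ∧ p 0 γ = 0

attribute [instance] MalZ.fin

/-- A nilmanifold `G/Γ`: `G` a nilpotent (second countable, locally compact, Hausdorff) topological group, `LL G k = 1`, `Γ` a closed subgroup with Mal'cev data. -/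
structure NilMfd where
  G : Type
  [group : Group G]
  [top : TopologicalSpace G]
  [tgroup : IsTopologicalGroup G]
  [t2 : T2Space G]
  [sc : SecondCountableTopology G]
  [lc : LocallyCompactSpace G]
  Γ : Subgroup G
  closed : IsClosed (Γ : Set G)
  k : ℕ
  pos : 1 ≤ k
  nil : LL G k = ⊥
  M : MalZ G Γ k

attribute [instance] NilMfd.group NilMfd.top NilMfd.tgroup NilMfd.t2 NilMfd.sc NilMfd.lc

end Pool.Agent.Lib.MP_3e612f_nt.NF
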