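import Pool.Agent.Lib.MP_3e612f_nt.NF.G.FamN
import Pool.Agent.Lib.MP_3e612f_nt.NF.E.Asm

/-! The families of nilsystems as objects of type `Famc`. -/

set_option autoImplicit false

namespace Pool.Agent.Lib.MP_3e612f_nt.NF

open Finset MeasureTheory Filter Topology

/-- A null set, without its rational elements, is contained in a null `G_δ` without rational elements. -/
theorem null_gdelta (E : Set ℝ) (hE : volume E = 0) : ∃ V : ℕ → Set ℝ, (∀ l, IsOpen (V l)) ∧ volume (⋂ l, V l) = 0 ∧ (∀ r : ℚ, (r : ℝ) ∉ ⋂ l, V l) ∧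
    ∀ x ∈ E, (∀ r : ℚ, x ≠ r) → x ∈ ⋂ l, V l := by
  have h1 : ∀ n : ℕ, ∃ U : Set ℝ, E ⊆ U ∧ IsOpen U ∧ volume U < ENNReal.ofReal (1 / ((n : ℝ) + 1)) := by
    intro n
    refine Set.exists_isOpen_lt_of_lt E _ ?_
    rw [hE, ENNReal.ofReal_pos]
    positivity
  choose U hU1 hU2 hU3 using h1
  obtain ⟨a, ha⟩ := exists_surjective_nat ℚ
  refine ⟨fun l => U l ∩ {((a l : ℚ) : ℝ)}ᶜ, fun l => (hU2 l).inter isClosed_singleton.isOpen_compl, ?_, ?_, ?_⟩
  · have h2 : ∀ n : ℕ, volume (⋂ l, U l ∩ {((a l : ℚ) : ℝ)}ᶜ) ≤ ENNReal.ofReal (1 / ((n : ℝ) + 1)) := by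
      intro n
      refine (measure_mono ?_).trans (hU3 n).le
      exact (Set.iInter_subset _ n).trans Set.inter_subset_left
    have h3 : Tendsto (fun n : ℕ => ENNReal.ofReal (1 / ((n : ℝ) + 1))) atTop (𝓝 0) := by
      rw [← ENNReal.ofReal_zero]
      exact ENNReal.tendsto_ofReal tendsto_one_div_add_atTop_nhds_zero_nat
    exact le_antisymm (ge_of_tendsto' h3 h2) bot_le
  · intro r hr
    obtain ⟨l, hl⟩ := ha r
    have h2 := (Set.mem_iInter.1 hr l).2
    rw [hl] at h2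
    exact h2 rfl
  · intro x hx hr
    exact Set.mem_iInter.2 fun l => ⟨hU1 l hx, hr (a l)⟩

theorem NilMfd.exists_famc (N : NilMfd) (q : ℕ) (V : ℕ → Set ℝ) (hV : ∀ l, IsOpen (V l)) (h0 : volume (⋂ l, V l) = 0) (hr : ∀ r : ℚ, (r : ℝ) ∉ ⋂ l, V l)
    (f : C(Fin (q + 1) × (N.G ⧸ N.Γ), ℂ)) : ∃ 𝓕 : Famc, ∀ (Y : Type) (_ : MeasurableSpace Y) (S : Y → Y) (ν : Measure Y) (g : Y → ℂ) (ε : ℝ) (u : Fin (q + 1) → N.G), N.FrIn u (⋂ l, V l) →
      (∃ (_ : MeasurableSpace (Fin (q + 1) × (N.G ⧸ N.Γ))) (_ : BorelSpace (Fin (q + 1) × (N.G ⧸ N.Γ))) (lam : Measure ((Fin (q + 1) × (N.G ⧸ N.Γ)) × Y)), JoinLe (N.sys u) S ν g f ε lam) →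
      ∃ z ∈ ⋂ j, 𝓕.GG j, ∃ lam : Measure (𝓕.X × Y), JoinLe (𝓕.Φ z) S ν g 𝓕.f ε lam := by
  have hmG : TopologicalSpace.MetrizableSpace N.G := TopologicalSpace.metrizableSpace_of_t3_secondCountable N.G
  have hmQ : TopologicalSpace.MetrizableSpace (N.G ⧸ N.Γ) := TopologicalSpace.metrizableSpace_of_t3_secondCountable _
  have hmX : TopologicalSpace.MetrizableSpace (Fin (q + 1) × (N.G ⧸ N.Γ)) := inferInstance
  have hmZ : TopologicalSpace.MetrizableSpace (Fin (q + 1) → N.G) := inferInstance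
  have hcX : CompactSpace (Fin (q + 1) × (N.G ⧸ N.Γ)) := inferInstance
  have hcZ : SigmaCompactSpace (Fin (q + 1) → N.G) := inferInstance
  obtain ⟨a, ha⟩ := exists_surjective_nat (Option ((N.M.I 0 → ℤ) × ℕ))
  -- the sum of the frequencies
  have hsum : ∀ m : N.M.I 0 → ℤ, Continuous fun u : Fin (q + 1) → N.G => ∑ j, dot m (N.M.p 0 (u j)) := by
    intro m
    refine continuous_finsetSum _ fun j _ => ?_
    unfold dot
    refine continuous_finsetSum _ fun i _ => continuous_const.mul ?_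
    exact (continuous_apply i).comp ((N.M.p0_cont N.pos).comp (continuous_apply j))
  have hsn : Continuous fun u : Fin (q + 1) → N.G => ∑ j, N.M.n (u j) :=
    continuous_finsetSum _ fun j _ => N.M.n_cont.comp (continuous_apply j)
  -- the open sets
  obtain ⟨O, hO⟩ : ∃ O : Option ((N.M.I 0 → ℤ) × ℕ) → Set (Fin (q + 1) → N.G), O = fun o => o.elim {u | (∀ x, N.M.n x = 0) ∨ ∑ j, N.M.n (u j) ≠ 0}
      (fun ml => {u | ml.1 = 0 ∨ ∑ j, dot ml.1 (N.M.p 0 (u j)) ∈ V ml.2}) := ⟨_, rfl⟩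
  have hOo : ∀ o, IsOpen (O o) := by
    intro o
    rw [hO]
    rcases o with _ | ⟨m, l⟩
    · show IsOpen {u : Fin (q + 1) → N.G | (∀ x, N.M.n x = 0) ∨ ∑ j, N.M.n (u j) ≠ 0}
      by_cases hn : ∀ x, N.M.n x = 0
      · have h1 : {u : Fin (q + 1) → N.G | (∀ x, N.M.n x = 0) ∨ ∑ j, N.M.n (u j) ≠ 0} = Set.univ := by
          ext u
          simp [hn]
        rw [h1]
        exact isOpen_univ
      · have h1 : {u : Fin (q + 1) → N.G | (∀ x, N.M.n x = 0) ∨ ∑ j, N.M.n (u j) ≠ 0} = (fun u : Fin (q + 1) → N.G => ∑ j, N.M.n (u j)) ⁻¹' {0}ᶜ := by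
          ext u
          simp [hn]
        rw [h1]
        exact (isClosed_singleton.isOpen_compl).preimage hsn
    · show IsOpen {u : Fin (q + 1) → N.G | m = 0 ∨ ∑ j, dot m (N.M.p 0 (u j)) ∈ V l}
      by_cases hm : m = 0
      · have h1 : {u : Fin (q + 1) → N.G | m = 0 ∨ ∑ j, dot m (N.M.p 0 (u j)) ∈ V l} = Set.univ := by
          ext u
          simp [hm]
        rw [h1]
        exact isOpen_univ
      · have h1 : {u : Fin (q + 1) → N.G | m = 0 ∨ ∑ j, dot m (N.M.p 0 (u j)) ∈ V l} = (fun u : Fin (q + 1) → N.G => ∑ j, dot m (N.M.p 0 (u j))) ⁻¹' (V l) := by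
          ext u
          simp [hm]
        rw [h1]
        exact (hV l).preimage (hsum m)
  have hOi : ∀ u, u ∈ ⋂ j, O (a j) ↔ N.FrIn u (⋂ l, V l) := by
    intro u
    rw [Set.mem_iInter]
    constructor
    · intro h
      have h1 : ∀ o, u ∈ O o := by
        intro o
        obtain ⟨j, hj⟩ := ha o
        rw [← hj]
        exact h j
      rw [hO] at h1
      refine ⟨h1 none, fun m hm => ?_⟩
      have h2 : ∑ j, dot m (N.M.p 0 (u j)) ∈ ⋂ l, V l := by
        refine Set.mem_iInter.2 fun l => ?_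
        exact Or.resolve_left (h1 (some (m, l))) hm
      refine ⟨h2, fun r hr' => ?_⟩
      rw [hr'] at h2
      exact hr r h2
    · rintro ⟨h1, h2⟩ j
      rw [hO]
      rcases a j with _ | ⟨m, l⟩
      · exact h1
      · by_cases hm : m = 0
        · exact Or.inl hm
        · exact Or.inr (Set.mem_iInter.1 (h2 m hm).1 l)
  have hΦ : Continuous fun w : (Fin (q + 1) → N.G) × (Fin (q + 1) × (N.G ⧸ N.Γ)) => N.sys w.1 w.2 := by
    have h1c : Continuous (fun i : Fin (q + 1) => i + 1) := continuous_of_discreteTopology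
    have hev : Continuous (fun w : (Fin (q + 1) → N.G) × Fin (q + 1) => w.1 w.2) := by
      rw [continuous_prod_of_discrete_right]
      intro j
      exact continuous_apply j
    refine (h1c.comp (continuous_fst.comp continuous_snd)).prodMk ?_
    exact (hev.comp (continuous_fst.prodMk (continuous_fst.comp continuous_snd))).smul (continuous_snd.comp continuous_snd)
  have hgood : ∀ U : Set (Fin (q + 1) → N.G), IsCompact U → U ⊆ ⋂ j, O (a j) → GoodR (fam (fun u z => N.sys u z) U) (fun w => f w.2) :=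
    fun U hU hUO => N.good_fam q (⋂ l, V l) h0 U hU (fun u hu => (hOi u).1 (hUO hu)) f f.continuous
  let msX : MeasurableSpace (Fin (q + 1) × (N.G ⧸ N.Γ)) := borel _
  have bsX : BorelSpace (Fin (q + 1) × (N.G ⧸ N.Γ)) := ⟨rfl⟩
  let msZ : MeasurableSpace (Fin (q + 1) → N.G) := borel _
  have bsZ : BorelSpace (Fin (q + 1) → N.G) := ⟨rfl⟩
  refine ⟨{ X := Fin (q + 1) × (N.G ⧸ N.Γ)
            Z := Fin (q + 1) → N.G
            mX := TopologicalSpace.metrizableSpaceMetric _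
            cX := hcX
            sX := msX
            bX := bsX
            mZ := TopologicalSpace.metrizableSpaceMetric _
            cZ := hcZ
            sZ := msZ
            bZ := bsZ
            Φ := fun u z => N.sys u z
            cont := hΦ
            GG := fun j => O (a j)
            isOpen := fun j => hOo (a j)
            f := f
            hf := f.continuous
            good := hgood }, ?_⟩
  rintro Y _ S ν g ε u hu ⟨m, hb, lam, hlam⟩
  obtain rfl : m = borel _ := hb.measurable_eq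
  exact ⟨u, (hOi u).2 hu, lam, hlam⟩

end Pool.Agent.Lib.MP_3e612f_nt.NF
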