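import Pool.Agent.Lib.MP_3e612f_nt.NF.G.NilC

/-! The main theorem: systems whose ergodic measures are modelled by nilsystems with frequencies in a null set. -/

set_option autoImplicit false

namespace Pool.Agent.Lib.MP_3e612f_nt.NF

open Finset MeasureTheory Filter Topology ProbabilityTheory
open Pool.Agent.Lib.MP_3e612f_nt.PI (mc)

/-- The measure `ν` is modelled, for `g`, by nilsystems on the nilmanifolds `𝒩 i` with finitely many pieces, with all frequencies in `E` and irrational. -/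
def NilE {Y : Type} [MeasurableSpace Y] (S : Y → Y) (g : Y → ℂ) (𝒩 : ℕ → NilMfd) (E : Set ℝ) (ν : Measure Y) : Prop :=
  ∀ ε : ℝ, 0 < ε → ∃ (i q : ℕ) (u : Fin (q + 1) → (𝒩 i).G), (𝒩 i).FrIn u E ∧
    ∃ (_ : MeasurableSpace (Fin (q + 1) × ((𝒩 i).G ⧸ (𝒩 i).Γ))) (_ : BorelSpace (Fin (q + 1) × ((𝒩 i).G ⧸ (𝒩 i).Γ)))
      (f : Fin (q + 1) × ((𝒩 i).G ⧸ (𝒩 i).Γ) → ℂ) (lam : Measure ((Fin (q + 1) × ((𝒩 i).G ⧸ (𝒩 i).Γ)) × Y)),
      Continuous f ∧ JoinLe ((𝒩 i).sys u) S ν g f ε lam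

/-- a uniformly close function on the model -/
theorem joinLe_close {E Y : Type} [TopologicalSpace E] [CompactSpace E] [MeasurableSpace E] [BorelSpace E] [MetricSpace Y] [CompactSpace Y] [MeasurableSpace Y] [BorelSpace Y]
    (T : E → E) (S : Y → Y) (ν : Measure Y) (g : Y → ℂ) (hg : Continuous g) (f f' : E → ℂ) (hf : Continuous f) (hf' : Continuous f') (ε δ : ℝ) (h : ∀ x, ‖f x - f' x‖ ≤ δ)
    (lam : Measure (E × Y)) (hl : JoinLe T S ν g f ε lam) : JoinLe T S ν g f' (ε + δ) lam := by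
  obtain ⟨h1, h2, h3, h4⟩ := hl
  refine ⟨h1, h2, h3, ?_⟩
  have hi : ∀ f : E → ℂ, Continuous f → Integrable (fun p : E × Y => ‖g p.2 - f p.1‖) lam := by
    intro f hf
    have hm : Measurable (fun p : E × Y => g p.2 - f p.1) := (hg.measurable.comp measurable_snd).sub (hf.measurable.comp measurable_fst)
    obtain ⟨C, hC⟩ := (isCompact_univ (X := E)).exists_bound_of_continuousOn hf.continuousOn
    obtain ⟨D, hD⟩ := (isCompact_univ (X := Y)).exists_bound_of_continuousOn hg.continuousOn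
    refine (Integrable.of_bound hm.aestronglyMeasurable (D + C) (Eventually.of_forall fun p => ?_)).norm
    exact (norm_sub_le _ _).trans (add_le_add (hD _ (Set.mem_univ _)) (hC _ (Set.mem_univ _)))
  have h5 : ∫ p, ‖g p.2 - f' p.1‖ ∂lam ≤ ∫ p, (‖g p.2 - f p.1‖ + δ) ∂lam := by
    refine integral_mono (hi f' hf') ((hi f hf).add (integrable_const δ)) fun p => ?_
    have h6 : g p.2 - f' p.1 = (g p.2 - f p.1) + (f p.1 - f' p.1) := by ring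
    show ‖g p.2 - f' p.1‖ ≤ ‖g p.2 - f p.1‖ + δ
    rw [h6]
    exact (norm_add_le _ _).trans (add_le_add le_rfl (h p.1))
  rw [integral_add (hi f hf) (integrable_const δ), integral_const, probReal_univ, one_smul] at h5
  exact h5.trans (add_le_add h4 le_rfl)

theorem nil_erg {Y : Type} [MetricSpace Y] [CompactSpace Y] [MeasurableSpace Y] [BorelSpace Y] (S : Y → Y) (hS : Continuous S) (g : Y → ℂ) (hg : Continuous g) (F : Set (ℕ → Y))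
    (H : ∀ (ν : Measure Y) (_ : IsProbabilityMeasure ν), LOM.DLim S F ν → ∃ (𝒩 : ℕ → NilMfd) (E : Set ℝ), volume E = 0 ∧
      ∀ᵐ y ∂ν, Ergodic S (condExpKernel ν (MeasurableSpace.invariants S) y) → NilE S g 𝒩 E (condExpKernel ν (MeasurableSpace.invariants S) y)) :
    ∀ ε : ℝ, 0 < ε → ∃ h₀ : ℕ, ∀ h ≥ h₀, ∃ N₀ : ℕ, ∀ N ≥ N₀, ∀ y ∈ F,
      ∑ x ∈ range N, ‖∑ n ∈ range h, mc (x + n) * g (S^[n] (y x))‖ ≤ ε * h * N := by
  refine unif_modl S hS g hg F fun ν hν hD ε hε => ?_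
  have hinv := dlim_mp S hS F ν hD
  obtain ⟨𝒩, E, hE, hN⟩ := H ν hν hD
  obtain ⟨V, hV, hV0, hVr, hVE⟩ := null_gdelta E hE
  -- the families
  have hfam : ∀ b : ℕ × ℕ × ℕ, ∃ 𝓕 : Famc, ∀ (Y : Type) (_ : MeasurableSpace Y) (S : Y → Y) (ν : Measure Y) (g : Y → ℂ) (ε : ℝ) (u : Fin (b.2.1 + 1) → (𝒩 b.1).G),
      (𝒩 b.1).FrIn u (⋂ l, V l) → (∃ (_ : MeasurableSpace (Fin (b.2.1 + 1) × ((𝒩 b.1).G ⧸ (𝒩 b.1).Γ))) (_ : BorelSpace (Fin (b.2.1 + 1) × ((𝒩 b.1).G ⧸ (𝒩 b.1).Γ)))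
        (lam : Measure ((Fin (b.2.1 + 1) × ((𝒩 b.1).G ⧸ (𝒩 b.1).Γ)) × Y)), JoinLe ((𝒩 b.1).sys u) S ν g
          (TopologicalSpace.denseSeq C(Fin (b.2.1 + 1) × ((𝒩 b.1).G ⧸ (𝒩 b.1).Γ), ℂ) b.2.2) ε lam) →
      ∃ z ∈ ⋂ j, 𝓕.GG j, ∃ lam : Measure (𝓕.X × Y), JoinLe (𝓕.Φ z) S ν g 𝓕.f ε lam :=
    fun b => (𝒩 b.1).exists_famc b.2.1 V hV hV0 hVr _
  choose 𝓕 h𝓕 using hfam
  obtain ⟨b, hb⟩ := exists_surjective_nat (ℕ × ℕ × ℕ)
  have hmain := erg_modl S hS g hg (fun j => 𝓕 (b j)) (ε / 2) (by positivity) ν hinv (by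
    filter_upwards [erg_dec S hS ν hinv, hN] with y hy1 hy2
    obtain ⟨i, q, u, hu, m, hbm, f, lam, hf, hlam⟩ := hy2 hy1 (ε / 4) (by positivity)
    have hu' : (𝒩 i).FrIn u (⋂ l, V l) := ⟨hu.1, fun m hm => ⟨hVE _ (hu.2 m hm).1 (hu.2 m hm).2, (hu.2 m hm).2⟩⟩
    obtain ⟨l, hl⟩ : ∃ l, dist (⟨f, hf⟩ : C(Fin (q + 1) × ((𝒩 i).G ⧸ (𝒩 i).Γ), ℂ)) (TopologicalSpace.denseSeq C(Fin (q + 1) × ((𝒩 i).G ⧸ (𝒩 i).Γ), ℂ) l) < ε / 4 :=
      (TopologicalSpace.denseRange_denseSeq C(Fin (q + 1) × ((𝒩 i).G ⧸ (𝒩 i).Γ), ℂ)).exists_dist_lt _ (by positivity)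
    have hl' : ∀ x, ‖f x - (TopologicalSpace.denseSeq C(Fin (q + 1) × ((𝒩 i).G ⧸ (𝒩 i).Γ), ℂ) l) x‖ ≤ ε / 4 := by
      intro x
      have h1 := ContinuousMap.dist_apply_le_dist (f := (⟨f, hf⟩ : C(Fin (q + 1) × ((𝒩 i).G ⧸ (𝒩 i).Γ), ℂ))) (g := TopologicalSpace.denseSeq C(Fin (q + 1) × ((𝒩 i).G ⧸ (𝒩 i).Γ), ℂ) l) x
      rw [dist_eq_norm] at h1
      exact h1.trans hl.le
    have h2 := joinLe_close ((𝒩 i).sys u) S (condExpKernel ν (MeasurableSpace.invariants S) y) g hg f _ hf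
      (TopologicalSpace.denseSeq C(Fin (q + 1) × ((𝒩 i).G ⧸ (𝒩 i).Γ), ℂ) l).continuous (ε / 4) (ε / 4) hl' lam hlam
    have h3 : ε / 4 + ε / 4 = ε / 2 := by ring
    rw [h3] at h2
    obtain ⟨c, hc⟩ := hb (i, q, l)
    obtain ⟨z, hz, lam', hlam'⟩ := h𝓕 (i, q, l) Y inferInstance S (condExpKernel ν (MeasurableSpace.invariants S) y) g (ε / 2) u hu' ⟨m, hbm, lam, h2⟩
    refine ⟨c, ?_⟩
    show ∃ z ∈ ⋂ j, (𝓕 (b c)).GG j, ∃ lam : Measure ((𝓕 (b c)).X × Y), JoinLe ((𝓕 (b c)).Φ z) S _ g (𝓕 (b c)).f (ε / 2) lam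
    rw [hc]
    exact ⟨z, hz, lam', hlam'⟩)
  have h3 : 2 * (ε / 2) = ε := by ring
  rw [h3] at hmain
  exact hmain

end Pool.Agent.Lib.MP_3e612f_nt.NF
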