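import Pool.Agent.Lib.MP_3e612f_nt.NF.G.Mfd
import Pool.Agent.Lib.MP_3e612f_nt.NF.X.NilFull

/-! Sets of nilrotations with null frequency sets, all lengths `H₀ ≤ H ≤ N`; the group need not be connected. -/

set_option autoImplicit false

namespace Pool.Agent.Lib.MP_3e612f_nt.NF

open Finset
open Pool.Agent.Lib.MP_3e612f_nt.MR (mu ex)

/-- one residue class modulo 1 -/
theorem part_oneM {G : Type} [Group G] [TopologicalSpace G] [IsTopologicalGroup G] {Γ : Subgroup G} {k : ℕ} (M : MalK G Γ k Unit) (hk : LL G k = ⊥) (F : G → ℂ)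
    (hF : Continuous F) (hΓ : ∀ x, ∀ γ ∈ Γ, F (x * γ) = F x) (V : ℕ) (ε : ℝ) (hε : 0 < ε) : ∃ B : ℕ, ∀ S : Set G,
      (∀ g ∈ S, M.n g () ≠ 0 ∧ |M.n g ()| ≤ V) →
      (∀ m : M.I 0 → ℤ, m ≠ 0 → (∀ i, |m i| ≤ B) → Small 0 (Fr {x | ∃ g ∈ S, x = dot m (M.p 0 g)})) →
      ∃ H₀ : ℕ, ∀ H : ℕ, H₀ ≤ H → ∃ N₀ : ℕ, ∀ N : ℕ, N₀ ≤ N → ∀ g a : ℕ → G, (∀ n, g n ∈ S) →
        ∑ n ∈ Icc 1 N, ‖∑ h ∈ Icc 1 H, (mu (n + h) : ℂ) * F (g n ^ h * a n)‖ ≤ ε * H * N := by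
  obtain ⟨B, hB⟩ := part_apM M hk F hF hΓ 1 le_rfl V ε hε
  refine ⟨B, fun S h1 h2 => ?_⟩
  obtain ⟨H₀, h3⟩ := hB S h1 h2
  refine ⟨H₀, fun H hH => ?_⟩
  obtain ⟨N₀, h4⟩ := h3 H hH
  refine ⟨N₀, fun N hN g a hg => ?_⟩
  refine le_trans (le_of_eq ?_) (h4 N hN g a (fun _ => 0) hg)
  refine sum_congr rfl fun n _ => ?_
  congr 1
  refine sum_congr rfl fun h _ => ?_
  rw [Nat.mod_one, if_pos rfl, Nat.div_one]

theorem MalZ.part_one {G : Type} [Group G] [TopologicalSpace G] [IsTopologicalGroup G] {Γ : Subgroup G} {k : ℕ} (N : MalZ G Γ k) (pos : 1 ≤ k) (nil : LL G k = ⊥) (F : G → ℂ) (hF : Continuous F) (hΓ : ∀ x, ∀ γ ∈ Γ, F (x * γ) = F x) (V : ℕ) (ε : ℝ) (hε : 0 < ε) : ∃ B : ℕ, ∀ S : Set G,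
      ((∀ x, N.n x = 0) ∨ ∀ g ∈ S, N.n g ≠ 0 ∧ |N.n g| ≤ V) →
      (∀ m : N.I 0 → ℤ, m ≠ 0 → (∀ i, |m i| ≤ B) → Small 0 (Fr {x | ∃ g ∈ S, x = dot m (N.p 0 g)})) →
      ∃ H₀ : ℕ, ∀ H : ℕ, H₀ ≤ H → ∃ N₀ : ℕ, ∀ N' : ℕ, N₀ ≤ N' → ∀ g a : ℕ → G, (∀ n, g n ∈ S) →
        ∑ n ∈ Icc 1 N', ‖∑ h ∈ Icc 1 H, (mu (n + h) : ℂ) * F (g n ^ h * a n)‖ ≤ ε * H * N' := by
  by_cases hn : ∀ x, N.n x = 0
  · have hb : LL (G × Multiplicative ℤ) k = ⊥ := MalZ.nil0 pos nil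
    obtain ⟨B, hB⟩ := part_oneM (N.malk0 hn) hb (fun x => F x.1) (hF.comp continuous_fst) (fun x γ hγ => hΓ x.1 γ.1 (Subgroup.mem_prod.1 hγ).1) 1 ε hε
    refine ⟨B, fun S _ h2 => ?_⟩
    obtain ⟨H₀, h3⟩ := hB {x | x.1 ∈ S ∧ x.2 = Multiplicative.ofAdd 1} (by
      rintro ⟨g, z⟩ ⟨-, hz⟩
      have hz' : z = Multiplicative.ofAdd 1 := hz
      subst hz'
      show (1 : ℤ) ≠ 0 ∧ |(1 : ℤ)| ≤ ((1 : ℕ) : ℤ)
      simp) (by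
      intro m hm hmB
      have h4 : {x : ℝ | ∃ g ∈ {x : G × Multiplicative ℤ | x.1 ∈ S ∧ x.2 = Multiplicative.ofAdd 1}, x = dot m ((N.malk0 hn).p 0 g)} = {x | ∃ g ∈ S, x = dot m (N.p 0 g)} := by
        ext x
        constructor
        · rintro ⟨g, hg, hx⟩
          exact ⟨g.1, hg.1, hx⟩
        · rintro ⟨g, hg, hx⟩
          exact ⟨(g, Multiplicative.ofAdd 1), ⟨hg, rfl⟩, hx⟩
      rw [h4]
      exact h2 m hm hmB)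
    refine ⟨H₀, fun H hH => ?_⟩
    obtain ⟨N₀, h4⟩ := h3 H hH
    refine ⟨N₀, fun N' hN g a hg => ?_⟩
    refine le_trans (le_of_eq ?_) (h4 N' hN (fun n => (g n, Multiplicative.ofAdd 1)) (fun n => (a n, 1)) (fun n => ⟨hg n, rfl⟩))
    refine sum_congr rfl fun n _ => ?_
    congr 1
  · obtain ⟨B, hB⟩ := part_oneM (N.malk (N.int_n.resolve_left hn)) nil F hF hΓ V ε hε
    exact ⟨B, fun S h1 h2 => hB S (h1.resolve_left hn) h2⟩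

/-- all lengths `H₀ ≤ H ≤ N` -/
theorem MalZ.part_full {G : Type} [Group G] [TopologicalSpace G] [IsTopologicalGroup G] {Γ : Subgroup G} {k : ℕ} (N : MalZ G Γ k) (pos : 1 ≤ k) (nil : LL G k = ⊥) (F : G → ℂ) (hF : Continuous F) (hΓ : ∀ x, ∀ γ ∈ Γ, F (x * γ) = F x) (V : ℕ) (ε : ℝ) (hε : 0 < ε) : ∃ B : ℕ, ∀ S : Set G,
      ((∀ x, N.n x = 0) ∨ ∀ g ∈ S, N.n g ≠ 0 ∧ |N.n g| ≤ V) →
      (∀ m : N.I 0 → ℤ, m ≠ 0 → (∀ i, |m i| ≤ B) → Small 0 (Fr {x | ∃ g ∈ S, x = dot m (N.p 0 g)})) →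
      ∃ H₀ : ℕ, ∀ H N' : ℕ, H₀ ≤ H → H ≤ N' → ∀ g a : ℕ → G, (∀ n, g n ∈ S) →
        ∑ n ∈ Icc 1 N', ‖∑ h ∈ Icc 1 H, (mu (n + h) : ℂ) * F (g n ^ h * a n)‖ ≤ ε * H * N' := by
  obtain ⟨D, hD, hdec⟩ := N.cpt_dom nil
  obtain ⟨L, hL, hbd⟩ : ∃ L : ℝ, 0 < L ∧ ∀ x, ‖F x‖ ≤ L := by
    obtain ⟨C, hC⟩ := hD.exists_bound_of_continuousOn hF.continuousOn
    refine ⟨max C 1, lt_of_lt_of_le one_pos (le_max_right _ _), fun x => ?_⟩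
    obtain ⟨r, hr, γ, hγ, rfl⟩ := hdec x
    rw [hΓ r γ hγ]
    exact (hC r hr).trans (le_max_left _ _)
  obtain ⟨B, hB⟩ := N.part_one pos nil F hF hΓ V (ε / 4) (by positivity)
  refine ⟨B, fun S hn hS => ?_⟩
  obtain ⟨H₀, h1⟩ := hB S hn hS
  have hLn : ‖(L : ℂ)‖ = L := by rw [Complex.norm_real, Real.norm_of_nonneg hL.le]
  have hdiv : ∀ (n H : ℕ) (g a : G), ‖∑ h ∈ Icc 1 H, (mu (n + h) : ℂ) * (F (g ^ h * a) / (L : ℂ))‖ =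
      ‖∑ h ∈ Icc 1 H, (mu (n + h) : ℂ) * F (g ^ h * a)‖ / L := by
    intro n H g a
    nth_rewrite 2 [← hLn]
    rw [← norm_div, sum_div]
    congr 1
    exact sum_congr rfl fun h _ => by rw [mul_div_assoc]
  obtain ⟨H₁, h2⟩ := full_range (fun n => (mu n : ℂ)) fr_mu_le (Θ := {g : G // g ∈ S} × G)
    (fun θ h => F ((θ.1 : G) ^ h * θ.2) / (L : ℂ))
    (fun θ h => by
      rw [norm_div, hLn, div_le_one hL]
      exact hbd _)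
    (fun j θ => (θ.1, (θ.1 : G) ^ j * θ.2))
    (fun j θ h => by
      simp only
      rw [← mul_assoc, ← pow_add, add_comm h j])
    (ε / L) (by positivity)
    ⟨H₀, fun H hH => by
      obtain ⟨N₀, h3⟩ := h1 H hH
      refine ⟨N₀, fun N' hN θ => ?_⟩
      have h4 := h3 N' hN (fun n => ((θ n).1 : G)) (fun n => (θ n).2) (fun n => (θ n).1.2)
      rw [sum_congr rfl (fun n _ => hdiv n H ((θ n).1 : G) (θ n).2), ← sum_div, div_le_iff₀ hL]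
      refine h4.trans (le_of_eq ?_)
      field_simp⟩
  refine ⟨H₁, fun H N' hH hN g a hg => ?_⟩
  have h5 := h2 H N' hH hN (fun n => (⟨g n, hg n⟩, a n))
  simp only at h5
  rw [sum_congr rfl (fun n _ => hdiv n H (g n) (a n)), ← sum_div, div_le_iff₀ hL] at h5
  refine h5.trans (le_of_eq ?_)
  field_simp

end Pool.Agent.Lib.MP_3e612f_nt.NF
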