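import Pool.Agent.Lib.MP_3e612f_nt.NF.G.Om

/-! The commutator form in coordinates, one discrete direction. -/

set_option autoImplicit false

namespace Pool.Agent.Lib.MP_3e612f_nt.NF

open Finset
open scoped commutatorElement

section
variable {G : Type} [Group G] [TopologicalSpace G] [IsTopologicalGroup G] {Γ : Subgroup G} {k : ℕ} {κ : Type} (M : MalK G Γ k κ)

/-- the form on the coordinate space -/
noncomputable def omFormK (s t : M.I 0 → ℝ) : M.I 1 → ℝ := M.p 1 ⁅M.e 0 s, M.e 0 t⁆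

theorem omFormK_add_left (hk : 2 ≤ k) (s s' t : M.I 0 → ℝ) :
    omFormK M (s + s') t = omFormK M s t + omFormK M s' t := by
  unfold omFormK
  rw [← p1_comm_mul_leftK M hk]
  apply p1_comm_congrK M hk _ rfl _ rfl
  · rw [M.p0_mul (by omega), M.p_e 0 (by omega), M.p_e 0 (by omega), M.p_e 0 (by omega)]
  · rw [M.n_mul, M.n_e (by omega), M.n_e (by omega), M.n_e (by omega), add_zero]

theorem omFormK_add_right (hk : 2 ≤ k) (s t t' : M.I 0 → ℝ) :
    omFormK M s (t + t') = omFormK M s t + omFormK M s t' := by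
  unfold omFormK
  rw [← p1_comm_mul_rightK M hk]
  apply p1_comm_congrK M hk rfl _ rfl
  · rw [M.n_mul, M.n_e (by omega), M.n_e (by omega), M.n_e (by omega), add_zero]
  · rw [M.p0_mul (by omega), M.p_e 0 (by omega), M.p_e 0 (by omega), M.p_e 0 (by omega)]

theorem omFormK_cont (hk : 2 ≤ k) : Continuous (fun z : (M.I 0 → ℝ) × (M.I 0 → ℝ) => omFormK M z.1 z.2) := by
  have h1 : Continuous (fun z : (M.I 0 → ℝ) × (M.I 0 → ℝ) => ⁅M.e 0 z.1, M.e 0 z.2⁆) := by
    have h2 : Continuous (fun z : (M.I 0 → ℝ) × (M.I 0 → ℝ) => M.e 0 z.1) :=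
      (M.e_cont 0 (by omega)).comp continuous_fst
    have h3 : Continuous (fun z : (M.I 0 → ℝ) × (M.I 0 → ℝ) => M.e 0 z.2) :=
      (M.e_cont 0 (by omega)).comp continuous_snd
    simp only [commutatorElement_def]
    exact ((h2.mul h3).mul h2.inv).mul h3.inv
  exact (M.p_cont 1 (by omega)).comp_continuous h1 fun z => LL_comm (LL_zero _) _

theorem omFormK_smul_left (hk : 2 ≤ k) (c : ℝ) (s t : M.I 0 → ℝ) :
    omFormK M (c • s) t = c • omFormK M s t := by
  let f : (M.I 0 → ℝ) →+ (M.I 1 → ℝ) :=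
    AddMonoidHom.mk' (fun s => omFormK M s t) fun a b => omFormK_add_left M hk a b t
  have hf : Continuous f := (omFormK_cont M hk).comp (Continuous.prodMk continuous_id continuous_const)
  exact map_real_smul f hf c s

theorem omFormK_smul_right (hk : 2 ≤ k) (c : ℝ) (s t : M.I 0 → ℝ) :
    omFormK M s (c • t) = c • omFormK M s t := by
  let f : (M.I 0 → ℝ) →+ (M.I 1 → ℝ) :=
    AddMonoidHom.mk' (fun t => omFormK M s t) fun a b => omFormK_add_right M hk s a b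
  have hf : Continuous f := (omFormK_cont M hk).comp (Continuous.prodMk continuous_const continuous_id)
  exact map_real_smul f hf c t

theorem omFormK_sum_left (hk : 2 ≤ k) {ι : Type} (S : Finset ι) (c : ι → ℝ) (s : ι → M.I 0 → ℝ) (t : M.I 0 → ℝ) :
    omFormK M (∑ a ∈ S, c a • s a) t = ∑ a ∈ S, c a • omFormK M (s a) t := by
  classical
  induction S using Finset.induction_on with
  | empty =>
    simp only [sum_empty]
    have := omFormK_smul_left M hk 0 0 t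
    simpa using this
  | insert a S ha ih => rw [sum_insert ha, sum_insert ha, omFormK_add_left M hk, omFormK_smul_left M hk, ih]

theorem omFormK_sum_right (hk : 2 ≤ k) {ι : Type} (S : Finset ι) (c : ι → ℝ) (s : M.I 0 → ℝ) (t : ι → M.I 0 → ℝ) :
    omFormK M s (∑ a ∈ S, c a • t a) = ∑ a ∈ S, c a • omFormK M s (t a) := by
  classical
  induction S using Finset.induction_on with
  | empty =>
    simp only [sum_empty]
    have := omFormK_smul_right M hk 0 s 0
    simpa using this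
  | insert a S ha ih => rw [sum_insert ha, sum_insert ha, omFormK_add_right M hk, omFormK_smul_right M hk, ih]

theorem unit_vecK [DecidableEq (M.I 0)] (hk : 2 ≤ k) (a : M.I 0) : ∃ γ ∈ Γ, M.n γ = 0 ∧ M.p 0 γ = Pi.single a 1 := by
  obtain ⟨γ, hγ, _, hn, hp⟩ := M.int_p 0 (by omega) (Pi.single a 1)
  refine ⟨γ, hγ, hn, ?_⟩
  funext i
  rw [hp i]
  rcases eq_or_ne i a with h | h
  · subst h; simp
  · simp [Pi.single_eq_of_ne h]

theorem comm_memK {γ δ : G} (hγ : γ ∈ Γ) (hδ : δ ∈ Γ) : ⁅γ, δ⁆ ∈ Γ := by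
  rw [commutatorElement_def]
  exact mul_mem (mul_mem (mul_mem hγ hδ) (inv_mem hγ)) (inv_mem hδ)

theorem omFormK_int [DecidableEq (M.I 0)] (hk : 2 ≤ k) (a b : M.I 0) (j : M.I 1) :
    ∃ z : ℤ, omFormK M (Pi.single a 1) (Pi.single b 1) j = z := by
  obtain ⟨γ, hγ, hnγ, hpγ⟩ := unit_vecK M hk a
  obtain ⟨δ, hδ, hnδ, hpδ⟩ := unit_vecK M hk b
  have h1 : omFormK M (Pi.single a 1) (Pi.single b 1) = M.p 1 ⁅γ, δ⁆ := by
    unfold omFormK
    apply p1_comm_congrK M hk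
    · rw [M.p_e 0 (by omega), hpγ]
    · rw [M.p_e 0 (by omega), hpδ]
    · rw [M.n_e (by omega), hnγ]
    · rw [M.n_e (by omega), hnδ]
  rw [h1]
  exact M.p_int 1 (by omega) _ (comm_memK hγ hδ) (LL_comm (LL_zero _) _) j

/-- the second variable of the form, for a fixed element `τ` -/
noncomputable def tFormK (τ : G) (t : M.I 0 → ℝ) : M.I 1 → ℝ := M.p 1 ⁅τ, M.e 0 t⁆

theorem tFormK_add (hk : 2 ≤ k) (τ : G) (t t' : M.I 0 → ℝ) : tFormK M τ (t + t') = tFormK M τ t + tFormK M τ t' := by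
  unfold tFormK
  rw [← p1_comm_mul_rightK M hk]
  apply p1_comm_congrK M hk rfl _ rfl
  · rw [M.n_mul, M.n_e (by omega), M.n_e (by omega), M.n_e (by omega), add_zero]
  · rw [M.p0_mul (by omega), M.p_e 0 (by omega), M.p_e 0 (by omega), M.p_e 0 (by omega)]

theorem tFormK_cont (hk : 2 ≤ k) (τ : G) : Continuous (tFormK M τ) := by
  have h1 : Continuous (fun t : M.I 0 → ℝ => ⁅τ, M.e 0 t⁆) := by
    have h3 : Continuous (fun t : M.I 0 → ℝ => M.e 0 t) := M.e_cont 0 (by omega)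
    simp only [commutatorElement_def]
    exact ((continuous_const.mul h3).mul continuous_const).mul h3.inv
  exact (M.p_cont 1 (by omega)).comp_continuous h1 fun z => LL_comm (LL_zero _) _

theorem tFormK_smul (hk : 2 ≤ k) (τ : G) (c : ℝ) (t : M.I 0 → ℝ) : tFormK M τ (c • t) = c • tFormK M τ t := by
  let f : (M.I 0 → ℝ) →+ (M.I 1 → ℝ) := AddMonoidHom.mk' (fun t => tFormK M τ t) fun a b => tFormK_add M hk τ a b
  exact map_real_smul f (tFormK_cont M hk τ) c t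

theorem tFormK_sum (hk : 2 ≤ k) (τ : G) {ι : Type} (S : Finset ι) (c : ι → ℝ) (t : ι → M.I 0 → ℝ) :
    tFormK M τ (∑ a ∈ S, c a • t a) = ∑ a ∈ S, c a • tFormK M τ (t a) := by
  classical
  induction S using Finset.induction_on with
  | empty =>
    simp only [sum_empty]
    have := tFormK_smul M hk τ 0 0
    simpa using this
  | insert a S ha ih => rw [sum_insert ha, sum_insert ha, tFormK_add M hk, tFormK_smul M hk, ih]

theorem tFormK_int [DecidableEq (M.I 0)] (hk : 2 ≤ k) (τ : G) (hτ : τ ∈ Γ) (b : M.I 0) (j : M.I 1) :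
    ∃ z : ℤ, tFormK M τ (Pi.single b 1) j = z := by
  obtain ⟨δ, hδ, hnδ, hpδ⟩ := unit_vecK M hk b
  have h1 : tFormK M τ (Pi.single b 1) = M.p 1 ⁅τ, δ⁆ := by
    unfold tFormK
    apply p1_comm_congrK M hk rfl _ rfl
    · rw [M.n_e (by omega), hnδ]
    · rw [M.p_e 0 (by omega), hpδ]
  rw [h1]
  exact M.p_int 1 (by omega) _ (comm_memK hτ hδ) (LL_comm (LL_zero _) _) j

theorem p1_comm_swapK (hk : 2 ≤ k) (x y : G) : M.p 1 ⁅x, y⁆ = -M.p 1 ⁅y, x⁆ := by
  rw [← M.p_inv (by omega) (LL_comm (LL_zero _) _), commutatorElement_inv]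

theorem p1_comm_zpow_leftK (hk : 2 ≤ k) (x y : G) (a : ℤ) : M.p 1 ⁅x ^ a, y⁆ = (a : ℝ) • M.p 1 ⁅x, y⁆ := by
  let f : G →* Multiplicative (M.I 1 → ℝ) := MonoidHom.mk' (fun x => Multiplicative.ofAdd (M.p 1 ⁅x, y⁆)) fun a b => by
    rw [← ofAdd_add, p1_comm_mul_leftK M hk]
  have h1 : f (x ^ a) = f x ^ a := map_zpow f x a
  have h2 : M.p 1 ⁅x ^ a, y⁆ = a • M.p 1 ⁅x, y⁆ := h1
  rw [h2]
  exact (Int.cast_smul_eq_zsmul ℝ a _).symm

end

section
variable {G : Type} [Group G] [TopologicalSpace G] [IsTopologicalGroup G] {Γ : Subgroup G} {k : ℕ} (M : MalK G Γ k Unit)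

/-- The commutator form: `p 1 [x, y] j = ∑ N j a b (p 0 x a)(p 0 y b) + ∑ T j b ((n x)(p 0 y b) - (n y)(p 0 x b))`, `N`, `T` integral. -/
theorem exists_formK (hk : 2 ≤ k) : ∃ (N : M.I 1 → M.I 0 → M.I 0 → ℤ) (T : M.I 1 → M.I 0 → ℤ), ∀ (x y : G) (j : M.I 1),
    M.p 1 ⁅x, y⁆ j = ∑ a, ∑ b, (N j a b : ℝ) * M.p 0 x a * M.p 0 y b + ∑ b, (T j b : ℝ) * ((M.n x () : ℝ) * M.p 0 y b - (M.n y () : ℝ) * M.p 0 x b) := by
  classical
  obtain ⟨τ, hτ, hτn, hτp⟩ := M.int_n (fun _ => 1)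
  have hτp : M.p 0 τ = 0 := hτp (by omega)
  choose N hN using fun (j : M.I 1) (a b : M.I 0) => omFormK_int M hk a b j
  choose T hT using fun (j : M.I 1) (b : M.I 0) => tFormK_int M hk τ hτ b j
  refine ⟨N, T, fun x y j => ?_⟩
  have hvec : ∀ v : M.I 0 → ℝ, v = ∑ a, v a • (Pi.single a (1 : ℝ) : M.I 0 → ℝ) := by
    intro v
    funext i
    simp [Finset.sum_apply, Pi.single_apply]
  have hpow : ∀ a : ℤ, M.p 0 (τ ^ a) = 0 ∧ M.n (τ ^ a) = fun _ => a := by
    intro a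
    constructor
    · let f : G →* Multiplicative (M.I 0 → ℝ) := MonoidHom.mk' (fun x => Multiplicative.ofAdd (M.p 0 x)) fun a b => by
        rw [← ofAdd_add, M.p0_mul (by omega)]
      have h1 : f (τ ^ a) = f τ ^ a := map_zpow f τ a
      have h2 : M.p 0 (τ ^ a) = a • M.p 0 τ := h1
      rw [h2, hτp, smul_zero]
    · let f : G →* Multiplicative (Unit → ℤ) := MonoidHom.mk' (fun x => Multiplicative.ofAdd (M.n x)) fun a b => by
        rw [← ofAdd_add, M.n_mul]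
      have h1 : f (τ ^ a) = f τ ^ a := map_zpow f τ a
      have h2 : M.n (τ ^ a) = a • M.n τ := h1
      rw [h2, hτn]
      funext i
      simp
  have hx : ∀ z : G, M.p 0 z = M.p 0 (M.e 0 (M.p 0 z) * τ ^ (M.n z ())) ∧ M.n z = M.n (M.e 0 (M.p 0 z) * τ ^ (M.n z ())) := by
    intro z
    constructor
    · rw [M.p0_mul (by omega), (hpow _).1, M.p_e 0 (by omega), add_zero]
    · rw [M.n_mul, (hpow _).2, M.n_e (by omega), zero_add]
  have h1 : M.p 1 ⁅x, y⁆ = omFormK M (M.p 0 x) (M.p 0 y) + (M.n x () : ℝ) • tFormK M τ (M.p 0 y) - (M.n y () : ℝ) • tFormK M τ (M.p 0 x) := by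
    rw [p1_comm_congrK M hk (hx x).1 (hx y).1 (hx x).2 (hx y).2, p1_comm_mul_leftK M hk, p1_comm_mul_rightK M hk, p1_comm_mul_rightK M hk,
      p1_comm_zpow_leftK M hk, p1_comm_zpow_leftK M hk, p1_comm_swapK M hk (M.e 0 (M.p 0 x)) (τ ^ (M.n y ())), p1_comm_zpow_leftK M hk,
      p1_comm_swapK M hk τ (τ ^ (M.n y ())), p1_comm_zpow_leftK M hk, commutatorElement_self, M.p_one (by omega)]
    unfold omFormK tFormK
    simp only [smul_zero, neg_zero, add_zero]
    abel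
  have h2 : omFormK M (M.p 0 x) (M.p 0 y) j = ∑ a, ∑ b, (N j a b : ℝ) * M.p 0 x a * M.p 0 y b := by
    rw [hvec (M.p 0 x), omFormK_sum_left M hk, Finset.sum_apply]
    refine sum_congr rfl fun a _ => ?_
    rw [← hvec (M.p 0 x)]
    conv_lhs => rw [hvec (M.p 0 y), omFormK_sum_right M hk]
    rw [Pi.smul_apply, Finset.sum_apply, smul_eq_mul, mul_sum]
    refine sum_congr rfl fun b _ => ?_
    rw [Pi.smul_apply, smul_eq_mul, hN j a b]
    ring
  have h3 : ∀ v : M.I 0 → ℝ, tFormK M τ v j = ∑ b, (T j b : ℝ) * v b := by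
    intro v
    rw [hvec v, tFormK_sum M hk, Finset.sum_apply]
    refine sum_congr rfl fun b _ => ?_
    rw [← hvec v, Pi.smul_apply, smul_eq_mul, hT j b]
    ring
  rw [h1, Pi.sub_apply, Pi.add_apply, Pi.smul_apply, Pi.smul_apply, h2, h3, h3, smul_eq_mul, smul_eq_mul, mul_sum, mul_sum, add_sub_assoc, ← sum_sub_distrib]
  congr 1
  exact sum_congr rfl fun b _ => by ring

/-- Nondegeneracy: commutators generate `LL G 1` modulo `LL G 2`. -/
theorem form_nondegK (hk : 2 ≤ k) (N : M.I 1 → M.I 0 → M.I 0 → ℤ) (T : M.I 1 → M.I 0 → ℤ)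
    (hN : ∀ (x y : G) (j : M.I 1), M.p 1 ⁅x, y⁆ j = ∑ a, ∑ b, (N j a b : ℝ) * M.p 0 x a * M.p 0 y b + ∑ b, (T j b : ℝ) * ((M.n x () : ℝ) * M.p 0 y b - (M.n y () : ℝ) * M.p 0 x b))
    (m : M.I 1 → ℤ) (hm : m ≠ 0) : (∃ a b, ∑ j, m j * N j a b ≠ 0) ∨ ∃ b, ∑ j, m j * T j b ≠ 0 := by
  classical
  by_contra hcon0
  rw [not_or] at hcon0
  obtain ⟨hcon, hcon2⟩ := hcon0
  push Not at hcon hcon2
  apply hm
  have hcomm : ∀ x y : G, dot m (M.p 1 ⁅x, y⁆) = 0 := by
    intro x y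
    unfold dot
    have h1 : ∀ j ∈ (univ : Finset (M.I 1)), (m j : ℝ) * M.p 1 ⁅x, y⁆ j =
        ∑ a, ∑ b, ((m j : ℝ) * (N j a b : ℝ)) * (M.p 0 x a * M.p 0 y b) +
          ∑ b, ((m j : ℝ) * (T j b : ℝ)) * ((M.n x () : ℝ) * M.p 0 y b - (M.n y () : ℝ) * M.p 0 x b) := by
      intro j _
      rw [hN x y j, mul_add, mul_sum, mul_sum]
      congr 1
      · refine sum_congr rfl fun a _ => ?_
        rw [mul_sum]
        exact sum_congr rfl fun b _ => by ring
      · exact sum_congr rfl fun b _ => by ring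
    rw [sum_congr rfl h1, sum_add_distrib]
    have e1 : ∑ j, ∑ a, ∑ b, ((m j : ℝ) * (N j a b : ℝ)) * (M.p 0 x a * M.p 0 y b) = 0 := by
      rw [sum_comm]
      refine sum_eq_zero fun a _ => ?_
      rw [sum_comm]
      refine sum_eq_zero fun b _ => ?_
      rw [← sum_mul]
      have h2 : ∑ j, (m j : ℝ) * (N j a b : ℝ) = 0 := by exact_mod_cast hcon a b
      rw [h2, zero_mul]
    have e2 : ∑ j, ∑ b, ((m j : ℝ) * (T j b : ℝ)) * ((M.n x () : ℝ) * M.p 0 y b - (M.n y () : ℝ) * M.p 0 x b) = 0 := by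
      rw [sum_comm]
      refine sum_eq_zero fun b _ => ?_
      rw [← sum_mul]
      have h2 : ∑ j, (m j : ℝ) * (T j b : ℝ) = 0 := by exact_mod_cast hcon2 b
      rw [h2, zero_mul]
    rw [e1, e2, add_zero]
  let K : Subgroup G :=
    { carrier := {z | z ∈ LL G 1 ∧ dot m (M.p 1 z) = 0}
      one_mem' := ⟨one_mem _, by rw [M.p_one (by omega)]; simp [dot]⟩
      mul_mem' := by
        rintro a b ⟨ha, ha'⟩ ⟨hb, hb'⟩
        exact ⟨mul_mem ha hb, by rw [M.p_mul 1 (by omega) a ha b hb, dot_add, ha', hb', add_zero]⟩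
      inv_mem' := by
        rintro a ⟨ha, ha'⟩
        exact ⟨inv_mem ha, by rw [M.p_inv (by omega) ha, dot_neg, ha', neg_zero]⟩ }
  have hK : LL G 1 ≤ K := by
    have h1 : LL G 1 = ⁅LL G 0, (⊤ : Subgroup G)⁆ := rfl
    rw [h1, Subgroup.commutator_le]
    intro x _ y _
    exact ⟨LL_comm (LL_zero x) y, hcomm x y⟩
  funext j
  have h1 := (hK (M.e_mem 1 (by omega) (Pi.single j 1))).2
  rw [M.p_e 1 (by omega)] at h1
  unfold dot at h1
  simpa [Pi.single_apply] using h1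

end

end Pool.Agent.Lib.MP_3e612f_nt.NF
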