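import Pool.Agent.Lib.MP_3e612f_nt.NF.G.Phi
import Pool.Agent.Lib.MP_3e612f_nt.NF.Q.Orbit

/-! Orbits and shifted orbits, for a product of two groups. -/

set_option autoImplicit false

namespace Pool.Agent.Lib.MP_3e612f_nt.NF

open Finset
open Pool.Agent.Lib.MP_3e612f_nt.MR (mu ex)
open scoped commutatorElement

theorem sq_conj_mem {G : Type} [Group G] (b γ : G) : ((b, γ * b * γ⁻¹) : G × G) ∈ Sq G := by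
  rw [mem_Sq]
  change b⁻¹ * (γ * b * γ⁻¹) ∈ LL G 1
  have h1 : b⁻¹ * (γ * b * γ⁻¹) = ⁅b⁻¹, γ⁆ := by
    rw [commutatorElement_def]
    group
  rw [h1]
  exact LL_comm (LL_zero _) γ

theorem orbit_shift2 {G₁ : Type} [Group G₁] [TopologicalSpace G₁] [IsTopologicalGroup G₁] {Γ₁ : Subgroup G₁}
    {G₂ : Type} [Group G₂] [TopologicalSpace G₂] [IsTopologicalGroup G₂] {Γ₂ : Subgroup G₂} {k : ℕ} {κ : Type} (M : MalK (G₁ × G₂) (Γ₁.prod Γ₂) (k + 1) κ) {F : G₁ × G₂ → ℂ}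
    (hF : Adm (Γ₁.prod Γ₂) (k + 1) F) (D : Set (G₁ × G₂)) (hD : ∀ x : G₁ × G₂, ∃ r ∈ D, ∃ h ∈ LL (G₁ × G₂) (k + 1), ∃ γ ∈ Γ₁.prod Γ₂, x = r * h * γ ∧
      M.n r = 0 ∧ M.n γ = M.n x ∧ ∀ j, M.p 0 γ j = ⌊M.p 0 x j⌋) (g a : G₁ × G₂) :
    ∃ a' ∈ D, ∃ b : G₁ × G₂, M.p 0 b = M.p 0 g ∧ M.n b = M.n g ∧ (∀ j : ℕ, F (g ^ j * a) = F (a' * b ^ j)) ∧
      ∀ l : ℕ, ∃ r ∈ D, ∃ γ : G₁ × G₂, (∀ i, M.p 0 γ i = ⌊(l : ℝ) * M.p 0 b i⌋) ∧ M.n γ = (l : ℤ) • M.n b ∧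
        ∃ w : Sq G₁ × Sq G₂, (w.1 : G₁ × G₁) = (b.1, γ.1 * b.1 * γ.1⁻¹) ∧ (w.2 : G₂ × G₂) = (b.2, γ.2 * b.2 * γ.2⁻¹) ∧
        ∀ j : ℕ, F (a' * b ^ (j + l)) * (starRingEnd ℂ) (F (a' * b ^ j)) = Phi2 F (a', r) (w ^ j) := by
  obtain ⟨a', ha', h₀, hh₀, γ₀, hγ₀, hdec, -⟩ := hD a
  refine ⟨a', ha', a'⁻¹ * g * a', M.p_conj' (Nat.succ_pos k) (LL_zero g) a', M.n_conj' g a', ?_, ?_⟩
  · intro j
    rw [hF.dec hh₀ hγ₀ hdec]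
    have h1 : (a'⁻¹ * g * a') ^ j = a'⁻¹ * g ^ j * a' := by
      have h2 := orbit_conj_pow a'⁻¹ g j
      rwa [inv_inv] at h2
    rw [h1]
    congr 1
    group
  · intro l
    generalize a'⁻¹ * g * a' = b
    obtain ⟨r, hr, h, hh, γ, hγ, hdec', -, hn, hfl⟩ := hD (b ^ l)
    refine ⟨r, hr, γ, ?_, ?_, (⟨(b.1, γ.1 * b.1 * γ.1⁻¹), sq_conj_mem b.1 γ.1⟩, ⟨(b.2, γ.2 * b.2 * γ.2⁻¹), sq_conj_mem b.2 γ.2⟩), rfl, rfl, ?_⟩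
    · intro i
      rw [hfl i, M.p0_pow (Nat.succ_pos k)]
      rfl
    · rw [hn, M.n_pow]
    · intro j
      have hF1 : F (a' * b ^ (j + l)) = F (a' * r * (γ * b * γ⁻¹) ^ j) := by
        have h1 : a' * b ^ (j + l) = a' * r * h * (γ * b * γ⁻¹) ^ j * γ := by
          rw [add_comm, pow_add, hdec', orbit_conj_pow]
          group
        rw [h1, hF.right _ γ hγ, hF.mid (a' * r) hh]
      rw [hF1]
      rfl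

end Pool.Agent.Lib.MP_3e612f_nt.NF
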