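import Pool.Agent.Lib.MP_3e612f_nt.NF.G.GMain

/-! Correlations of two orbits in the same space. -/

set_option autoImplicit false

namespace Pool.Agent.Lib.MP_3e612f_nt.NF

open Finset
open Pool.Agent.Lib.MP_3e612f_nt.MR (mu ex)

section
variable {G : Type} [Group G] [TopologicalSpace G] [IsTopologicalGroup G] {Γ : Subgroup G} {k : ℕ} {F : G → ℂ}

theorem fst_admK (hF : Adm Γ k F) : Adm (Γ.prod Γ) k (fun x : G × G => F x.1) := by
  refine ⟨hF.cont.comp continuous_fst, ?_, ?_⟩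
  · rintro ⟨x, y⟩ ⟨γ, γ'⟩ hγ
    exact hF.right x γ (Subgroup.mem_prod.1 hγ).1
  · rintro ⟨x, y⟩ ⟨a, b⟩ hab
    exact hF.left x a ((mem_LL_prodK k (a, b)).1 hab).1

theorem prod_admK (hF : Adm Γ k F) (c : ℂ) :
    Adm (Γ.prod Γ) k (fun x : G × G => (F x.1 - c) * (starRingEnd ℂ) (F x.2 - c)) := by
  refine ⟨?_, ?_, ?_⟩
  · exact ((hF.cont.comp continuous_fst).sub continuous_const).mul
      (Complex.continuous_conj.comp ((hF.cont.comp continuous_snd).sub continuous_const))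
  · rintro ⟨x, y⟩ ⟨γ, γ'⟩ hγ
    have h := Subgroup.mem_prod.1 hγ
    simp only [Prod.mk_mul_mk]
    rw [hF.right x γ h.1, hF.right y γ' h.2]
  · rintro ⟨x, y⟩ ⟨a, b⟩ hab
    have h := (mem_LL_prodK k (a, b)).1 hab
    simp only [Prod.mk_mul_mk]
    rw [hF.left x a h.1, hF.left y b h.2]

/-- the constant of the product function is 0 -/
theorem prod_constK {R : ℕ → ℕ → G × G → Prop} (g : G × G) (hg : RFree R g) (c : ℂ) (C₀ : ℝ) (hC₀ : 0 < C₀) (hC₀' : ∀ x, ‖F x‖ ≤ C₀)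
    (hc : QR R (fun x : G × G => F x.1) c) (c' : ℂ) (hc' : QR R (fun x : G × G => (F x.1 - c) * (starRingEnd ℂ) (F x.2 - c)) c') : c' = 0 := by
  obtain ⟨C, hCdef⟩ : ∃ C : ℝ, C = C₀ + ‖c‖ := ⟨_, rfl⟩
  have hC : 0 ≤ C := by
    rw [hCdef]
    positivity
  have hCF : ∀ x, ‖(starRingEnd ℂ) (F x - c)‖ ≤ C := by
    intro x
    rw [RCLike.norm_conj, hCdef]
    exact (norm_sub_le _ _).trans (add_le_add (hC₀' x) le_rfl)
  have key : ∀ ε : ℝ, 0 < ε → ‖c'‖ ≤ ε * (1 + C) := by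
    intro ε hε
    obtain ⟨J₀, hJ₀⟩ := hc'.mean g hg ε hε
    obtain ⟨I₀, hI₀⟩ := hc.mean g hg ε hε
    obtain ⟨J, hJ, hJ1⟩ : ∃ J : ℕ, J₀ ≤ J ∧ 1 ≤ J := ⟨max J₀ 1, le_max_left _ _, le_max_right _ _⟩
    obtain ⟨I, hI, hI1⟩ : ∃ I : ℕ, I₀ ≤ I ∧ 1 ≤ I := ⟨max I₀ 1, le_max_left _ _, le_max_right _ _⟩
    have hJR : (0 : ℝ) < J := by exact_mod_cast hJ1
    have hIR : (0 : ℝ) < I := by exact_mod_cast hI1
    have h1 := hJ₀ J hJ hJ1
    have h2 := hI₀ I hI hI1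
    obtain ⟨S, hS⟩ : ∃ S : ℂ, S = ∑ i ∈ range I, ∑ j ∈ range J, (F (g.1 ^ j * g.1 ^ i) - c) * (starRingEnd ℂ) (F (g.2 ^ j) - c) := ⟨_, rfl⟩
    have hA : ‖S - ((I : ℂ) * J) * c'‖ ≤ I * (ε * J) := by
      have h3 : S - ((I : ℂ) * J) * c' =
          ∑ i ∈ range I, ∑ j ∈ range J, ((F (g.1 ^ j * g.1 ^ i) - c) * (starRingEnd ℂ) (F (g.2 ^ j) - c) - c') := by
        rw [hS]
        simp only [sum_sub_distrib, sum_const, card_range, nsmul_eq_mul]
        ring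
      rw [h3]
      refine (norm_sum_le _ _).trans ?_
      have h4 : ∀ i ∈ range I, ‖∑ j ∈ range J, ((F (g.1 ^ j * g.1 ^ i) - c) * (starRingEnd ℂ) (F (g.2 ^ j) - c) - c')‖ ≤ ε * J := by
        intro i _
        have h5 := (h1 (g.1 ^ i, 1)).le
        simpa only [Prod.fst_mul, Prod.snd_mul, Prod.pow_fst, Prod.pow_snd, mul_one] using h5
      refine (sum_le_sum h4).trans (le_of_eq ?_)
      rw [sum_const, card_range, nsmul_eq_mul]
    have hB : ‖S‖ ≤ J * (ε * I * C) := by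
      have h3 : S = ∑ j ∈ range J, (∑ i ∈ range I, (F (g.1 ^ i * g.1 ^ j) - c)) * (starRingEnd ℂ) (F (g.2 ^ j) - c) := by
        rw [hS, sum_comm]
        refine sum_congr rfl fun j _ => ?_
        rw [sum_mul]
        refine sum_congr rfl fun i _ => ?_
        rw [← pow_add, ← pow_add, add_comm]
      rw [h3]
      refine (norm_sum_le _ _).trans ?_
      have h4 : ∀ j ∈ range J, ‖(∑ i ∈ range I, (F (g.1 ^ i * g.1 ^ j) - c)) * (starRingEnd ℂ) (F (g.2 ^ j) - c)‖ ≤ ε * I * C := by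
        intro j _
        rw [norm_mul]
        have h5 := (h2 (g.1 ^ j, 1)).le
        simp only [Prod.fst_mul, Prod.pow_fst] at h5
        exact mul_le_mul h5 (hCF _) (norm_nonneg _) (by positivity)
      refine (sum_le_sum h4).trans (le_of_eq ?_)
      rw [sum_const, card_range, nsmul_eq_mul]
    have hD : (I : ℝ) * J * ‖c'‖ ≤ (I : ℝ) * J * (ε * (1 + C)) := by
      have h3 : ((I : ℂ) * J) * c' = S - (S - ((I : ℂ) * J) * c') := by ring
      have h4 : (I : ℝ) * J * ‖c'‖ = ‖((I : ℂ) * J) * c'‖ := by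
        rw [norm_mul, norm_mul, Complex.norm_natCast, Complex.norm_natCast]
      rw [h4, h3]
      refine (norm_sub_le _ _).trans ?_
      refine (add_le_add hB hA).trans (le_of_eq ?_)
      ring
    exact le_of_mul_le_mul_left hD (by positivity)
  by_contra hne
  have hpos : 0 < ‖c'‖ := norm_pos_iff.2 hne
  have h := key (‖c'‖ / (2 * (1 + C))) (by positivity)
  have h1 : ‖c'‖ / (2 * (1 + C)) * (1 + C) = ‖c'‖ / 2 := by
    field_simp
  rw [h1] at h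
  linarith

/-- Correlations: `c` such that the orbits of `F - c` are uncorrelated unless there is a relation. -/
theorem pair_relK (M : MalK G Γ k Unit) (hF : Adm Γ k F) :
    ∃ c : ℂ, ∀ κ : ℝ, 0 < κ → ∃ B : ℕ, ∀ (J : ℕ) (g g' a a' : G), 1 ≤ J → M.n g () ≠ 0 → M.n g' () ≠ 0 →
      κ * J ≤ ‖∑ j ∈ range J, (F (g ^ j * a) - c) * (starRingEnd ℂ) (F (g' ^ j * a') - c)‖ →
      RelW k (M.n g ()) (M.n g' ()) (M.p 0 g) (M.p 0 g') B J := by
  rcases Nat.eq_zero_or_pos k with hk | hk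
  · subst hk
    refine ⟨F 1, fun κ hκ => ⟨0, fun J g g' a a' hJ _ _ h => ?_⟩⟩
    exfalso
    have h0 : ∀ x, F x = F 1 := by
      intro x
      have := hF.left 1 x (LL_zero x)
      rwa [mul_one] at this
    have h1 : ∑ j ∈ range J, (F (g ^ j * a) - F 1) * (starRingEnd ℂ) (F (g' ^ j * a') - F 1) = 0 := by
      refine sum_eq_zero fun j _ => ?_
      rw [h0 (g ^ j * a), sub_self, zero_mul]
    rw [h1, norm_zero] at h
    have hJR : (0 : ℝ) < J := by exact_mod_cast hJ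
    have : 0 < κ * J := by positivity
    linarith
  · obtain ⟨C₀, hC₀, hC₀'⟩ := hF.bddK M
    obtain ⟨c, hc⟩ := leib2 k G Γ G Γ M M _ (fst_admK hF)
    obtain ⟨c', hc'⟩ := leib2 k G Γ G Γ M M _ (prod_admK hF c)
    obtain ⟨g₀, -, -, -, hg₀⟩ := exists_generic2 M M hk
    have h0 := prod_constK g₀ hg₀ c C₀ hC₀ hC₀' hc c' hc'
    subst h0
    refine ⟨c, fun κ hκ => ?_⟩
    obtain ⟨B, hB⟩ := hc' κ hκ
    refine ⟨B, fun J g g' a a' hJ hg hg' h => ?_⟩
    have h1 : κ * J ≤ ‖∑ j ∈ range J, ((F (((g, g') : G × G) ^ j * (a, a')).1 - c) *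
        (starRingEnd ℂ) (F (((g, g') : G × G) ^ j * (a, a')).2 - c) - 0)‖ := by
      simpa only [Prod.fst_mul, Prod.snd_mul, Prod.pow_fst, Prod.pow_snd, sub_zero] using h
    exact hB J (g, g') (a, a') hJ h1 hg hg'

end

end Pool.Agent.Lib.MP_3e612f_nt.NF
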