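import Pool.Agent.Lib.MP_3e612f_nt.NF.G.Dec

/-! Vertical periodicity (paper: Q-Fej). -/

set_option autoImplicit false

namespace Pool.Agent.Lib.MP_3e612f_nt.NF

open Finset
open scoped commutatorElement
open Pool.Agent.Lib.MP_3e612f_nt.MR (mu ex)

variable {G : Type} [Group G] [TopologicalSpace G] {Γ : Subgroup G} {k : ℕ} {κ : Type} (M : MalK G Γ (k + 1) κ) {A : G → ℂ}

/-- `A (z x)`, `z ∈ LL G k`, depends only on `p k z` (also for `k = 0`: `Γ` meets all components). -/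
theorem vert_eqK (hA : Adm Γ (k + 1) A) {z z' : G} (hz : z ∈ LL G k) (hz' : z' ∈ LL G k) (h : M.p k z = M.p k z') (x : G) : A (z * x) = A (z' * x) := by
  rcases Nat.eq_zero_or_pos k with hk | hk
  · subst hk
    obtain ⟨γ, hγ, hγn, hγp⟩ := M.int_n (M.n z - M.n z')
    have hγp := hγp Nat.one_pos
    have h1 : z * z'⁻¹ * γ⁻¹ ∈ LL G 1 := by
      refine (M.p_ker 0 Nat.one_pos _ (LL_zero _) ?_).1 ?_
      · rw [M.n_mul, M.n_mul, M.n_inv, M.n_inv, hγn]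
        abel
      · rw [M.p0_mul Nat.one_pos, M.p0_mul Nat.one_pos, M.p0_inv Nat.one_pos, M.p0_inv Nat.one_pos, hγp, h]
        simp
    have h2 : z * x = (z * z'⁻¹ * γ⁻¹) * (⁅γ, z' * x⁆ * (z' * x) * γ) := by
      rw [commutatorElement_def]
      group
    rw [h2, hA.left _ _ h1, hA.right _ γ hγ, hA.left _ _ (LL_comm (LL_zero γ) _)]
  · have h1 : z * z'⁻¹ ∈ LL G (k + 1) := (M.p_eq_iff (Nat.lt_succ_self k) hz hz' (by rw [M.n_LL' hk hz, M.n_LL' hk hz'])).1 h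
    have h2 : z * x = (z * z'⁻¹) * (z' * x) := by group
    rw [h2, hA.left _ _ h1]

/-- `A (e_k(s) e_k(t) x) = A (e_k(s + t) x)` -/
theorem vert_addK (hA : Adm Γ (k + 1) A) (s t : M.I k → ℝ) (x : G) : A (M.e k s * (M.e k t * x)) = A (M.e k (s + t) * x) := by
  have hs := M.e_mem k (Nat.lt_succ_self k) s
  have ht := M.e_mem k (Nat.lt_succ_self k) t
  have hst := M.e_mem k (Nat.lt_succ_self k) (s + t)
  rw [← mul_assoc]
  apply vert_eqK M hA (mul_mem hs ht) hst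
  rw [M.p_mul k (Nat.lt_succ_self k) _ hs _ ht, M.p_e k (Nat.lt_succ_self k), M.p_e k (Nat.lt_succ_self k),
    M.p_e k (Nat.lt_succ_self k)]

/-- `A (e_k(0) x) = A x` -/
theorem vert_zeroK (hA : Adm Γ (k + 1) A) (x : G) : A (M.e k 0 * x) = A x := by
  have h0 := M.e_mem k (Nat.lt_succ_self k) 0
  have h1 := vert_eqK M hA h0 (one_mem (LL G k)) (by rw [M.p_e k (Nat.lt_succ_self k), M.p_one (Nat.lt_succ_self k)]) x
  rw [h1, one_mul]

/-- Periodicity: for `γ ∈ Γ ∩ LL G k`, `γ x = (γ x γ⁻¹ x⁻¹) x γ` with `γ x γ⁻¹ x⁻¹ ∈ LL G (k+1)`, so `A (γ x) = A x`; apply it with `p k γ = n`: `A (e_k(n) x) = A (γ x) = A x`. -/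
theorem vert_perK (hA : Adm Γ (k + 1) A) (n : M.I k → ℤ) (x : G) : A (M.e k (fun i => (n i : ℝ)) * x) = A x := by
  obtain ⟨γ, hγ, hγL, -, hp⟩ := M.int_p k (Nat.lt_succ_self k) n
  have h0 := M.e_mem k (Nat.lt_succ_self k) (fun i => (n i : ℝ))
  have h1 := vert_eqK M hA h0 hγL (by rw [M.p_e k (Nat.lt_succ_self k)]; funext j; exact (hp j).symm) x
  rw [h1]
  have h2 : A (γ * x) = A (γ * x * γ⁻¹) := (hA.right _ _ (inv_mem hγ)).symm
  have h3 : γ * x * γ⁻¹ = ⁅γ, x⁆ * x := by rw [commutatorElement_def]; group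
  rw [h2, h3, hA.left _ _ (LL_comm hγL x)]

end Pool.Agent.Lib.MP_3e612f_nt.NF
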