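import Pool.Agent.Lib.MP_3e612f_nt.NF.G.ApM
import Pool.Agent.Lib.MP_3e612f_nt.NF.X.PerNil

/-! Nilrotations over periodic bases: local uniformity at all points; the group need not be connected. -/

set_option autoImplicit false

namespace Pool.Agent.Lib.MP_3e612f_nt.NF

open Finset
open Pool.Agent.Lib.MP_3e612f_nt.MR (mu ex)

/-- the frequencies of the return rotation -/
theorem dot_cocK {G : Type} [Group G] [TopologicalSpace G] {Γ : Subgroup G} {k : ℕ} {κ : Type} (M : MalK G Γ k κ) (hk : 1 ≤ k)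
    {W : Type} (τ : W → W) (u : W → G) (m : M.I 0 → ℤ) (n : ℕ) (w : W) :
    dot m (M.p 0 (coc τ u n w)) = ∑ i ∈ range n, dot m (M.p 0 (u (τ^[i] w))) := by
  induction n with
  | zero =>
    rw [range_zero, sum_empty, coc_zero, M.p_one hk]
    unfold dot
    simp
  | succ n ih =>
    rw [sum_range_succ, add_comm n 1, coc_add, M.p0_mul hk, dot_add, ih, coc_one, add_comm]

/-- the component of the return rotation -/
theorem n_coc {G : Type} [Group G] [TopologicalSpace G] {Γ : Subgroup G} {k : ℕ} (M : MalK G Γ k Unit)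
    {W : Type} (τ : W → W) (u : W → G) (n : ℕ) (w : W) :
    M.n (coc τ u n w) () = ∑ i ∈ range n, M.n (u (τ^[i] w)) () := by
  induction n with
  | zero =>
    rw [range_zero, sum_empty, coc_zero, M.n_one]
    rfl
  | succ n ih =>
    rw [sum_range_succ, add_comm n 1, coc_add, M.n_mul, Pi.add_apply, ih, coc_one, add_comm]

theorem fr_cptK {G ι : Type} [TopologicalSpace G] [Fintype ι] {P : G → ι → ℝ} (hp : Continuous P)
    {Y : Type} [MetricSpace Y] [CompactSpace Y] (S : Y → Y) (hS : Continuous S) (g : Y → G) (hg : Continuous g) (m : ι → ℤ)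
    (h0 : MeasureTheory.volume {x : ℝ | ∃ y, S y = y ∧ x = dot m (P (g y))} = 0) (hq : ∀ y, S y = y → ∀ q : ℚ, dot m (P (g y)) ≠ q) :
    MeasureTheory.volume (Fr {x | ∃ y, S y = y ∧ x = dot m (P (g y))}) = 0 ∧ ∀ q : ℚ, (q : ℝ) ∉ Fr {x | ∃ y, S y = y ∧ x = dot m (P (g y))} := by
  have hd : Continuous (fun y => dot m (P (g y))) := by
    unfold dot
    have h2 := hp.comp hg
    refine continuous_finsetSum _ fun i _ => continuous_const.mul ?_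
    exact (continuous_apply i).comp h2
  have hc : IsCompact {x : ℝ | ∃ y, S y = y ∧ x = dot m (P (g y))} := by
    have h3 : IsCompact {y : Y | S y = y} := (isClosed_eq hS continuous_id).isCompact
    have h4 := h3.image hd
    have h5 : {x : ℝ | ∃ y, S y = y ∧ x = dot m (P (g y))} = (fun y => dot m (P (g y))) '' {y : Y | S y = y} := by
      ext x
      simp only [Set.mem_ofPred_eq, Set.mem_image]
      constructor
      · rintro ⟨y, hy, rfl⟩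
        exact ⟨y, hy, rfl⟩
      · rintro ⟨y, hy, rfl⟩
        exact ⟨y, hy, rfl⟩
    rw [h5]
    exact h4
  rw [fr_of_cpt hc]
  constructor
  · have h5 : {x : ℝ | ∃ y ∈ {x : ℝ | ∃ y, S y = y ∧ x = dot m (P (g y))}, ∃ z : ℤ, x = y + z}
        ⊆ ⋃ z : ℤ, (fun x => x + (-(z : ℝ))) ⁻¹' {x : ℝ | ∃ y, S y = y ∧ x = dot m (P (g y))} := by
      rintro x ⟨y, hy, z, rfl⟩
      rw [Set.mem_iUnion]
      refine ⟨z, ?_⟩
      rw [Set.mem_preimage]
      simpa using hy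
    refine MeasureTheory.measure_mono_null h5 (MeasureTheory.measure_iUnion_null fun z => ?_)
    rw [MeasureTheory.measure_preimage_add_right]
    exact h0
  · rintro q ⟨x, ⟨y, hy, rfl⟩, z, hz⟩
    refine hq y hy (q - z) ?_
    push_cast
    linarith

private theorem pm_mu_le (n : ℕ) : ‖(mu n : ℂ)‖ ≤ 1 := by
  rw [Complex.norm_real, Real.norm_eq_abs]
  unfold mu
  have h := ArithmeticFunction.abs_moebius_le_one (n := n)
  have h2 : |((ArithmeticFunction.moebius n : ℤ) : ℝ)| = ((|ArithmeticFunction.moebius n| : ℤ) : ℝ) := by push_cast; rfl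
  rw [h2]
  exact_mod_cast h

/-- the window of one orbit -/
private theorem pm_split {W G : Type} [Group G] (τ : W → W) (u : W → G) (Q : ℕ) (hQ : 1 ≤ Q) (hper : ∀ w, τ^[Q] w = w) (F : W × G → ℂ) (c : ℕ → ℂ) (H : ℕ) (w : W) (x : G) :
    ∑ h ∈ Icc 1 H, c h * F ((skew τ u)^[h] (w, x)) =
      ∑ r ∈ range Q, ∑ h ∈ Icc 1 H, c h * (if h % Q = r then F (τ^[r] w, coc τ u r w * (coc τ u Q w ^ (h / Q) * x)) else 0) := by
  rw [sum_comm]
  refine sum_congr rfl fun h _ => ?_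
  rw [← mul_sum]
  congr 1
  rw [sum_ite_eq (range Q) (h % Q) (fun r => F (τ^[r] w, coc τ u r w * (coc τ u Q w ^ (h / Q) * x))),
    if_pos (mem_range.2 (Nat.mod_lt _ (by omega))), skew_iter]
  have h1 := Nat.div_add_mod h Q
  have h2 : τ^[h] w = τ^[h % Q] w := by
    conv_lhs => rw [← h1]
    exact iter_per τ Q hper _ _ w
  have h3 : coc τ u h w = coc τ u (h % Q) w * coc τ u Q w ^ (h / Q) := by
    conv_lhs => rw [← h1]
    exact coc_per τ u Q hper _ _ w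
  rw [h2, h3, mul_assoc]

theorem part_perM {G : Type} [Group G] [TopologicalSpace G] [IsTopologicalGroup G] {Γ : Subgroup G} {k : ℕ} (M : MalK G Γ k Unit) (hnc : Continuous fun x : G => M.n x ()) (hk1 : 1 ≤ k) (hk : LL G k = ⊥)
    {W : Type} [MetricSpace W] [CompactSpace W] (τ : W → W) (hτ : Continuous τ) (Q : ℕ) (hQ : 1 ≤ Q) (hper : ∀ w, τ^[Q] w = w) (u : W → G) (hu : Continuous u)
    (hnu : ∀ w, ∑ i ∈ range Q, M.n (u (τ^[i] w)) () ≠ 0)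
    (hfr : ∀ m : M.I 0 → ℤ, m ≠ 0 → MeasureTheory.volume {x : ℝ | ∃ w, x = ∑ i ∈ range Q, dot m (M.p 0 (u (τ^[i] w)))} = 0 ∧
      ∀ (w : W) (q : ℚ), ∑ i ∈ range Q, dot m (M.p 0 (u (τ^[i] w))) ≠ q)
    (F : W × G → ℂ) (hF : Continuous F) (hΓ : ∀ y x, ∀ γ ∈ Γ, F (y, x * γ) = F (y, x)) (ε : ℝ) (hε : 0 < ε) :
    ∃ H₀ : ℕ, ∀ H : ℕ, H₀ ≤ H → ∃ N₀ : ℕ, ∀ N : ℕ, N₀ ≤ N → ∀ p : ℕ → W × G,
      ∑ n ∈ Icc 1 N, ‖∑ h ∈ Icc 1 H, (mu (n + h) : ℂ) * F ((skew τ u)^[h] (p n))‖ ≤ ε * H * N := by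
  classical
  -- the fundamental domain
  obtain ⟨D, hD, hdec⟩ : ∃ D : Set G, IsCompact D ∧ ∀ x : G, ∃ r ∈ D, ∃ γ ∈ Γ, x = r * γ := by
    obtain ⟨D, hD, hx⟩ := decK M
    refine ⟨D, hD, fun x => ?_⟩
    obtain ⟨r, hr, h, hh, γ, hγ, hxe, -⟩ := hx x
    rw [hk, Subgroup.mem_bot] at hh
    exact ⟨r, hr, γ, hγ, by rw [hxe, hh, mul_one]⟩
  -- the fibre functions
  obtain ⟨Φ, hΦ⟩ : ∃ Φ : ℕ → W × G → ℂ, ∀ r z, Φ r z = F (τ^[r] z.1, coc τ u r z.1 * z.2) := ⟨_, fun _ _ => rfl⟩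
  have hΦc : ∀ r, Continuous (Φ r) := by
    intro r
    have h1 : Φ r = fun z : W × G => F (τ^[r] z.1, coc τ u r z.1 * z.2) := funext fun z => hΦ r z
    rw [h1]
    exact hF.comp (((hτ.iterate r).comp continuous_fst).prodMk (((coc_cont hτ hu r).comp continuous_fst).mul continuous_snd))
  have hΦΓ : ∀ r w x, ∀ γ ∈ Γ, Φ r (w, x * γ) = Φ r (w, x) := by
    intro r w x γ hγ
    rw [hΦ, hΦ]
    dsimp only
    rw [← mul_assoc, hΓ _ _ γ hγ]
  have hZ : ∀ r : ℕ, ∃ Z : Finset W, ∀ w : W, ∃ z ∈ Z, ∀ x : G, ‖Φ r (w, x) - Φ r (z, x)‖ ≤ ε / 4 := by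
    intro r
    obtain ⟨Z, -, hZ⟩ := finite_fibres (S := (id : W → W)) continuous_id (hΦc r) D hD (ε / 4) (by positivity)
    refine ⟨Z, fun w => ?_⟩
    obtain ⟨z, hz, hzn⟩ := hZ w rfl
    refine ⟨z, hz, fun x => ?_⟩
    obtain ⟨r', hr', γ, hγ, rfl⟩ := hdec x
    rw [hΦΓ _ _ _ γ hγ, hΦΓ _ _ _ γ hγ]
    exact hzn r' hr'
  choose Z hZn using hZ
  obtain ⟨K, hK⟩ : ∃ K : ℝ, K = ((∑ r ∈ range Q, (Z r).card : ℕ) : ℝ) + 1 := ⟨_, rfl⟩
  have hK0 : 0 < K := by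
    rw [hK]
    exact add_pos_of_nonneg_of_pos (Nat.cast_nonneg _) one_pos
  have hεK : 0 < ε / 2 / K := div_pos (half_pos hε) hK0
  -- the frequencies
  have hS : ∀ m : M.I 0 → ℤ, m ≠ 0 → Small 0 (Fr {x | ∃ g ∈ {g : G | ∃ w, g = coc τ u Q w}, x = dot m (M.p 0 g)}) := by
    intro m hm
    have h1 : {x : ℝ | ∃ g ∈ {g : G | ∃ w, g = coc τ u Q w}, x = dot m (M.p 0 g)} = {x : ℝ | ∃ y, (id : W → W) y = y ∧ x = dot m (M.p 0 (coc τ u Q y))} := by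
      ext x
      constructor
      · rintro ⟨g', ⟨y, rfl⟩, hx⟩
        exact ⟨y, rfl, hx⟩
      · rintro ⟨y, -, hx⟩
        exact ⟨_, ⟨y, rfl⟩, hx⟩
    have h2 : {x : ℝ | ∃ y, (id : W → W) y = y ∧ x = dot m (M.p 0 (coc τ u Q y))} = {x : ℝ | ∃ w, x = ∑ i ∈ range Q, dot m (M.p 0 (u (τ^[i] w)))} := by
      ext x
      constructor
      · rintro ⟨y, -, hx⟩
        exact ⟨y, by rw [hx, dot_cocK M hk1]⟩
      · rintro ⟨y, hx⟩
        exact ⟨y, rfl, by rw [hx, dot_cocK M hk1]⟩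
    obtain ⟨h3, h4⟩ := fr_cptK (M.p0_cont hk1) (id : W → W) continuous_id (coc τ u Q) (coc_cont hτ hu Q) m (by rw [h2]; exact (hfr m hm).1)
      (fun y _ q => by
        rw [dot_cocK M hk1]
        exact (hfr m hm).2 y q)
    rw [h1]
    refine ⟨?_, h4⟩
    rw [MeasureTheory.measure_mono_null Set.inter_subset_left h3]
    exact bot_le
  -- the components
  obtain ⟨V, hV⟩ : ∃ V : ℕ, ∀ w, |M.n (coc τ u Q w) ()| ≤ (V : ℤ) := by
    have h1 : Continuous fun w => ((M.n (coc τ u Q w) () : ℤ) : ℝ) := continuous_of_discreteTopology.comp (hnc.comp (coc_cont hτ hu Q))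
    obtain ⟨C, hC⟩ := (isCompact_univ (X := W)).exists_bound_of_continuousOn h1.continuousOn
    obtain ⟨V, hV⟩ := exists_nat_ge C
    refine ⟨V, fun w => ?_⟩
    have h2 := (hC w (Set.mem_univ w)).trans hV
    rw [Real.norm_eq_abs] at h2
    exact_mod_cast h2
  have hSn : ∀ g ∈ {g : G | ∃ w, g = coc τ u Q w}, M.n g () ≠ 0 ∧ |M.n g ()| ≤ (V : ℤ) := by
    rintro g ⟨w, rfl⟩
    refine ⟨?_, hV w⟩
    rw [n_coc M]
    exact hnu w
  -- `part_apM` for every `r`, `z`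
  have hA : ∀ (r : ℕ) (z : W), ∃ H₀ : ℕ, ∀ H : ℕ, H₀ ≤ H → ∃ N₀ : ℕ, ∀ N : ℕ, N₀ ≤ N → ∀ g a : ℕ → G, ∀ b : ℕ → ℕ,
      (∀ n, g n ∈ {g : G | ∃ w, g = coc τ u Q w}) →
      ∑ n ∈ Icc 1 N, ‖∑ h ∈ Icc 1 H, (mu (n + h) : ℂ) * (if h % Q = b n then Φ r (z, g n ^ (h / Q) * a n) else 0)‖ ≤ ε / 2 / K * H * N := by
    intro r z
    obtain ⟨B, hB⟩ := part_apM M hk (fun x => Φ r (z, x)) ((hΦc r).comp (Continuous.prodMk_right z)) (fun x γ hγ => hΦΓ r z x γ hγ) Q hQ V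
      (ε / 2 / K) hεK
    exact hB _ hSn fun m hm _ => hS m hm
  choose H₀ hH₀ using hA
  refine ⟨∑ r ∈ range Q, ∑ z ∈ Z r, H₀ r z, fun H hH => ?_⟩
  have hHz : ∀ r ∈ range Q, ∀ z ∈ Z r, H₀ r z ≤ H := fun r hr z hz =>
    ((single_le_sum (f := fun z => H₀ r z) (fun _ _ => Nat.zero_le _) hz).trans
      (single_le_sum (f := fun r => ∑ z ∈ Z r, H₀ r z) (fun _ _ => Nat.zero_le _) hr)).trans hH
  have hN0 : ∀ (r : ℕ) (z : W), ∃ N₀ : ℕ, H₀ r z ≤ H → ∀ N : ℕ, N₀ ≤ N → ∀ g a : ℕ → G, ∀ b : ℕ → ℕ,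
      (∀ n, g n ∈ {g : G | ∃ w, g = coc τ u Q w}) →
      ∑ n ∈ Icc 1 N, ‖∑ h ∈ Icc 1 H, (mu (n + h) : ℂ) * (if h % Q = b n then Φ r (z, g n ^ (h / Q) * a n) else 0)‖ ≤ ε / 2 / K * H * N := by
    intro r z
    by_cases hz : H₀ r z ≤ H
    · obtain ⟨N₀, hN₀⟩ := hH₀ r z H hz
      exact ⟨N₀, fun _ => hN₀⟩
    · exact ⟨0, fun h => absurd h hz⟩
  choose N₀ hN₀ using hN0
  refine ⟨∑ r ∈ range Q, ∑ z ∈ Z r, N₀ r z, fun N hN p => ?_⟩
  have hNz : ∀ r ∈ range Q, ∀ z ∈ Z r, N₀ r z ≤ N := fun r hr z hz =>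
    ((single_le_sum (f := fun z => N₀ r z) (fun _ _ => Nat.zero_le _) hz).trans
      (single_le_sum (f := fun r => ∑ z ∈ Z r, N₀ r z) (fun _ _ => Nat.zero_le _) hr)).trans hN
  -- one window
  have hwin : ∀ n ∈ Icc 1 N, ‖∑ h ∈ Icc 1 H, (mu (n + h) : ℂ) * F ((skew τ u)^[h] (p n))‖ ≤
      (∑ r ∈ range Q, ∑ z ∈ Z r, ‖∑ h ∈ Icc 1 H, (mu (n + h) : ℂ) * (if h % Q = r then Φ r (z, coc τ u Q (p n).1 ^ (h / Q) * (p n).2) else 0)‖) + ε / 4 * H := by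
    intro n _
    have h1 := pm_split τ u Q hQ hper F (fun h => (mu (n + h) : ℂ)) H (p n).1 (p n).2
    have h2 : ((p n).1, (p n).2) = p n := rfl
    rw [h2] at h1
    rw [h1]
    refine (norm_sum_le _ _).trans ?_
    have h3 : ∀ r ∈ range Q, ‖∑ h ∈ Icc 1 H, (mu (n + h) : ℂ) * (if h % Q = r then F (τ^[r] (p n).1, coc τ u r (p n).1 * (coc τ u Q (p n).1 ^ (h / Q) * (p n).2)) else 0)‖ ≤
        (∑ z ∈ Z r, ‖∑ h ∈ Icc 1 H, (mu (n + h) : ℂ) * (if h % Q = r then Φ r (z, coc τ u Q (p n).1 ^ (h / Q) * (p n).2) else 0)‖) +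
          ∑ h ∈ Icc 1 H, (if h % Q = r then ε / 4 else 0) := by
      intro r _
      obtain ⟨z, hz, hzn⟩ := hZn r (p n).1
      have h4 : ∑ h ∈ Icc 1 H, (mu (n + h) : ℂ) * (if h % Q = r then F (τ^[r] (p n).1, coc τ u r (p n).1 * (coc τ u Q (p n).1 ^ (h / Q) * (p n).2)) else 0) =
          ∑ h ∈ Icc 1 H, (mu (n + h) : ℂ) * (if h % Q = r then Φ r (z, coc τ u Q (p n).1 ^ (h / Q) * (p n).2) else 0) +
          ∑ h ∈ Icc 1 H, (mu (n + h) : ℂ) * (if h % Q = r then (Φ r ((p n).1, coc τ u Q (p n).1 ^ (h / Q) * (p n).2) - Φ r (z, coc τ u Q (p n).1 ^ (h / Q) * (p n).2)) else 0) := by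
        rw [← sum_add_distrib]
        refine sum_congr rfl fun h _ => ?_
        split_ifs
        · rw [hΦ r ((p n).1, _)]
          ring
        · ring
      rw [h4]
      refine (norm_add_le _ _).trans (add_le_add ?_ ?_)
      · exact single_le_sum (f := fun z => ‖∑ h ∈ Icc 1 H, (mu (n + h) : ℂ) * (if h % Q = r then Φ r (z, coc τ u Q (p n).1 ^ (h / Q) * (p n).2) else 0)‖)
          (fun _ _ => norm_nonneg _) hz
      · refine (norm_sum_le _ _).trans (sum_le_sum fun h _ => ?_)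
        rw [norm_mul]
        refine (mul_le_of_le_one_left (norm_nonneg _) (pm_mu_le _)).trans ?_
        split_ifs
        · exact hzn _
        · rw [norm_zero]
    refine (sum_le_sum h3).trans ?_
    rw [sum_add_distrib]
    refine add_le_add le_rfl ?_
    rw [sum_comm]
    have h5 : ∀ h ∈ Icc 1 H, ∑ r ∈ range Q, (if h % Q = r then ε / 4 else 0) = ε / 4 := by
      intro h _
      rw [sum_ite_eq (range Q) (h % Q) (fun _ => ε / 4), if_pos (mem_range.2 (Nat.mod_lt _ (by omega)))]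
    rw [sum_congr rfl h5, sum_const, Nat.card_Icc, Nat.add_sub_cancel, nsmul_eq_mul]
    linarith
  refine (sum_le_sum hwin).trans ?_
  rw [sum_add_distrib, sum_comm]
  have h6 : ∑ r ∈ range Q, ∑ n ∈ Icc 1 N, ∑ z ∈ Z r, ‖∑ h ∈ Icc 1 H, (mu (n + h) : ℂ) * (if h % Q = r then Φ r (z, coc τ u Q (p n).1 ^ (h / Q) * (p n).2) else 0)‖ ≤
      ∑ r ∈ range Q, ∑ z ∈ Z r, ε / 2 / K * H * N := by
    refine sum_le_sum fun r hr => ?_
    rw [sum_comm]
    refine sum_le_sum fun z hz => ?_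
    exact hN₀ r z (hHz r hr z hz) N (hNz r hr z hz) (fun n => coc τ u Q (p n).1) (fun n => (p n).2) (fun _ => r) (fun n => ⟨(p n).1, rfl⟩)
  have h7 : ∑ r ∈ range Q, ∑ z ∈ Z r, ε / 2 / K * H * N = ((∑ r ∈ range Q, (Z r).card : ℕ) : ℝ) * (ε / 2 / K * H * N) := by
    push_cast
    rw [sum_mul]
    refine sum_congr rfl fun r _ => ?_
    rw [sum_const, nsmul_eq_mul]
  have h8 : ((∑ r ∈ range Q, (Z r).card : ℕ) : ℝ) * (ε / 2 / K * H * N) ≤ ε / 2 * H * N := by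
    have h9 : ((∑ r ∈ range Q, (Z r).card : ℕ) : ℝ) ≤ K := by
      rw [hK]
      linarith
    have h10 : K * (ε / 2 / K * H * N) = ε / 2 * H * N := by
      field_simp
    rw [← h10]
    exact mul_le_mul_of_nonneg_right h9 (mul_nonneg (mul_nonneg hεK.le (Nat.cast_nonneg _)) (Nat.cast_nonneg _))
  have h11 : ∑ n ∈ Icc 1 N, ε / 4 * (H : ℝ) = ε / 4 * H * N := by
    rw [sum_const, Nat.card_Icc, Nat.add_sub_cancel, nsmul_eq_mul]
    ring
  rw [h11]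
  rw [h7] at h6
  have h12 : 0 ≤ ε * H * N := mul_nonneg (mul_nonneg hε.le (Nat.cast_nonneg _)) (Nat.cast_nonneg _)
  have h13 : ε / 2 * H * N + ε / 4 * H * N ≤ ε * H * N := by linarith
  exact (add_le_add (h6.trans h8) le_rfl).trans h13

end Pool.Agent.Lib.MP_3e612f_nt.NF
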