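import Pool.Agent.Lib.MP_3e612f_nt.NF.G.Alg

/-! Data for the product of two groups. -/

set_option autoImplicit false

namespace Pool.Agent.Lib.MP_3e612f_nt.NF

open Finset

variable {G : Type} [Group G] [TopologicalSpace G] {Γ : Subgroup G} {k : ℕ} {κ : Type} (M : MalK G Γ k κ)
  {G' : Type} [Group G'] [TopologicalSpace G'] {Γ' : Subgroup G'} {κ' : Type} (M' : MalK G' Γ' k κ')

theorem mem_LL_prodK (i : ℕ) (x : G × G') : x ∈ LL (G × G') i ↔ x.1 ∈ LL G i ∧ x.2 ∈ LL G' i := by
  have h : LL (G × G') i = (LL G i).prod (LL G' i) := Subgroup.top_lowerCentralSeries_prod i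
  rw [h, Subgroup.mem_prod]

/-- data for `G × G'` -/
noncomputable def MalK.prod : MalK (G × G') (Γ.prod Γ') k (κ ⊕ κ') where
  I := fun i => M.I i ⊕ M'.I i
  fin := fun i => inferInstance
  n := fun x => Sum.elim (M.n x.1) (M'.n x.2)
  p := fun i x => Sum.elim (M.p i x.1) (M'.p i x.2)
  e := fun i t => (M.e i (fun j => t (Sum.inl j)), M'.e i (fun j => t (Sum.inr j)))
  n_mul := by
    intro x y
    funext j
    rcases j with j | j
    · exact congrFun (M.n_mul x.1 y.1) j
    · exact congrFun (M'.n_mul x.2 y.2) j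
  p_cont := by
    intro i hi
    rw [continuousOn_pi]
    rintro (j | j)
    · have h1 : ContinuousOn (fun x : G × G' => M.p i x.1) (LL (G × G') i : Set (G × G')) :=
        (M.p_cont i hi).comp continuousOn_fst fun x hx => ((mem_LL_prodK i x).1 hx).1
      exact continuousOn_pi.1 h1 j
    · have h1 : ContinuousOn (fun x : G × G' => M'.p i x.2) (LL (G × G') i : Set (G × G')) :=
        (M'.p_cont i hi).comp continuousOn_snd fun x hx => ((mem_LL_prodK i x).1 hx).2
      exact continuousOn_pi.1 h1 j
  p_mul := by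
    intro i hi x hx y hy
    rw [mem_LL_prodK] at hx hy
    funext j
    rcases j with j | j
    · exact congrFun (M.p_mul i hi x.1 hx.1 y.1 hy.1) j
    · exact congrFun (M'.p_mul i hi x.2 hx.2 y.2 hy.2) j
  p_ker := by
    intro i hi x hx hn
    have hn1 : M.n x.1 = 0 := funext fun j => congrFun hn (Sum.inl j)
    have hn2 : M'.n x.2 = 0 := funext fun j => congrFun hn (Sum.inr j)
    rw [mem_LL_prodK] at hx
    rw [mem_LL_prodK, ← M.p_ker i hi x.1 hx.1 hn1, ← M'.p_ker i hi x.2 hx.2 hn2]
    constructor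
    · intro h
      exact ⟨funext fun j => congrFun h (Sum.inl j), funext fun j => congrFun h (Sum.inr j)⟩
    · rintro ⟨h1, h2⟩
      funext j
      rcases j with j | j
      · exact congrFun h1 j
      · exact congrFun h2 j
  e_cont := by
    intro i hi
    refine Continuous.prodMk ((M.e_cont i hi).comp ?_) ((M'.e_cont i hi).comp ?_)
    · exact continuous_pi fun j => continuous_apply (Sum.inl j)
    · exact continuous_pi fun j => continuous_apply (Sum.inr j)
  e_mem := by
    intro i hi t
    rw [mem_LL_prodK]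
    exact ⟨M.e_mem i hi _, M'.e_mem i hi _⟩
  n_e := by
    intro hk t
    funext j
    rcases j with j | j
    · exact congrFun (M.n_e hk _) j
    · exact congrFun (M'.n_e hk _) j
  p_e := by
    intro i hi t
    funext j
    rcases j with j | j
    · exact congrFun (M.p_e i hi fun j => t (Sum.inl j)) j
    · exact congrFun (M'.p_e i hi fun j => t (Sum.inr j)) j
  p_int := by
    intro i hi x hx hxi j
    rw [mem_LL_prodK] at hxi
    rw [Subgroup.mem_prod] at hx
    rcases j with j | j
    · exact M.p_int i hi x.1 hx.1 hxi.1 j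
    · exact M'.p_int i hi x.2 hx.2 hxi.2 j
  int_p := by
    intro i hi z
    obtain ⟨γ₁, h1, h2, h4, h3⟩ := M.int_p i hi fun j => z (Sum.inl j)
    obtain ⟨γ₂, h1', h2', h4', h3'⟩ := M'.int_p i hi fun j => z (Sum.inr j)
    refine ⟨(γ₁, γ₂), Subgroup.mem_prod.2 ⟨h1, h1'⟩, (mem_LL_prodK i _).2 ⟨h2, h2'⟩, ?_, ?_⟩
    · funext j
      rcases j with j | j
      · exact congrFun h4 j
      · exact congrFun h4' j
    · rintro (j | j)
      · exact h3 j
      · exact h3' j
  int_n := by
    intro ν
    obtain ⟨γ₁, h1, h2, h3⟩ := M.int_n fun j => ν (Sum.inl j)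
    obtain ⟨γ₂, h1', h2', h3'⟩ := M'.int_n fun j => ν (Sum.inr j)
    refine ⟨(γ₁, γ₂), Subgroup.mem_prod.2 ⟨h1, h1'⟩, ?_, fun hk => ?_⟩
    · funext j
      rcases j with j | j
      · exact congrFun h2 j
      · exact congrFun h2' j
    · funext j
      rcases j with j | j
      · exact congrFun (h3 hk) j
      · exact congrFun (h3' hk) j

end Pool.Agent.Lib.MP_3e612f_nt.NF
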