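import Pool.Agent.Lib.MP_3e612f_nt.NF.G.SqMal
import Pool.Agent.Lib.MP_3e612f_nt.NF.G.Prod
import Pool.Agent.Lib.MP_3e612f_nt.NF.G.Lin
import Pool.Agent.Lib.MP_3e612f_nt.NF.Q.Phi

/-! The functions `Φ_{a,r}` on `Sq G₁ × Sq G₂`. -/

set_option autoImplicit false

namespace Pool.Agent.Lib.MP_3e612f_nt.NF

open Finset
open Pool.Agent.Lib.MP_3e612f_nt.MR (mu ex)

/-- `Φ_{a,r}(w₁, w₂) = F(a r (y₁, y₂)) conj F(a (x₁, x₂))`, `w_i = (x_i, y_i)` -/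
noncomputable def Phi2 {G₁ G₂ : Type} [Group G₁] [Group G₂] (F : G₁ × G₂ → ℂ) (ar : (G₁ × G₂) × (G₁ × G₂)) (w : Sq G₁ × Sq G₂) : ℂ :=
  F (ar.1 * ar.2 * ((w.1 : G₁ × G₁).2, (w.2 : G₂ × G₂).2)) * (starRingEnd ℂ) (F (ar.1 * ((w.1 : G₁ × G₁).1, (w.2 : G₂ × G₂).1)))

variable {G₁ : Type} [Group G₁] [TopologicalSpace G₁] [IsTopologicalGroup G₁] {Γ₁ : Subgroup G₁}
  {G₂ : Type} [Group G₂] [TopologicalSpace G₂] [IsTopologicalGroup G₂] {Γ₂ : Subgroup G₂} {k : ℕ}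

theorem Phi2_cont {F : G₁ × G₂ → ℂ} (hF : Continuous F) : Continuous (fun z : ((G₁ × G₂) × (G₁ × G₂)) × (Sq G₁ × Sq G₂) => Phi2 F z.1 z.2) := by
  unfold Phi2
  have h1 : Continuous (fun z : ((G₁ × G₂) × (G₁ × G₂)) × (Sq G₁ × Sq G₂) => z.1.1 * z.1.2 * ((z.2.1 : G₁ × G₁).2, (z.2.2 : G₂ × G₂).2)) := by
    fun_prop
  have h2 : Continuous (fun z : ((G₁ × G₂) × (G₁ × G₂)) × (Sq G₁ × Sq G₂) => z.1.1 * ((z.2.1 : G₁ × G₁).1, (z.2.2 : G₂ × G₂).1)) := by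
    fun_prop
  exact (hF.comp h1).mul (Complex.continuous_conj.comp (hF.comp h2))

/-- the character of `F` also governs factors inside a product -/
theorem Phi_midK {G : Type} [Group G] [TopologicalSpace G] {Γ : Subgroup G} {κ : Type} (M : MalK G Γ (k + 1) κ) {F : G → ℂ} (ξ : M.I k → ℤ)
    (hξ : ∀ z ∈ LL G k, ∀ x, F (z * x) = ex (dot ξ (M.p k z)) * F x)
    (g : G) {z : G} (hz : z ∈ LL G k) (x : G) :
    F (g * (z * x)) = ex (dot ξ (M.p k z)) * F (g * x) := by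
  have h1 : g * (z * x) = (g * z * g⁻¹) * (g * x) := by group
  rw [h1, hξ _ (LL_conj hz g), M.p_conj (Nat.lt_succ_self k) hz]

variable {κ₁ κ₂ : Type} (M₁ : MalK G₁ Γ₁ (k + 1) κ₁) (M₂ : MalK G₂ Γ₂ (k + 1) κ₂) {F : G₁ × G₂ → ℂ}

theorem sq_second {G : Type} [Group G] [TopologicalSpace G] {Γ : Subgroup G} {κ : Type} (M : MalK G Γ (k + 1) κ) (h : Sq G) (hh : h ∈ LL (Sq G) k) :
    (h : G × G).1 ∈ LL G k ∧ (h : G × G).2 ∈ LL G k ∧ M.p k (h : G × G).2 = M.p k (h : G × G).1 := by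
  obtain ⟨h1, h2⟩ := mem_SqL.1 ((mem_LL_Sq k h).1 hh)
  have h3 : (h : G × G).2 = (h : G × G).1 * ((h : G × G).1⁻¹ * (h : G × G).2) := by group
  have h4 : (h : G × G).2 ∈ LL G k := by
    rw [h3]
    exact mul_mem h1 (LL_le k h2)
  refine ⟨h1, h4, ?_⟩
  conv_lhs => rw [h3]
  rw [M.p_mul k (Nat.lt_succ_self k) _ h1 _ (LL_le k h2), M.p_next (Nat.lt_succ_self k) h2, add_zero]

theorem Phi2_adm (hF : Adm (Γ₁.prod Γ₂) (k + 1) F) (ξ : (M₁.prod M₂).I k → ℤ)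
    (hξ : ∀ z ∈ LL (G₁ × G₂) k, ∀ x, F (z * x) = ex (dot ξ ((M₁.prod M₂).p k z)) * F x) (ar : (G₁ × G₂) × (G₁ × G₂)) :
    Adm ((SqG Γ₁).prod (SqG Γ₂)) k (Phi2 F ar) := by
  refine ⟨?_, ?_, ?_⟩
  · have h := Phi2_cont (G₁ := G₁) (G₂ := G₂) hF.cont
    exact h.comp (Continuous.prodMk_right ar)
  · rintro ⟨x, x'⟩ ⟨γ, γ'⟩ hγ
    obtain ⟨hγ1, hγ2⟩ := Subgroup.mem_prod.1 hγ
    obtain ⟨h1, h2⟩ := mem_SqG.1 hγ1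
    obtain ⟨h1', h2'⟩ := mem_SqG.1 hγ2
    unfold Phi2
    have e1 : ar.1 * ar.2 * ((((x, x') * (γ, γ') : Sq G₁ × Sq G₂).1 : G₁ × G₁).2, (((x, x') * (γ, γ') : Sq G₁ × Sq G₂).2 : G₂ × G₂).2) =
        ar.1 * ar.2 * ((x : G₁ × G₁).2, (x' : G₂ × G₂).2) * ((γ : G₁ × G₁).2, (γ' : G₂ × G₂).2) := by
      rw [mul_assoc (ar.1 * ar.2)]
      rfl
    have e2 : ar.1 * ((((x, x') * (γ, γ') : Sq G₁ × Sq G₂).1 : G₁ × G₁).1, (((x, x') * (γ, γ') : Sq G₁ × Sq G₂).2 : G₂ × G₂).1) =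
        ar.1 * ((x : G₁ × G₁).1, (x' : G₂ × G₂).1) * ((γ : G₁ × G₁).1, (γ' : G₂ × G₂).1) := by
      rw [mul_assoc ar.1]
      rfl
    rw [e1, e2, hF.right _ ((γ : G₁ × G₁).2, (γ' : G₂ × G₂).2) (Subgroup.mem_prod.2 ⟨h2, h2'⟩),
      hF.right _ ((γ : G₁ × G₁).1, (γ' : G₂ × G₂).1) (Subgroup.mem_prod.2 ⟨h1, h1'⟩)]
  · rintro ⟨x, x'⟩ ⟨h, h'⟩ hh
    obtain ⟨hh1, hh2⟩ := (mem_LL_prodK k (h, h')).1 hh
    obtain ⟨a1, a2, a3⟩ := sq_second M₁ h hh1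
    obtain ⟨b1, b2, b3⟩ := sq_second M₂ h' hh2
    unfold Phi2
    have e1 : ar.1 * ar.2 * ((((h, h') * (x, x') : Sq G₁ × Sq G₂).1 : G₁ × G₁).2, (((h, h') * (x, x') : Sq G₁ × Sq G₂).2 : G₂ × G₂).2) =
        ar.1 * ar.2 * (((h : G₁ × G₁).2, (h' : G₂ × G₂).2) * ((x : G₁ × G₁).2, (x' : G₂ × G₂).2)) := rfl
    have e2 : ar.1 * ((((h, h') * (x, x') : Sq G₁ × Sq G₂).1 : G₁ × G₁).1, (((h, h') * (x, x') : Sq G₁ × Sq G₂).2 : G₂ × G₂).1) =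
        ar.1 * (((h : G₁ × G₁).1, (h' : G₂ × G₂).1) * ((x : G₁ × G₁).1, (x' : G₂ × G₂).1)) := rfl
    rw [e1, e2, Phi_midK (M₁.prod M₂) ξ hξ _ ((mem_LL_prodK k _).2 ⟨a2, b2⟩), Phi_midK (M₁.prod M₂) ξ hξ _ ((mem_LL_prodK k _).2 ⟨a1, b1⟩), map_mul]
    have h5 : (M₁.prod M₂).p k ((h : G₁ × G₁).2, (h' : G₂ × G₂).2) = (M₁.prod M₂).p k ((h : G₁ × G₁).1, (h' : G₂ × G₂).1) := by
      show Sum.elim (M₁.p k (h : G₁ × G₁).2) (M₂.p k (h' : G₂ × G₂).2) = Sum.elim (M₁.p k (h : G₁ × G₁).1) (M₂.p k (h' : G₂ × G₂).1)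
      rw [a3, b3]
    rw [h5]
    have h6 := Phi_ex_mul_conj (dot ξ ((M₁.prod M₂).p k ((h : G₁ × G₁).1, (h' : G₂ × G₂).1)))
    linear_combination (F (ar.1 * ar.2 * ((x : G₁ × G₁).2, (x' : G₂ × G₂).2)) * (starRingEnd ℂ) (F (ar.1 * ((x : G₁ × G₁).1, (x' : G₂ × G₂).1)))) * h6

/-- The constant is 0 (`k ≥ 1`, `ξ ≠ 0`), for any relation with a free element. -/
theorem Phi2_zero (hk : 1 ≤ k) (hF : Adm (Γ₁.prod Γ₂) (k + 1) F) (ξ : (M₁.prod M₂).I k → ℤ) (hξ0 : ξ ≠ 0)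
    (hξ : ∀ z ∈ LL (G₁ × G₂) k, ∀ x, F (z * x) = ex (dot ξ ((M₁.prod M₂).p k z)) * F x)
    (R : ℕ → ℕ → Sq G₁ × Sq G₂ → Prop) (w : Sq G₁ × Sq G₂) (hw : RFree R w)
    (ar : (G₁ × G₂) × (G₁ × G₂)) (c : ℂ) (hc : QR R (Phi2 F ar) c) : c = 0 := by
  obtain ⟨t, ht⟩ := Phi_exists_dot_half ξ hξ0
  obtain ⟨z, hzdef⟩ : ∃ z : G₁ × G₂, z = (M₁.prod M₂).e k t := ⟨_, rfl⟩
  have hz : z ∈ LL (G₁ × G₂) k := by
    rw [hzdef]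
    exact (M₁.prod M₂).e_mem k (Nat.lt_succ_self k) t
  have hz' := (mem_LL_prodK k z).1 hz
  have hz1 : (1 : G₁)⁻¹ * z.1 ∈ LL G₁ 1 := by
    rw [inv_one, one_mul]
    exact LL_anti hk hz'.1
  have hz2 : (1 : G₂)⁻¹ * z.2 ∈ LL G₂ 1 := by
    rw [inv_one, one_mul]
    exact LL_anti hk hz'.2
  have hpz : (M₁.prod M₂).p k z = t := by
    rw [hzdef]
    exact (M₁.prod M₂).p_e k (Nat.lt_succ_self k) t
  set ζ : ℂ := ex (dot ξ t) with hζ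
  have hζn : ‖ζ‖ = 1 := norm_ex _
  set u : Sq G₁ × Sq G₂ := (sqMk 1 z.1 hz1, sqMk 1 z.2 hz2) with hu
  have hstep : ∀ v : Sq G₁ × Sq G₂, Phi2 F ar (v * u) = ζ * Phi2 F ar (v * 1) := by
    intro v
    unfold Phi2
    have e1 : ar.1 * ar.2 * (((v * u).1 : G₁ × G₁).2, ((v * u).2 : G₂ × G₂).2) = (ar.1 * ar.2 * ((v.1 : G₁ × G₁).2, (v.2 : G₂ × G₂).2)) * (z * 1) := by
      rw [mul_one, mul_assoc (ar.1 * ar.2)]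
      rfl
    have e2 : ar.1 * (((v * u).1 : G₁ × G₁).1, ((v * u).2 : G₂ × G₂).1) = ar.1 * ((v.1 : G₁ × G₁).1, (v.2 : G₂ × G₂).1) := by
      have e3 : (((v * u).1 : G₁ × G₁).1, ((v * u).2 : G₂ × G₂).1) = ((v.1 : G₁ × G₁).1 * 1, (v.2 : G₂ × G₂).1 * 1) := rfl
      rw [e3, mul_one, mul_one]
    rw [e1, e2, Phi_midK (M₁.prod M₂) ξ hξ _ hz, hpz, mul_one, mul_one, mul_assoc]
  by_contra hc0
  have hcpos : 0 < ‖c‖ := norm_pos_iff.2 hc0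
  have hζ1 : 0 < ‖ζ - 1‖ := norm_pos_iff.2 (sub_ne_zero.2 ht)
  set ε : ℝ := ‖ζ - 1‖ * ‖c‖ / 2 with hε
  have hεpos : 0 < ε := by positivity
  obtain ⟨J₀, hJ₀⟩ := hc.mean w hw ε hεpos
  have hJ := hJ₀ (max J₀ 1) (le_max_left _ _) (le_max_right _ _)
  set J : ℕ := max J₀ 1 with hJdef
  have hJ1 : (1 : ℝ) ≤ (J : ℝ) := by exact_mod_cast le_max_right J₀ 1
  have hA := hJ u
  have hB := hJ 1
  have hid : (∑ j ∈ range J, (Phi2 F ar (w ^ j * u) - c)) - ζ * ∑ j ∈ range J, (Phi2 F ar (w ^ j * 1) - c) = (J : ℂ) * ((ζ - 1) * c) := by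
    rw [Finset.mul_sum, ← Finset.sum_sub_distrib]
    have : ∀ j ∈ range J, (Phi2 F ar (w ^ j * u) - c) - ζ * (Phi2 F ar (w ^ j * 1) - c) = (ζ - 1) * c := by
      intro j _
      rw [hstep]
      ring
    rw [Finset.sum_congr rfl this, Finset.sum_const, Finset.card_range, nsmul_eq_mul]
  have hn : (J : ℝ) * (‖ζ - 1‖ * ‖c‖) < ε * J + ε * J := by
    have h1 : ‖(J : ℂ) * ((ζ - 1) * c)‖ = (J : ℝ) * (‖ζ - 1‖ * ‖c‖) := by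
      rw [norm_mul, norm_mul, Complex.norm_natCast]
    rw [← h1, ← hid]
    refine (norm_sub_le _ _).trans_lt ?_
    rw [norm_mul, hζn, one_mul]
    exact add_lt_add hA hB
  have h2 : ε * J + ε * J = (J : ℝ) * (‖ζ - 1‖ * ‖c‖) := by
    rw [hε]
    ring
  rw [h2] at hn
  exact lt_irrefl _ hn

end Pool.Agent.Lib.MP_3e612f_nt.NF
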