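import Pool.Agent.Lib.MP_3e612f_nt.NF.G.Alg
import Pool.Agent.Lib.MP_3e612f_nt.NF.Q.SqMal

/-! Mal'cev data for `Sq G` (paper: Q-Sq). -/

set_option autoImplicit false

namespace Pool.Agent.Lib.MP_3e612f_nt.NF

open Finset
open scoped commutatorElement

variable {G : Type} [Group G] [TopologicalSpace G] [IsTopologicalGroup G] {Γ : Subgroup G} {k : ℕ} {κ : Type} (M : MalK G Γ (k + 1) κ)

/-- the coordinates -/
noncomputable def sqpK (i : ℕ) (w : Sq G) : M.I i ⊕ M.I (i + 1) → ℝ := Sum.elim (M.p i (w : G × G).1) (M.p (i + 1) ((w : G × G).1⁻¹ * (w : G × G).2))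

/-- the sections -/
noncomputable def sqeK (i : ℕ) (t : M.I i ⊕ M.I (i + 1) → ℝ) : G × G :=
  (M.e i (fun j => t (Sum.inl j)), M.e i (fun j => t (Sum.inl j)) * M.e (i + 1) (fun j => t (Sum.inr j)))

theorem sqe_memK {i : ℕ} (hi : i < k) (t : M.I i ⊕ M.I (i + 1) → ℝ) : sqeK M i t ∈ SqL G i := by
  refine mem_SqL.2 ⟨M.e_mem i (by omega) _, ?_⟩
  have h : (sqeK M i t).1⁻¹ * (sqeK M i t).2 = M.e (i + 1) (fun j => t (Sum.inr j)) :=
    inv_mul_cancel_left _ _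
  rw [h]
  exact M.e_mem (i + 1) (by omega) _

open scoped Classical in
/-- the sections, as elements of `Sq G` -/
noncomputable def sqeK' (i : ℕ) (t : M.I i ⊕ M.I (i + 1) → ℝ) : Sq G := if h : sqeK M i t ∈ Sq G then ⟨sqeK M i t, h⟩ else 1

theorem sqe'_coeK {i : ℕ} (hi : i < k) (t : M.I i ⊕ M.I (i + 1) → ℝ) : (sqeK' M i t : G × G) = sqeK M i t := by
  unfold sqeK'
  rw [dif_pos (SqL_le_Sq i (sqe_memK M hi t))]

theorem sqp_contK {i : ℕ} (hi : i < k) : ContinuousOn (sqpK M i) (LL (Sq G) i : Set (Sq G)) := by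
  have h1 : ContinuousOn (fun w : Sq G => M.p i (w : G × G).1) (LL (Sq G) i : Set (Sq G)) :=
    (M.p_cont i (by omega)).comp (by fun_prop) fun w hw =>
      (mem_SqL.1 ((mem_LL_Sq i w).1 hw)).1
  have h2 : ContinuousOn (fun w : Sq G => M.p (i + 1) ((w : G × G).1⁻¹ * (w : G × G).2))
      (LL (Sq G) i : Set (Sq G)) :=
    (M.p_cont (i + 1) (by omega)).comp (by fun_prop) fun w hw =>
      (mem_SqL.1 ((mem_LL_Sq i w).1 hw)).2
  refine continuousOn_pi.2 fun j => ?_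
  rcases j with j | j
  · exact continuousOn_pi.1 h1 j
  · exact continuousOn_pi.1 h2 j

theorem sqp_mulK {i : ℕ} (hi : i < k) (x : Sq G) (hx : x ∈ LL (Sq G) i) (y : Sq G) (hy : y ∈ LL (Sq G) i) : sqpK M i (x * y) = sqpK M i x + sqpK M i y := by
  obtain ⟨hx1, hx2⟩ := mem_SqL.1 ((mem_LL_Sq i x).1 hx)
  obtain ⟨hy1, hy2⟩ := mem_SqL.1 ((mem_LL_Sq i y).1 hy)
  have h1 : M.p i ((x * y : Sq G) : G × G).1 = M.p i (x : G × G).1 + M.p i (y : G × G).1 :=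
    M.p_mul i (by omega) _ hx1 _ hy1
  have h2 : M.p (i + 1) (((x * y : Sq G) : G × G).1⁻¹ * ((x * y : Sq G) : G × G).2) =
      M.p (i + 1) ((x : G × G).1⁻¹ * (x : G × G).2) +
        M.p (i + 1) ((y : G × G).1⁻¹ * (y : G × G).2) := by
    have h : ((x * y : Sq G) : G × G).1⁻¹ * ((x * y : Sq G) : G × G).2 =
        ((y : G × G).1⁻¹ * ((x : G × G).1⁻¹ * (x : G × G).2) * (y : G × G).1) *
          ((y : G × G).1⁻¹ * (y : G × G).2) := by
      rw [Subgroup.coe_mul, Prod.fst_mul, Prod.snd_mul]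
      group
    rw [h, M.p_mul (i + 1) (by omega) _ (LL_conj' hx2 _) _ hy2, M.p_conj' (by omega) hx2]
  funext j
  rcases j with j | j
  · exact congrFun h1 j
  · exact congrFun h2 j

theorem sqp_kerK {i : ℕ} (hi : i < k) (x : Sq G) (hx : x ∈ LL (Sq G) i) (hn : M.n (x : G × G).1 = 0) : sqpK M i x = 0 ↔ x ∈ LL (Sq G) (i + 1) := by
  obtain ⟨hx1, hx2⟩ := mem_SqL.1 ((mem_LL_Sq i x).1 hx)
  rw [mem_LL_Sq, mem_SqL, ← M.p_ker i (by omega) _ hx1 hn, ← M.p_ker (i + 1) (by omega) _ hx2 (M.n_LL' (Nat.succ_pos i) hx2)]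
  constructor
  · intro h
    exact ⟨funext fun j => congrFun h (Sum.inl j), funext fun j => congrFun h (Sum.inr j)⟩
  · rintro ⟨h1, h2⟩
    funext j
    rcases j with j | j
    · exact congrFun h1 j
    · exact congrFun h2 j

theorem sqe'_contK {i : ℕ} (hi : i < k) : Continuous (sqeK' M i) := by
  rw [continuous_induced_rng]
  have h : (Subtype.val ∘ sqeK' M i : (M.I i ⊕ M.I (i + 1) → ℝ) → G × G) = sqeK M i :=
    funext fun t => sqe'_coeK M hi t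
  rw [h]
  have h1 : Continuous fun t : M.I i ⊕ M.I (i + 1) → ℝ => M.e i (fun j => t (Sum.inl j)) :=
    (M.e_cont i (by omega)).comp (by fun_prop)
  have h2 : Continuous fun t : M.I i ⊕ M.I (i + 1) → ℝ => M.e (i + 1) (fun j => t (Sum.inr j)) :=
    (M.e_cont (i + 1) (by omega)).comp (by fun_prop)
  exact h1.prodMk (h1.mul h2)

theorem sqe'_memK {i : ℕ} (hi : i < k) (t : M.I i ⊕ M.I (i + 1) → ℝ) : sqeK' M i t ∈ LL (Sq G) i := by
  rw [mem_LL_Sq, sqe'_coeK M hi]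
  exact sqe_memK M hi t

theorem sqp_eK {i : ℕ} (hi : i < k) (t : M.I i ⊕ M.I (i + 1) → ℝ) : sqpK M i (sqeK' M i t) = t := by
  unfold sqpK
  rw [sqe'_coeK M hi]
  have h : (sqeK M i t).1⁻¹ * (sqeK M i t).2 = M.e (i + 1) (fun j => t (Sum.inr j)) :=
    inv_mul_cancel_left _ _
  have h1 : (sqeK M i t).1 = M.e i (fun j => t (Sum.inl j)) := rfl
  rw [h, h1, M.p_e i (by omega), M.p_e (i + 1) (by omega)]
  funext j
  rcases j with j | j <;> rfl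

theorem sqp_intK {i : ℕ} (hi : i < k) (x : Sq G) (hx : x ∈ SqG Γ) (hx' : x ∈ LL (Sq G) i) (j : M.I i ⊕ M.I (i + 1)) : ∃ z : ℤ, sqpK M i x j = z := by
  obtain ⟨hx1, hx2⟩ := mem_SqL.1 ((mem_LL_Sq i x).1 hx')
  obtain ⟨hγ1, hγ2⟩ := mem_SqG.1 hx
  rcases j with j | j
  · exact M.p_int i (by omega) _ hγ1 hx1 j
  · exact M.p_int (i + 1) (by omega) _ (mul_mem (inv_mem hγ1) hγ2) hx2 j

theorem int_sqpK {i : ℕ} (hi : i < k) (z : M.I i ⊕ M.I (i + 1) → ℤ) : ∃ γ ∈ SqG Γ, γ ∈ LL (Sq G) i ∧ M.n (γ : G × G).1 = 0 ∧ ∀ j, sqpK M i γ j = z j := by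
  obtain ⟨γ₁, h1, h1', h1n, h1''⟩ := M.int_p i (by omega) fun j => z (Sum.inl j)
  obtain ⟨γ₂, h2, h2', -, h2''⟩ := M.int_p (i + 1) (by omega) fun j => z (Sum.inr j)
  have h : γ₁⁻¹ * (γ₁ * γ₂) = γ₂ := inv_mul_cancel_left _ _
  have hm : ((γ₁, γ₁ * γ₂) : G × G) ∈ SqL G i := by
    refine mem_SqL.2 ⟨h1', ?_⟩
    change γ₁⁻¹ * (γ₁ * γ₂) ∈ LL G (i + 1)
    rwa [h]
  refine ⟨⟨(γ₁, γ₁ * γ₂), SqL_le_Sq i hm⟩, mem_SqG.2 ⟨h1, mul_mem h1 h2⟩, (mem_LL_Sq i _).2 hm, h1n, ?_⟩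
  intro j
  rcases j with j | j
  · exact h1'' j
  · change M.p (i + 1) (γ₁⁻¹ * (γ₁ * γ₂)) j = _
    rw [h]
    exact h2'' j

theorem sqn_eK (hk : 0 < k) (t : M.I 0 ⊕ M.I 1 → ℝ) : M.n (sqeK' M 0 t : G × G).1 = 0 := by
  rw [sqe'_coeK M hk]
  exact M.n_e (Nat.succ_pos k) _

theorem int_sqnK (ν : κ → ℤ) : ∃ γ ∈ SqG Γ, M.n (γ : G × G).1 = ν ∧ (0 < k → sqpK M 0 γ = 0) := by
  obtain ⟨γ, h1, h2, h3⟩ := M.int_n ν
  have hm : ((γ, γ) : G × G) ∈ Sq G := by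
    refine mem_Sq.2 ?_
    change γ⁻¹ * γ ∈ LL G 1
    rw [inv_mul_cancel]
    exact one_mem _
  refine ⟨⟨(γ, γ), hm⟩, mem_SqG.2 ⟨h1, h1⟩, h2, fun hk => ?_⟩
  funext j
  rcases j with j | j
  · exact congrFun (h3 (Nat.succ_pos k)) j
  · change M.p 1 (γ⁻¹ * γ) j = 0
    rw [inv_mul_cancel, M.p_one (by omega)]
    rfl

/-- data of depth `k` for `Sq G` -/
noncomputable def MalK.sq : MalK (Sq G) (SqG Γ) k κ where
  I := fun i => M.I i ⊕ M.I (i + 1)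
  fin := fun i => inferInstance
  n := fun w => M.n (w : G × G).1
  p := sqpK M
  e := sqeK' M
  n_mul := fun x y => M.n_mul _ _
  p_cont := fun _ hi => sqp_contK M hi
  p_mul := fun _ hi x hx y hy => sqp_mulK M hi x hx y hy
  p_ker := fun _ hi x hx hn => sqp_kerK M hi x hx hn
  e_cont := fun _ hi => sqe'_contK M hi
  e_mem := fun _ hi t => sqe'_memK M hi t
  n_e := fun hk t => sqn_eK M hk t
  p_e := fun _ hi t => sqp_eK M hi t
  p_int := fun _ hi x hx hx' j => sqp_intK M hi x hx hx' j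
  int_p := fun _ hi z => int_sqpK M hi z
  int_n := fun ν => int_sqnK M ν

end Pool.Agent.Lib.MP_3e612f_nt.NF
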