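import Pool.Agent.Lib.MP_3e612f_nt.NF.G.SqMal
import Pool.Agent.Lib.MP_3e612f_nt.NF.G.OmN
import Pool.Agent.Lib.MP_3e612f_nt.NF.Q.SqP0

/-! The horizontal coordinates of `(b, γ b γ⁻¹)`. -/

set_option autoImplicit false

namespace Pool.Agent.Lib.MP_3e612f_nt.NF

open Finset
open scoped commutatorElement

/-- the coefficient of `{l β_c}` -/
noncomputable def zet {ι₀ ι₁ : Type} [Fintype ι₀] [Fintype ι₁] (N : ι₁ → ι₀ → ι₀ → ℤ) (T : ι₁ → ι₀ → ℤ) (m : ι₁ → ℤ) (n : ℤ) (β : ι₀ → ℝ) (c : ι₀) : ℝ :=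
  ∑ a, ((∑ j, m j * N j a c : ℤ) : ℝ) * β a + ((∑ j, m j * T j c : ℤ) : ℝ) * n

theorem sq_p0K {G : Type} [Group G] [TopologicalSpace G] [IsTopologicalGroup G] {Γ : Subgroup G} {k : ℕ} (M : MalK G Γ (k + 1) Unit) (hk : 1 ≤ k)
    (N : M.I 1 → M.I 0 → M.I 0 → ℤ) (T : M.I 1 → M.I 0 → ℤ)
    (hN : ∀ (x y : G) (j : M.I 1), M.p 1 ⁅x, y⁆ j = ∑ a, ∑ b, (N j a b : ℝ) * M.p 0 x a * M.p 0 y b + ∑ b, (T j b : ℝ) * ((M.n x () : ℝ) * M.p 0 y b - (M.n y () : ℝ) * M.p 0 x b))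
    (b γ : G) (l : ℕ) (hγ : ∀ i, M.p 0 γ i = ⌊(l : ℝ) * M.p 0 b i⌋) (hγn : M.n γ () = l * M.n b ()) (w : Sq G) (hw : (w : G × G) = (b, γ * b * γ⁻¹)) (m : M.I 0 ⊕ M.I 1 → ℤ) :
    dot m (sqpK M 0 w) = dot (fun i => m (Sum.inl i)) (M.p 0 b) +
      ∑ c, zet N T (fun j => m (Sum.inr j)) (M.n b ()) (M.p 0 b) c * Int.fract ((l : ℝ) * M.p 0 b c) := by
  have hone1 : M.p 1 (1 : G) = 0 := M.p_one (by omega)
  have hinv : ∀ a, M.p 0 b⁻¹ a = -M.p 0 b a := fun a => congrFun (M.p0_inv (by omega) b) a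
  have hninv : M.n b⁻¹ () = -M.n b () := congrFun (M.n_inv b) ()
  have h1 : sqpK M 0 w = Sum.elim (M.p 0 b) (M.p 1 ⁅b⁻¹, γ⁆) := by
    unfold sqpK
    rw [hw]
    have h2 : (b, γ * b * γ⁻¹).1⁻¹ * (b, γ * b * γ⁻¹).2 = ⁅b⁻¹, γ⁆ := by
      rw [commutatorElement_def, inv_inv]
      group
    rw [h2]
  have h2 : ∀ j, M.p 1 ⁅b⁻¹, γ⁆ j =
      ∑ a, ∑ c, (N j a c : ℝ) * M.p 0 b a * Int.fract ((l : ℝ) * M.p 0 b c) + ∑ c, (T j c : ℝ) * (M.n b () : ℝ) * Int.fract ((l : ℝ) * M.p 0 b c) := by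
    intro j
    have h3 : ∑ a, ∑ c, (N j a c : ℝ) * M.p 0 b a * M.p 0 b c = 0 := by
      have h4 := hN b b j
      rw [commutatorElement_self, hone1, Pi.zero_apply] at h4
      have h5 : ∑ c, (T j c : ℝ) * ((M.n b () : ℝ) * M.p 0 b c - (M.n b () : ℝ) * M.p 0 b c) = 0 :=
        sum_eq_zero fun c _ => by ring
      rw [h5, add_zero] at h4
      exact h4.symm
    have h5 : ∀ a c, (N j a c : ℝ) * M.p 0 b⁻¹ a * M.p 0 γ c =
        (N j a c : ℝ) * M.p 0 b a * Int.fract ((l : ℝ) * M.p 0 b c) -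
          l * ((N j a c : ℝ) * M.p 0 b a * M.p 0 b c) := by
      intro a c
      rw [hinv, hγ c]
      unfold Int.fract
      ring
    have h6 : ∀ c, (T j c : ℝ) * ((M.n b⁻¹ () : ℝ) * M.p 0 γ c - (M.n γ () : ℝ) * M.p 0 b⁻¹ c) =
        (T j c : ℝ) * (M.n b () : ℝ) * Int.fract ((l : ℝ) * M.p 0 b c) := by
      intro c
      rw [hinv, hγ c, hninv, hγn]
      unfold Int.fract
      push_cast
      ring
    rw [hN]
    simp only [h5, h6, sum_sub_distrib]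
    rw [← mul_sum_mul_sum_aux l (fun a c => (N j a c : ℝ) * M.p 0 b a * M.p 0 b c), h3, mul_zero,
      sub_zero]
  rw [h1, dot_sumElim]
  congr 1
  unfold dot zet
  simp only [h2]
  simp only [mul_add, add_mul, mul_sum, sum_mul, Int.cast_sum, Int.cast_mul, sum_add_distrib]
  congr 1
  · rw [sum_comm]
    have h6 : ∀ a : M.I 0, (∑ j, ∑ c, (m (Sum.inr j) : ℝ) *
        ((N j a c : ℝ) * M.p 0 b a * Int.fract ((l : ℝ) * M.p 0 b c))) =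
        ∑ c, ∑ j, (m (Sum.inr j) : ℝ) *
        ((N j a c : ℝ) * M.p 0 b a * Int.fract ((l : ℝ) * M.p 0 b c)) := fun a => sum_comm
    simp only [h6]
    rw [sum_comm]
    refine sum_congr rfl fun c _ => sum_congr rfl fun a _ => sum_congr rfl fun j _ => ?_
    ring
  · rw [sum_comm]
    refine sum_congr rfl fun c _ => sum_congr rfl fun j _ => ?_
    ring

end Pool.Agent.Lib.MP_3e612f_nt.NF
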