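import Pool.Agent.Lib.MP_3e612f_nt.NF.G.Orbit
import Pool.Agent.Lib.MP_3e612f_nt.NF.G.SqP0
import Pool.Agent.Lib.MP_3e612f_nt.NF.G.Net
import Pool.Agent.Lib.MP_3e612f_nt.NF.Q.Vdc
import Pool.Agent.Lib.MP_3e612f_nt.NF.Pig

/-! From a large mean to a bracket relation for many shifts, for pairs. -/

set_option autoImplicit false

namespace Pool.Agent.Lib.MP_3e612f_nt.NF

open Finset
open Pool.Agent.Lib.MP_3e612f_nt.MR (mu ex)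
open scoped commutatorElement

/-- the bracket expression -/
noncomputable def brk {ι₀ ι₁ η₀ η₁ : Type} [Fintype ι₀] [Fintype ι₁] [Fintype η₀] [Fintype η₁] (N₁ : ι₁ → ι₀ → ι₀ → ℤ) (T₁ : ι₁ → ι₀ → ℤ) (N₂ : η₁ → η₀ → η₀ → ℤ) (T₂ : η₁ → η₀ → ℤ)
    (n₁ n₂ : ℤ) (β₁ : ι₀ → ℝ) (β₂ : η₀ → ℝ) (s : ℕ) (m : (ι₀ ⊕ ι₁) ⊕ (η₀ ⊕ η₁) → ℤ) (l : ℕ) : ℝ :=
  (n₁ : ℝ) ^ s * (dot (fun i => m (Sum.inl (Sum.inl i))) β₁ + ∑ c, zet N₁ T₁ (fun j => m (Sum.inl (Sum.inr j))) n₁ β₁ c * Int.fract ((l : ℝ) * β₁ c)) +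
  (n₂ : ℝ) ^ s * (dot (fun i => m (Sum.inr (Sum.inl i))) β₂ + ∑ c, zet N₂ T₂ (fun j => m (Sum.inr (Sum.inr j))) n₂ β₂ c * Int.fract ((l : ℝ) * β₂ c))

theorem RelW.mono {k : ℕ} {ι₁ ι₂ : Type} [Fintype ι₁] [Fintype ι₂] {n₁ n₂ : ℤ} {x₁ : ι₁ → ℝ} {x₂ : ι₂ → ℝ} {B B' J : ℕ} (hB : B ≤ B') (h : RelW k n₁ n₂ x₁ x₂ B J) :
    RelW k n₁ n₂ x₁ x₂ B' J := by
  obtain ⟨s, hs, m, h0, h1, h2⟩ := h
  have hB' : (B : ℤ) ≤ B' := by exact_mod_cast hB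
  have hB'' : (B : ℝ) ≤ B' := by exact_mod_cast hB
  exact ⟨s, hs, m, h0, fun i => (h1 i).trans hB', h2.trans (div_le_div_of_nonneg_right hB'' (Nat.cast_nonneg J))⟩

theorem R2_mono {G₁ G₂ : Type} [Group G₁] [TopologicalSpace G₁] [Group G₂] [TopologicalSpace G₂] {Γ₁ : Subgroup G₁} {Γ₂ : Subgroup G₂} {k : ℕ}
    (M₁ : MalK G₁ Γ₁ k Unit) (M₂ : MalK G₂ Γ₂ k Unit) : RMono (R2 M₁ M₂) := by
  intro B B' J g hB h h1 h2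
  exact (h h1 h2).mono hB

theorem step_a2 {G₁ : Type} [Group G₁] [TopologicalSpace G₁] [IsTopologicalGroup G₁] {Γ₁ : Subgroup G₁}
    {G₂ : Type} [Group G₂] [TopologicalSpace G₂] [IsTopologicalGroup G₂] {Γ₂ : Subgroup G₂} {k : ℕ} (M₁ : MalK G₁ Γ₁ (k + 1) Unit) (M₂ : MalK G₂ Γ₂ (k + 1) Unit) (hk : 1 ≤ k) {F : G₁ × G₂ → ℂ}
    (hF : Adm (Γ₁.prod Γ₂) (k + 1) F) (hF1 : ∀ x, ‖F x‖ ≤ 1) (ξ : (M₁.prod M₂).I k → ℤ) (hξ : ∀ z ∈ LL (G₁ × G₂) k, ∀ x, F (z * x) = ex (dot ξ ((M₁.prod M₂).p k z)) * F x)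
    (hq : ∀ ar, QR (R2 M₁.sq M₂.sq) (Phi2 F ar) 0)
    (N₁ : M₁.I 1 → M₁.I 0 → M₁.I 0 → ℤ) (T₁ : M₁.I 1 → M₁.I 0 → ℤ)
    (hN₁ : ∀ (x y : G₁) (j : M₁.I 1), M₁.p 1 ⁅x, y⁆ j = ∑ a, ∑ b, (N₁ j a b : ℝ) * M₁.p 0 x a * M₁.p 0 y b + ∑ b, (T₁ j b : ℝ) * ((M₁.n x () : ℝ) * M₁.p 0 y b - (M₁.n y () : ℝ) * M₁.p 0 x b))
    (N₂ : M₂.I 1 → M₂.I 0 → M₂.I 0 → ℤ) (T₂ : M₂.I 1 → M₂.I 0 → ℤ)
    (hN₂ : ∀ (x y : G₂) (j : M₂.I 1), M₂.p 1 ⁅x, y⁆ j = ∑ a, ∑ b, (N₂ j a b : ℝ) * M₂.p 0 x a * M₂.p 0 y b + ∑ b, (T₂ j b : ℝ) * ((M₂.n x () : ℝ) * M₂.p 0 y b - (M₂.n y () : ℝ) * M₂.p 0 x b))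
    (κ : ℝ) (hκ : 0 < κ) (hκ1 : κ ≤ 1) : ∃ B : ℕ, ∃ δ : ℝ, 0 < δ ∧ ∀ (J : ℕ) (g a : G₁ × G₂), M₁.n g.1 () ≠ 0 → M₂.n g.2 () ≠ 0 → 1 ≤ κ ^ 2 * J / 16 →
      κ * J ≤ ‖∑ j ∈ range J, F (g ^ j * a)‖ →
      ∃ s < k, ∃ m : (M₁.I 0 ⊕ M₁.I 1) ⊕ (M₂.I 0 ⊕ M₂.I 1) → ℤ, m ≠ 0 ∧ (∀ i, |m i| ≤ B) ∧
        δ * (⌊κ ^ 2 * J / 16⌋₊ : ℝ) ≤ ((((range ⌊κ ^ 2 * J / 16⌋₊).filter (fun l : ℕ =>
          dZ (brk N₁ T₁ N₂ T₂ (M₁.n g.1 ()) (M₂.n g.2 ()) (M₁.p 0 g.1) (M₂.p 0 g.2) s m l) ≤ B / (⌊κ ^ 2 * J / 16⌋₊ : ℝ))).card : ℕ) : ℝ) := by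
  classical
  obtain ⟨D, hDc, hD⟩ := decK (M₁.prod M₂)
  have hD' : ∀ x : G₁ × G₂, ∃ r ∈ D, ∃ h ∈ LL (G₁ × G₂) (k + 1), ∃ γ ∈ Γ₁.prod Γ₂, x = r * h * γ ∧
      (M₁.prod M₂).n r = 0 ∧ (M₁.prod M₂).n γ = (M₁.prod M₂).n x ∧ ∀ j, (M₁.prod M₂).p 0 γ j = ⌊(M₁.prod M₂).p 0 x j⌋ := by
    intro x
    obtain ⟨r, hr, h, hh, γ, hγ, e1, e2⟩ := hD x
    exact ⟨r, hr, h, hh, γ, hγ, e1, e2 (Nat.succ_pos k)⟩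
  obtain ⟨B, hB⟩ := netK (M₁.sq.prod M₂.sq) (R2 M₁.sq M₂.sq) (R2_mono M₁.sq M₂.sq) (fun ar : (G₁ × G₂) × (G₁ × G₂) => Phi2 F ar) (Phi2_cont hF.cont)
    (fun ar => Phi2_adm M₁ M₂ hF ξ hξ ar) (D ×ˢ D) (hDc.prod hDc) (fun ar _ => hq ar) (κ ^ 2 / 32) (by positivity)
  obtain ⟨U, hUne, -, hU⟩ := box_finset ((M₁.I 0 ⊕ M₁.I 1) ⊕ (M₂.I 0 ⊕ M₂.I 1)) B
  obtain ⟨V, hV⟩ : ∃ V : Finset (ℕ × ((M₁.I 0 ⊕ M₁.I 1) ⊕ (M₂.I 0 ⊕ M₂.I 1) → ℤ)), V = range k ×ˢ U := ⟨_, rfl⟩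
  have hVne : V.Nonempty := by
    rw [hV]
    exact Nonempty.product ⟨0, mem_range.2 hk⟩ hUne
  have hUc : (0 : ℝ) < V.card := by exact_mod_cast hVne.card_pos
  refine ⟨B, κ ^ 2 / 32 / V.card, by positivity, ?_⟩
  intro J g a hg1 hg2 h1 h2
  obtain ⟨a', ha', b, hb, hbn, hFb, hl⟩ := orbit_shift2 (M₁.prod M₂) hF D hD' g a
  have hb1 : M₁.p 0 b.1 = M₁.p 0 g.1 := funext fun i => congrFun hb (Sum.inl i)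
  have hb2 : M₂.p 0 b.2 = M₂.p 0 g.2 := funext fun i => congrFun hb (Sum.inr i)
  have hbn1 : M₁.n b.1 () = M₁.n g.1 () := congrFun hbn (Sum.inl ())
  have hbn2 : M₂.n b.2 () = M₂.n g.2 () := congrFun hbn (Sum.inr ())
  have hv := vdc (fun j => F (a' * b ^ j)) (fun j => hF1 _) κ hκ hκ1 J (by
    have e : ∑ j ∈ range J, F (a' * b ^ j) = ∑ j ∈ range J, F (g ^ j * a) := sum_congr rfl fun j _ => (hFb j).symm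
    show κ * J ≤ ‖∑ j ∈ range J, F (a' * b ^ j)‖
    rw [e]
    exact h2)
  have hK1 : 1 ≤ ⌊κ ^ 2 * J / 16⌋₊ := Nat.le_floor (by simpa using h1)
  have hJ0 : (0 : ℝ) ≤ J := Nat.cast_nonneg J
  have hKJ : (⌊κ ^ 2 * J / 16⌋₊ : ℝ) ≤ J := by
    have e1 : (⌊κ ^ 2 * J / 16⌋₊ : ℝ) ≤ κ ^ 2 * J / 16 := Nat.floor_le (by positivity)
    have e2 : κ ^ 2 ≤ 1 := pow_le_one₀ hκ.le hκ1
    nlinarith
  generalize ⌊κ ^ 2 * J / 16⌋₊ = K at hv hK1 hKJ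
  have hK0 : (0 : ℝ) < K := by exact_mod_cast hK1
  have hJ1 : 1 ≤ J := by
    have : (1 : ℝ) ≤ J := le_trans (by exact_mod_cast hK1) hKJ
    exact_mod_cast this
  set L : Finset ℕ := (range K).filter (fun l : ℕ => κ ^ 2 / 32 * J ≤
    ‖∑ j ∈ range J, (fun j => F (a' * b ^ j)) (j + l) * (starRingEnd ℂ) ((fun j => F (a' * b ^ j)) j)‖) with hL
  have hv' : κ ^ 2 / 32 * (K : ℝ) ≤ (L.card : ℝ) := hv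
  obtain ⟨P, hP⟩ : ∃ P : ℕ → ℕ × ((M₁.I 0 ⊕ M₁.I 1) ⊕ (M₂.I 0 ⊕ M₂.I 1) → ℤ) → Prop, P = fun l u => u.2 ≠ 0 ∧
    dZ (brk N₁ T₁ N₂ T₂ (M₁.n g.1 ()) (M₂.n g.2 ()) (M₁.p 0 g.1) (M₂.p 0 g.2) u.1 u.2 l) ≤ B / (K : ℝ) := ⟨_, rfl⟩
  have key : ∀ l ∈ L, ∃ u ∈ V, P l u := by
    intro l hlL
    rw [hL, mem_filter] at hlL
    obtain ⟨r, hr, γ, hγ, hγn, w, hw1, hw2, hwj⟩ := hl l
    have e1 : κ ^ 2 / 32 * J ≤ ‖∑ j ∈ range J, Phi2 F (a', r) (w ^ j * 1)‖ := by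
      have e2 : ∑ j ∈ range J, Phi2 F (a', r) (w ^ j * 1) =
          ∑ j ∈ range J, (fun j => F (a' * b ^ j)) (j + l) * (starRingEnd ℂ) ((fun j => F (a' * b ^ j)) j) := by
        refine sum_congr rfl fun j _ => ?_
        rw [mul_one]
        exact (hwj j).symm
      rw [e2]
      exact hlL.2
    have hn1 : M₁.sq.n w.1 () = M₁.n g.1 () := by
      show M₁.n (w.1 : G₁ × G₁).1 () = M₁.n g.1 ()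
      rw [hw1, hbn1]
    have hn2 : M₂.sq.n w.2 () = M₂.n g.2 () := by
      show M₂.n (w.2 : G₂ × G₂).1 () = M₂.n g.2 ()
      rw [hw2, hbn2]
    have e7 := hB (a', r) ⟨ha', hr⟩ J w 1 hJ1 e1 (by rw [hn1]; exact hg1) (by rw [hn2]; exact hg2)
    rw [hn1, hn2] at e7
    have e8 : ∃ s < k, ∃ m : (M₁.I 0 ⊕ M₁.I 1) ⊕ (M₂.I 0 ⊕ M₂.I 1) → ℤ, m ≠ 0 ∧ (∀ i, |m i| ≤ B) ∧
        dZ ((M₁.n g.1 () : ℝ) ^ s * dot (fun i => m (Sum.inl i)) (sqpK M₁ 0 w.1) + (M₂.n g.2 () : ℝ) ^ s * dot (fun i => m (Sum.inr i)) (sqpK M₂ 0 w.2)) ≤ B / (J : ℝ) := e7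
    obtain ⟨s, hs, m, hm0, hmB, hmd⟩ := e8
    refine ⟨(s, m), ?_, ?_⟩
    · rw [hV, mem_product]
      exact ⟨mem_range.2 hs, (hU m).2 hmB⟩
    rw [hP]
    refine ⟨hm0, ?_⟩
    have e3 := sq_p0K M₁ hk N₁ T₁ hN₁ b.1 γ.1 l (fun i => hγ (Sum.inl i)) (congrFun hγn (Sum.inl ())) w.1 hw1 (fun i => m (Sum.inl i))
    have e4 := sq_p0K M₂ hk N₂ T₂ hN₂ b.2 γ.2 l (fun i => hγ (Sum.inr i)) (congrFun hγn (Sum.inr ())) w.2 hw2 (fun i => m (Sum.inr i))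
    rw [hb1, hbn1] at e3
    rw [hb2, hbn2] at e4
    have e5 : brk N₁ T₁ N₂ T₂ (M₁.n g.1 ()) (M₂.n g.2 ()) (M₁.p 0 g.1) (M₂.p 0 g.2) s m l =
        (M₁.n g.1 () : ℝ) ^ s * dot (fun i => m (Sum.inl i)) (sqpK M₁ 0 w.1) + (M₂.n g.2 () : ℝ) ^ s * dot (fun i => m (Sum.inr i)) (sqpK M₂ 0 w.2) := by
      unfold brk
      rw [← e3, ← e4]
    show dZ (brk N₁ T₁ N₂ T₂ (M₁.n g.1 ()) (M₂.n g.2 ()) (M₁.p 0 g.1) (M₂.p 0 g.2) s m l) ≤ _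
    rw [e5]
    exact hmd.trans (div_le_div_of_nonneg_left (Nat.cast_nonneg B) hK0 hKJ)
  obtain ⟨u, huU, hu⟩ := pig L V P key hVne
  have hpos : 0 < (L.card : ℝ) / V.card := by
    apply div_pos _ hUc
    refine lt_of_lt_of_le ?_ hv'
    positivity
  have hne : (L.filter (fun l : ℕ => P l u)).Nonempty := by
    rw [← card_pos]
    have := lt_of_lt_of_le hpos hu
    exact_mod_cast this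
  have huV : u.1 < k ∧ u.2 ∈ U := by
    rw [hV, mem_product, mem_range] at huU
    exact huU
  refine ⟨u.1, huV.1, u.2, ?_, (hU u.2).1 huV.2, ?_⟩
  · obtain ⟨l, hl'⟩ := hne
    have h3 := (mem_filter.1 hl').2
    rw [hP] at h3
    exact h3.1
  · have e5 : κ ^ 2 / 32 / V.card * (K : ℝ) ≤ (L.card : ℝ) / V.card := by
      rw [div_mul_eq_mul_div]
      exact div_le_div_of_nonneg_right hv' hUc.le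
    refine e5.trans (hu.trans ?_)
    have e6 : (L.filter (fun l : ℕ => P l u)) ⊆
      (range K).filter (fun l : ℕ => dZ (brk N₁ T₁ N₂ T₂ (M₁.n g.1 ()) (M₂.n g.2 ()) (M₁.p 0 g.1) (M₂.p 0 g.2) u.1 u.2 l) ≤ B / (K : ℝ)) := by
      intro l hl'
      rw [mem_filter, hL, mem_filter] at hl'
      rw [mem_filter]
      have h3 := hl'.2
      rw [hP] at h3
      exact ⟨hl'.1.1, h3.2⟩
    exact_mod_cast card_le_card e6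

end Pool.Agent.Lib.MP_3e612f_nt.NF
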