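import Pool.Agent.Lib.MP_3e612f_nt.NF.G.Brk

/-! The case of a nontrivial vertical character, for pairs. -/

set_option autoImplicit false

namespace Pool.Agent.Lib.MP_3e612f_nt.NF

open Finset
open Pool.Agent.Lib.MP_3e612f_nt.MR (mu ex)
open scoped commutatorElement

/-- If there are no horizontal coordinates then `LL G 1 = LL G 2 = ..` and there are no other coordinates either. -/
theorem stepB_nonemptyK {G : Type} [Group G] [TopologicalSpace G] [IsTopologicalGroup G] {Γ : Subgroup G} {k : ℕ}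
    (M : MalK G Γ (k + 1) Unit) (hk : 1 ≤ k) (i : M.I k) : Nonempty (M.I 0) := by
  classical
  by_contra hne
  rw [not_nonempty_iff] at hne
  obtain ⟨N, T, hN⟩ := exists_formK M (by omega)
  have h1 : ∀ m : M.I 1 → ℤ, m = 0 := by
    intro m
    by_contra hm
    rcases form_nondegK M (by omega) N T hN m hm with ⟨a, -⟩ | ⟨a, -⟩
    · exact hne.false a
    · exact hne.false a
  have h2 : IsEmpty (M.I 1) := by
    refine ⟨fun j => ?_⟩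
    have h3 := congrFun (h1 (Pi.single j 1)) j
    rw [Pi.single_eq_same, Pi.zero_apply] at h3
    exact one_ne_zero h3
  have h3 : LL G 1 ≤ LL G 2 := by
    intro x hx
    rw [← M.p_ker 1 (by omega) x hx (M.n_LL hx)]
    exact Subsingleton.elim _ _
  have h4 : ∀ i, 1 ≤ i → LL G i ≤ LL G (i + 1) := by
    intro i hi
    induction i with
    | zero => omega
    | succ i ih =>
      rcases Nat.eq_zero_or_pos i with h0 | h0
      · subst h0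
        exact h3
      · have h5 : LL G (i + 1) = ⁅LL G i, (⊤ : Subgroup G)⁆ := rfl
        have h6 : LL G (i + 1 + 1) = ⁅LL G (i + 1), (⊤ : Subgroup G)⁆ := rfl
        rw [h6]
        conv_lhs => rw [h5]
        exact Subgroup.commutator_mono (ih h0) le_rfl
  have h5 := M.p_e k (Nat.lt_succ_self k) (fun _ => 1)
  rw [M.p_next (Nat.lt_succ_self k) (h4 k hk (M.e_mem k (Nat.lt_succ_self k) _))] at h5
  exact zero_ne_one (congrFun h5 i)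

theorem step_b2 {G₁ : Type} [Group G₁] [TopologicalSpace G₁] [IsTopologicalGroup G₁] {Γ₁ : Subgroup G₁}
    {G₂ : Type} [Group G₂] [TopologicalSpace G₂] [IsTopologicalGroup G₂] {Γ₂ : Subgroup G₂} {k : ℕ} (M₁ : MalK G₁ Γ₁ (k + 1) Unit) (M₂ : MalK G₂ Γ₂ (k + 1) Unit) (hk : 1 ≤ k) {F : G₁ × G₂ → ℂ}
    (hF : Adm (Γ₁.prod Γ₂) (k + 1) F) (hF1 : ∀ x, ‖F x‖ ≤ 1) (ξ : (M₁.prod M₂).I k → ℤ) (hξ0 : ξ ≠ 0) (hξ : ∀ z ∈ LL (G₁ × G₂) k, ∀ x, F (z * x) = ex (dot ξ ((M₁.prod M₂).p k z)) * F x)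
    (hq : ∀ ar, QR (R2 M₁.sq M₂.sq) (Phi2 F ar) 0) : QR (R2 M₁ M₂) F 0 := by
  classical
  obtain ⟨N₁, T₁, hN₁⟩ := exists_formK M₁ (by omega)
  obtain ⟨N₂, T₂, hN₂⟩ := exists_formK M₂ (by omega)
  have hne : Nonempty (M₁.I 0 ⊕ M₂.I 0) := by
    have h1 : ∃ i, ξ i ≠ 0 := by
      by_contra h
      push Not at h
      exact hξ0 (funext h)
    obtain ⟨i, -⟩ := h1
    rcases i with i | i
    · obtain ⟨j⟩ := stepB_nonemptyK M₁ hk i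
      exact ⟨Sum.inl j⟩
    · obtain ⟨j⟩ := stepB_nonemptyK M₂ hk i
      exact ⟨Sum.inr j⟩
  obtain ⟨i₀⟩ := hne
  intro κ₀ hκ₀
  obtain ⟨κ, hκ, hκ1, hκ₀κ⟩ : ∃ κ : ℝ, 0 < κ ∧ κ ≤ 1 ∧ κ ≤ κ₀ :=
    ⟨min κ₀ 1, lt_min hκ₀ one_pos, min_le_right _ _, min_le_left _ _⟩
  obtain ⟨B₁, δ, hδ, hA⟩ := step_a2 M₁ M₂ hk hF hF1 ξ hξ hq N₁ T₁ hN₁ N₂ T₂ hN₂ κ hκ hκ1
  obtain ⟨B₂, hB₂⟩ := brk_rel N₁ T₁ N₂ T₂ (form_nondegK M₁ (by omega) N₁ T₁ hN₁) (form_nondegK M₂ (by omega) N₂ T₂ hN₂) δ B₁ k hδ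
  obtain ⟨B₃, hB₃⟩ := exists_nat_ge (32 * ((B₂ : ℝ) + 1) / κ ^ 2)
  have hκ2 : (0 : ℝ) < κ ^ 2 := by positivity
  have hκ21 : κ ^ 2 ≤ 1 := by nlinarith
  have hB₃' : 32 * ((B₂ : ℝ) + 1) ≤ B₃ * κ ^ 2 := by
    rwa [div_le_iff₀ hκ2] at hB₃
  have hB₂3 : (B₂ : ℝ) + 1 ≤ B₃ := by
    have h1 : (0 : ℝ) ≤ B₃ := Nat.cast_nonneg _
    have h2 : (0 : ℝ) ≤ (B₂ : ℝ) + 1 := by positivity
    nlinarith
  have hB₂3' : B₂ + 1 ≤ B₃ := by exact_mod_cast hB₂3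
  refine ⟨B₃, ?_⟩
  intro J g a hJ hJs hg1 hg2
  have hJ0 : (0 : ℝ) < J := by exact_mod_cast hJ
  have hJs' : κ * J ≤ ‖∑ j ∈ range J, F (g ^ j * a)‖ := by
    have h1 : ∑ j ∈ range J, (F (g ^ j * a) - 0) = ∑ j ∈ range J, F (g ^ j * a) := by
      simp only [sub_zero]
    rw [h1] at hJs
    exact (mul_le_mul_of_nonneg_right hκ₀κ hJ0.le).trans hJs
  rcases lt_or_ge (κ ^ 2 * J / 16) 1 with hsmall | hbig
  · refine ⟨0, Nat.succ_pos k, Pi.single i₀ 1, ?_, ?_, ?_⟩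
    · intro h
      have h1 := congrFun h i₀
      rw [Pi.single_eq_same, Pi.zero_apply] at h1
      exact one_ne_zero h1
    · intro i
      have h1 : |(Pi.single i₀ 1 : M₁.I 0 ⊕ M₂.I 0 → ℤ) i| ≤ 1 := by
        by_cases hi : i = i₀
        · rw [hi, Pi.single_eq_same, abs_one]
        · rw [Pi.single_eq_of_ne hi, abs_zero]
          exact zero_le_one
      refine h1.trans ?_
      have h2 : 1 ≤ B₃ := by omega
      exact_mod_cast h2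
    · refine (dZ_le_half _).trans ?_
      rw [le_div_iff₀ hJ0]
      have h1 : κ ^ 2 * J < 16 := by linarith
      have h2 : (32 : ℝ) ≤ B₃ * κ ^ 2 := by
        have : (0 : ℝ) ≤ (B₂ : ℝ) := by positivity
        linarith
      have h3 : κ ^ 2 * J ≤ κ ^ 2 * B₃ := by linarith
      have h4 : (J : ℝ) ≤ B₃ := le_of_mul_le_mul_left h3 hκ2
      linarith
  · obtain ⟨s, hs, m, hm0, hmB, hcard⟩ := hA J g a hg1 hg2 hbig hJs'
    set K : ℕ := ⌊κ ^ 2 * J / 16⌋₊ with hKdef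
    have hK1 : 1 ≤ K := by
      rw [hKdef, Nat.one_le_floor_iff]
      exact hbig
    have hK0 : (0 : ℝ) < K := by exact_mod_cast hK1
    have hKge : κ ^ 2 * J / 32 ≤ K := by
      have h1 : κ ^ 2 * J / 16 < (K : ℝ) + 1 := Nat.lt_floor_add_one _
      have h2 : (1 : ℝ) ≤ K := by exact_mod_cast hK1
      linarith
    have h3 := hB₂ K hK1 (M₁.n g.1 ()) (M₂.n g.2 ()) (M₁.p 0 g.1) (M₂.p 0 g.2) s hs m hm0 hmB hcard
    refine h3.scale (by omega) ?_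
    rw [div_le_div_iff₀ hK0 hJ0]
    have h2 : (B₂ : ℝ) * (κ ^ 2 * J) ≤ B₂ * (32 * K) := mul_le_mul_of_nonneg_left (by linarith) (Nat.cast_nonneg _)
    have h4 : (32 * (B₂ : ℝ)) * K ≤ (B₃ * κ ^ 2) * K :=
      mul_le_mul_of_nonneg_right (by linarith) hK0.le
    have h5 : κ ^ 2 * (B₂ * J) ≤ κ ^ 2 * ((B₃ : ℝ) * K) := by linarith
    exact le_of_mul_le_mul_left h5 hκ2

theorem QR.const_mul {H : Type} [Group H] {R : ℕ → ℕ → H → Prop} {F : H → ℂ} (C : ℝ) (hC : 0 < C) (h : QR R (fun x => (C : ℂ)⁻¹ * F x) 0) : QR R F 0 := by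
  intro κ hκ
  obtain ⟨B, hB⟩ := h (κ / C) (div_pos hκ hC)
  refine ⟨B, ?_⟩
  intro J g a hJ hJs
  apply hB J g a hJ
  have h1 : ∑ j ∈ range J, ((C : ℂ)⁻¹ * F (g ^ j * a) - 0) =
      (C : ℂ)⁻¹ * ∑ j ∈ range J, (F (g ^ j * a) - 0) := by
    rw [Finset.mul_sum]
    apply Finset.sum_congr rfl
    intro j _
    ring
  rw [h1, norm_mul, norm_inv, Complex.norm_real, Real.norm_of_nonneg hC.le]
  rw [div_mul_eq_mul_div, div_eq_inv_mul]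
  exact mul_le_mul_of_nonneg_left hJs (inv_nonneg.2 hC.le)

/-- The same without `|F| ≤ 1`: `Adm.bdd`, divide by `C`. -/
theorem step_b2' {G₁ : Type} [Group G₁] [TopologicalSpace G₁] [IsTopologicalGroup G₁] {Γ₁ : Subgroup G₁}
    {G₂ : Type} [Group G₂] [TopologicalSpace G₂] [IsTopologicalGroup G₂] {Γ₂ : Subgroup G₂} {k : ℕ} (M₁ : MalK G₁ Γ₁ (k + 1) Unit) (M₂ : MalK G₂ Γ₂ (k + 1) Unit) (hk : 1 ≤ k) {F : G₁ × G₂ → ℂ}
    (hF : Adm (Γ₁.prod Γ₂) (k + 1) F) (ξ : (M₁.prod M₂).I k → ℤ) (hξ0 : ξ ≠ 0) (hξ : ∀ z ∈ LL (G₁ × G₂) k, ∀ x, F (z * x) = ex (dot ξ ((M₁.prod M₂).p k z)) * F x)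
    (w : Sq G₁ × Sq G₂) (hw : RFree (R2 M₁.sq M₂.sq) w)
    (ih : ∀ A : Sq G₁ × Sq G₂ → ℂ, Adm ((SqG Γ₁).prod (SqG Γ₂)) k A → ∃ c, QR (R2 M₁.sq M₂.sq) A c) : QR (R2 M₁ M₂) F 0 := by
  obtain ⟨C, hC, hFC⟩ := Adm.bddK (M₁.prod M₂) hF
  have hCc : (C : ℂ) ≠ 0 := by exact_mod_cast hC.ne'
  have hA : Adm (Γ₁.prod Γ₂) (k + 1) (fun x => (C : ℂ)⁻¹ * F x) :=
    ⟨continuous_const.mul hF.cont, fun x γ hγ => by rw [hF.right x γ hγ],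
      fun x h hh => by rw [hF.left x h hh]⟩
  have hA1 : ∀ x, ‖(C : ℂ)⁻¹ * F x‖ ≤ 1 := by
    intro x
    rw [norm_mul, norm_inv, Complex.norm_real, Real.norm_of_nonneg hC.le,
      inv_mul_le_iff₀ hC, mul_one]
    exact hFC x
  have hAξ : ∀ z ∈ LL (G₁ × G₂) k, ∀ x, (C : ℂ)⁻¹ * F (z * x) =
      ex (dot ξ ((M₁.prod M₂).p k z)) * ((C : ℂ)⁻¹ * F x) := by
    intro z hz x
    rw [hξ z hz x]
    ring
  have hq : ∀ ar : (G₁ × G₂) × (G₁ × G₂), QR (R2 M₁.sq M₂.sq) (Phi2 (fun x => (C : ℂ)⁻¹ * F x) ar) 0 := by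
    intro ar
    obtain ⟨c, hc⟩ := ih _ (Phi2_adm M₁ M₂ hA ξ hAξ ar)
    have hc0 := Phi2_zero M₁ M₂ hk hA ξ hξ0 hAξ _ w hw ar c hc
    rwa [hc0] at hc
  exact QR.const_mul C hC (step_b2 M₁ M₂ hk hA hA1 ξ hξ0 hAξ hq)

end Pool.Agent.Lib.MP_3e612f_nt.NF
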